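import Pool.Agent.Lib.MP_b78339_an.Defs

set_option autoImplicit false

open MeasureTheory
open scoped ENNReal NNReal ComplexConjugate

namespace Pool.Agent.Lib.MP_b78339_an

abbrev T := UnitAddCircle

instance probT : IsProbabilityMeasure (volume : Measure T) := ⟨UnitAddCircle.measure_univ⟩

noncomputable def e (n : ℤ) (t : T) : ℂ := fourier n t

lemma norm_e (n : ℤ) (t : T) : ‖e n t‖ = 1 := by
  rw [e, fourier_apply, Circle.norm_coe]

lemma e_add (m n : ℤ) (t : T) : e (m + n) t = e m t * e n t := fourier_add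

lemma e_zero (t : T) : e 0 t = 1 := fourier_zero

lemma e_add_pt (n : ℤ) (s t : T) : e n (s + t) = e n s * e n t := by
  simp only [e, fourier_apply, smul_add, AddCircle.toCircle_add, Circle.coe_mul]

lemma e_neg_pt (n : ℤ) (t : T) : e n (-t) = e (-n) t := by
  simp only [e, fourier_apply, smul_neg, neg_smul]

lemma e_sub_pt (n : ℤ) (s t : T) : e n (s - t) = e n s * e (-n) t := by
  rw [sub_eq_add_neg, e_add_pt, e_neg_pt]

lemma e_mul_neg (n : ℤ) (t : T) : e n t * e (-n) t = 1 := by
  rw [← e_add, add_neg_cancel, e_zero]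

lemma conj_e (n : ℤ) (t : T) : conj (e n t) = e (-n) t := fourier_neg.symm

@[fun_prop]
lemma continuous_e (n : ℤ) : Continuous (e n) := (fourier n).continuous

lemma e_nat (n : ℕ) (t : T) : e n t = e 1 t ^ n := by
  induction n with
  | zero => simp [e_zero]
  | succ n ih => rw [Nat.cast_succ, e_add, ih, pow_succ]

lemma integral_e (n : ℤ) : ∫ t, e n t = if n = 0 then 1 else 0 := by
  split_ifs with h
  · subst h; simp [e_zero]
  · exact integral_eq_zero_of_add_right_eq_neg (μ := volume)
      (fourier_add_half_inv_index h one_pos)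

lemma enorm_e_smul {X : Type*} [NormedAddCommGroup X] [NormedSpace ℂ X] (n : ℤ) (t : T) (v : X) :
    ‖e n t • v‖ₑ = ‖v‖ₑ := by
  rw [← ofReal_norm_eq_enorm, norm_smul, norm_e, one_mul, ofReal_norm_eq_enorm]

lemma norm_e_smul {X : Type*} [NormedAddCommGroup X] [NormedSpace ℂ X] (n : ℤ) (t : T) (v : X) :
    ‖e n t • v‖ = ‖v‖ := by
  rw [norm_smul, norm_e, one_mul]

variable {X : Type*} [NormedAddCommGroup X] [NormedSpace ℂ X]

lemma cont_integrable {E : Type*} [NormedAddCommGroup E] {f : T → E} (hf : Continuous f) :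
    Integrable f := hf.integrable_of_hasCompactSupport (HasCompactSupport.of_compactSpace f)

lemma integrable_smul {k : T → ℂ} (hk : Continuous k) {f : T → X} (hf : Integrable f) :
    Integrable (fun t => k t • f t) := by
  obtain ⟨C, hC⟩ := (isCompact_range hk.norm).bddAbove
  exact hf.bdd_smul C hk.aestronglyMeasurable (ae_of_all _ fun t => hC ⟨t, rfl⟩)

/-- Fourier coefficient. -/
noncomputable def fc (f : T → X) (n : ℤ) : X := ∫ t, e (-n) t • f t

noncomputable def poly (S : Finset ℤ) (x : ℤ → X) (t : T) : X := ∑ n ∈ S, e n t • x n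

noncomputable def D (J : Finset ℤ) (f : T → X) : T → X := poly J (fc f)

@[fun_prop]
lemma continuous_poly (S : Finset ℤ) (x : ℤ → X) : Continuous (poly S x) := by
  unfold poly; fun_prop

@[fun_prop]
lemma continuous_D (J : Finset ℤ) (f : T → X) : Continuous (D J f) := continuous_poly _ _

lemma fc_add {f g : T → X} (hf : Integrable f) (hg : Integrable g) (n : ℤ) :
    fc (fun t => f t + g t) n = fc f n + fc g n := by
  simp only [fc, smul_add]
  exact integral_add (integrable_smul (continuous_e _) hf) (integrable_smul (continuous_e _) hg)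

lemma fc_sub {f g : T → X} (hf : Integrable f) (hg : Integrable g) (n : ℤ) :
    fc (fun t => f t - g t) n = fc f n - fc g n := by
  simp only [fc, smul_sub]
  exact integral_sub (integrable_smul (continuous_e _) hf) (integrable_smul (continuous_e _) hg)

lemma fc_sum {ι : Type*} (s : Finset ι) {f : ι → T → X} (hf : ∀ i ∈ s, Integrable (f i)) (n : ℤ) :
    fc (fun t => ∑ i ∈ s, f i t) n = ∑ i ∈ s, fc (f i) n := by
  simp only [fc, Finset.smul_sum]
  exact integral_finset_sum _ fun i hi => integrable_smul (continuous_e _) (hf i hi)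

lemma fc_smul (c : ℂ) (f : T → X) (n : ℤ) : fc (fun t => c • f t) n = c • fc f n := by
  simp only [fc, smul_comm _ c]
  exact integral_smul _ _

lemma fc_mod (c : ℤ) (f : T → X) (n : ℤ) : fc (fun t => e c t • f t) n = fc f (n - c) := by
  simp only [fc, smul_smul, ← e_add]
  congr 1; ext t; congr 2; ring

lemma norm_fc_le (f : T → X) (n : ℤ) : ‖fc f n‖ ≤ ∫ t, ‖f t‖ := by
  refine (norm_integral_le_integral_norm _).trans (le_of_eq ?_)
  simp only [norm_e_smul]

variable [CompleteSpace X]

lemma fc_single (m : ℤ) (v : X) (n : ℤ) :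
    fc (fun t => e m t • v) n = if n = m then v else 0 := by
  simp only [fc, smul_smul, ← e_add]
  rw [integral_smul_const, integral_e]
  by_cases h : n = m
  · simp [h]
  · have : ¬ (-n + m = 0) := by omega
    simp [h, this]

lemma fc_poly (S : Finset ℤ) (x : ℤ → X) (n : ℤ) :
    fc (poly S x) n = if n ∈ S then x n else 0 := by
  unfold poly
  rw [fc_sum S (f := fun m t => e m t • x m) (fun m _ => cont_integrable (by fun_prop))]
  simp only [fc_single]
  rw [Finset.sum_ite_eq]

lemma fc_D (J : Finset ℤ) (f : T → X) (n : ℤ) : fc (D J f) n = if n ∈ J then fc f n else 0 :=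
  fc_poly _ _ _

omit [CompleteSpace X] in
lemma poly_congr {S S' : Finset ℤ} {x y : ℤ → X}
    (h : ∀ n, (if n ∈ S then x n else 0) = (if n ∈ S' then y n else 0)) : poly S x = poly S' y := by
  classical
  ext t
  have h1 : ∀ (A : Finset ℤ) (z : ℤ → X), A ⊆ S ∪ S' →
      poly A z t = ∑ n ∈ S ∪ S', e n t • (if n ∈ A then z n else 0) := by
    intro A z hA
    simp only [smul_ite, smul_zero]
    rw [Finset.sum_ite_mem, Finset.inter_eq_right.mpr hA, poly]
  rw [h1 S x Finset.subset_union_left, h1 S' y Finset.subset_union_right]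
  simp only [h]

lemma D_poly (J S : Finset ℤ) (x : ℤ → X) : D J (poly S x) = poly (J ∩ S) x := by
  apply poly_congr
  intro n
  rw [fc_poly]
  by_cases h1 : n ∈ J <;> by_cases h2 : n ∈ S <;> simp [h1, h2]

lemma D_D (J J' : Finset ℤ) (f : T → X) : D J (D J' f) = D (J ∩ J') f := D_poly _ _ _

omit [CompleteSpace X] in
lemma D_congr {J : Finset ℤ} {f g : T → X} (h : ∀ n ∈ J, fc f n = fc g n) : D J f = D J g := by
  apply poly_congr
  intro n
  split_ifs with hn
  · exact h n hn
  · rfl

omit [CompleteSpace X] in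
lemma D_add (J : Finset ℤ) {f g : T → X} (hf : Integrable f) (hg : Integrable g) (t : T) :
    D J (fun t => f t + g t) t = D J f t + D J g t := by
  simp only [D, poly, fc_add hf hg, smul_add, Finset.sum_add_distrib]

omit [CompleteSpace X] in
lemma D_sub (J : Finset ℤ) {f g : T → X} (hf : Integrable f) (hg : Integrable g) (t : T) :
    D J (fun t => f t - g t) t = D J f t - D J g t := by
  simp only [D, poly, fc_sub hf hg, smul_sub, Finset.sum_sub_distrib]

omit [CompleteSpace X] in
lemma D_sum (J : Finset ℤ) {ι : Type*} (s : Finset ι) {f : ι → T → X}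
    (hf : ∀ i ∈ s, Integrable (f i)) (t : T) :
    D J (fun t => ∑ i ∈ s, f i t) t = ∑ i ∈ s, D J (f i) t := by
  simp only [D, poly, fc_sum s hf, Finset.smul_sum]
  exact Finset.sum_comm

omit [CompleteSpace X] in
lemma D_smul (J : Finset ℤ) (c : ℂ) (f : T → X) (t : T) :
    D J (fun t => c • f t) t = c • D J f t := by
  simp only [D, poly, fc_smul, Finset.smul_sum, smul_comm c]

omit [CompleteSpace X] in
lemma D_union {J J' : Finset ℤ} (h : Disjoint J J') (f : T → X) (t : T) :
    D (J ∪ J') f t = D J f t + D J' f t := by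
  simp only [D, poly, Finset.sum_union h]

omit [CompleteSpace X] in
lemma D_empty (f : T → X) : D ∅ f = fun _ => 0 := by
  ext t; simp [D, poly]

/-- Convolution with a scalar kernel. -/
noncomputable def conv (k : T → ℂ) (f : T → X) (x : T) : X := ∫ y, k (x - y) • f y

noncomputable def dir (J : Finset ℤ) (t : T) : ℂ := ∑ n ∈ J, e n t

@[fun_prop]
lemma continuous_dir (J : Finset ℤ) : Continuous (dir J) := by unfold dir; fun_prop

omit [CompleteSpace X] in
lemma integrable_conv {k : T → ℂ} (hk : Continuous k) {f : T → X} (hf : Integrable f) (x : T) :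
    Integrable (fun y => k (x - y) • f y) :=
  integrable_smul (k := fun y => k (x - y)) (by fun_prop) hf

omit [CompleteSpace X] in
lemma conv_dir (J : Finset ℤ) {f : T → X} (hf : Integrable f) : conv (dir J) f = D J f := by
  ext x
  simp only [conv, dir, Finset.sum_smul, D, poly]
  rw [integral_finset_sum _ fun n _ => integrable_conv (continuous_e n) hf x]
  refine Finset.sum_congr rfl fun n _ => ?_
  simp only [e_sub_pt, mul_smul, fc]
  exact integral_smul _ _

omit [CompleteSpace X] in
lemma conv_avg {ι : Type*} (s : Finset ι) (c : ℂ) (J : ι → Finset ℤ) {f : T → X}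
    (hf : Integrable f) (x : T) :
    conv (fun t => c * ∑ j ∈ s, dir (J j) t) f x = c • ∑ j ∈ s, D (J j) f x := by
  simp only [conv, mul_smul, Finset.sum_smul]
  rw [integral_smul, integral_finset_sum _ fun j _ => integrable_conv (continuous_dir _) hf x]
  congr 1
  refine Finset.sum_congr rfl fun j _ => ?_
  rw [← conv_dir _ hf]; rfl

omit [CompleteSpace X] in
lemma conv_sub {k : T → ℂ} (hk : Continuous k) {f g : T → X} (hf : Integrable f)
    (hg : Integrable g) (x : T) :
    conv k (fun t => f t - g t) x = conv k f x - conv k g x := by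
  simp only [conv, smul_sub]
  exact integral_sub (integrable_conv hk hf x) (integrable_conv hk hg x)

omit [CompleteSpace X] in
lemma conv_add {k : T → ℂ} (hk : Continuous k) {f g : T → X} (hf : Integrable f)
    (hg : Integrable g) (x : T) :
    conv k (fun t => f t + g t) x = conv k f x + conv k g x := by
  simp only [conv, smul_add]
  exact integral_add (integrable_conv hk hf x) (integrable_conv hk hg x)

omit [CompleteSpace X] in
lemma conv_mod (c : ℤ) (k : T → ℂ) (f : T → X) (x : T) :
    conv (fun t => e c t * k t) f x = e c x • conv k (fun y => e (-c) y • f y) x := by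
  simp only [conv, e_sub_pt, smul_smul]
  rw [← integral_smul]
  congr 1; ext y
  rw [smul_smul]; congr 1; ring

omit [CompleteSpace X] in
lemma continuous_conv {k : T → ℂ} (hk : Continuous k) {f : T → X} (hf : Integrable f) :
    Continuous (conv k f) := by
  obtain ⟨C, hC⟩ := (isCompact_range hk.norm).bddAbove
  refine continuous_of_dominated (bound := fun y => C * ‖f y‖)
    (fun x => (integrable_conv hk hf x).aestronglyMeasurable) (fun x => ae_of_all _ fun y => ?_)
    (hf.norm.const_mul C) (ae_of_all _ fun y => by fun_prop)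
  rw [norm_smul]
  exact mul_le_mul_of_nonneg_right (hC ⟨_, rfl⟩) (norm_nonneg _)

/-- The `L^p` norm. -/
noncomputable def nrm {E : Type*} [NormedAddCommGroup E] (p : ℝ) (f : T → E) : ℝ≥0∞ :=
  eLpNorm f (ENNReal.ofReal p) volume

section nrm
variable {E : Type*} [NormedAddCommGroup E]

lemma nrm_eq {p : ℝ} (hp : 0 < p) (f : T → E) : nrm p f = (∫⁻ t, ‖f t‖ₑ ^ p) ^ (1 / p) := by
  rw [nrm, eLpNorm_eq_lintegral_rpow_enorm_toReal (by simpa using hp) ENNReal.ofReal_ne_top,
    ENNReal.toReal_ofReal hp.le]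

lemma nrm_rpow {p : ℝ} (hp : 0 < p) (f : T → E) : nrm p f ^ p = ∫⁻ t, ‖f t‖ₑ ^ p := by
  rw [nrm_eq hp, ← ENNReal.rpow_mul, one_div_mul_cancel hp.ne', ENNReal.rpow_one]

lemma nrm_ne_top {p : ℝ} {f : T → E} (hf : Continuous f) : nrm p f ≠ ⊤ := by
  obtain ⟨C, hC⟩ := (isCompact_range hf.norm).bddAbove
  exact (MemLp.of_bound hf.aestronglyMeasurable C (ae_of_all _ fun t => hC ⟨t, rfl⟩)).2.ne

lemma nrm_add_le {p : ℝ} (hp : 1 ≤ p) {f g : T → E} (hf : AEStronglyMeasurable f)
    (hg : AEStronglyMeasurable g) : nrm p (fun t => f t + g t) ≤ nrm p f + nrm p g :=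
  eLpNorm_add_le hf hg (by simpa using ENNReal.ofReal_le_ofReal hp)

lemma nrm_sub_le {p : ℝ} (hp : 1 ≤ p) {f g : T → E} (hf : AEStronglyMeasurable f)
    (hg : AEStronglyMeasurable g) : nrm p (fun t => f t - g t) ≤ nrm p f + nrm p g :=
  eLpNorm_sub_le hf hg (by simpa using ENNReal.ofReal_le_ofReal hp)

lemma nrm_sum_le {p : ℝ} (hp : 1 ≤ p) {ι : Type*} (s : Finset ι) {f : ι → T → E}
    (hf : ∀ i ∈ s, AEStronglyMeasurable (f i)) :
    nrm p (fun t => ∑ i ∈ s, f i t) ≤ ∑ i ∈ s, nrm p (f i) := by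
  have := eLpNorm_sum_le (μ := volume) (p := ENNReal.ofReal p) hf
    (by simpa using ENNReal.ofReal_le_ofReal hp)
  have h2 : (fun t => ∑ i ∈ s, f i t) = ∑ i ∈ s, f i := by ext t; simp
  rw [h2]; exact this

lemma nrm_congr {F : Type*} [NormedAddCommGroup F] {p : ℝ} {f : T → E} {g : T → F}
    (h : ∀ t, ‖f t‖ = ‖g t‖) : nrm p f = nrm p g :=
  eLpNorm_congr_norm_ae (ae_of_all _ h)

lemma nrm_mono {F : Type*} [NormedAddCommGroup F] {p : ℝ} {f : T → E} {g : T → F}
    (h : ∀ t, ‖f t‖ ≤ ‖g t‖) : nrm p f ≤ nrm p g :=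
  eLpNorm_mono h

lemma nrm_zero (p : ℝ) : nrm p (fun _ : T => (0 : E)) = 0 := eLpNorm_zero'

lemma nrm_comp_neg {p : ℝ} (hp : 0 < p) (f : T → E) : nrm p (fun t => f (-t)) = nrm p f := by
  rw [nrm_eq hp, nrm_eq hp]
  congr 1
  exact lintegral_neg_eq_self (fun t => ‖f t‖ₑ ^ p)

lemma nrm_one_le {p : ℝ} (hp : 1 ≤ p) {f : T → E} (hf : AEStronglyMeasurable f) :
    ∫⁻ t, ‖f t‖ₑ ≤ nrm p f := by
  rw [← eLpNorm_one_eq_lintegral_enorm]
  exact eLpNorm_le_eLpNorm_of_exponent_le (by simpa using ENNReal.ofReal_le_ofReal hp) hf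

end nrm

omit [CompleteSpace X] in
lemma nrm_smul (p : ℝ) (c : ℂ) (f : T → X) : nrm p (fun t => c • f t) = ‖c‖ₑ * nrm p f :=
  eLpNorm_const_smul c f _ _

omit [CompleteSpace X] in
lemma nrm_mod (p : ℝ) (c : ℤ) (f : T → X) : nrm p (fun t => e c t • f t) = nrm p f :=
  nrm_congr fun _ => norm_e_smul _ _ _

end Pool.Agent.Lib.MP_b78339_an
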