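import Pool.Agent.Lib.MP_b78339_an.Kernel

set_option autoImplicit false

open MeasureTheory Set
open scoped ENNReal NNReal ComplexConjugate

namespace Pool.Agent.Lib.MP_b78339_an

noncomputable def rep (x : T) : ℝ := (AddCircle.equivIoc 1 0 x : ℝ)

lemma rep_mem (x : T) : rep x ∈ Ioc (0 : ℝ) (0 + 1) := (AddCircle.equivIoc 1 0 x).2

lemma coe_rep (x : T) : ((rep x : ℝ) : T) = x := AddCircle.coe_equivIoc

lemma measurable_rep : Measurable rep :=
  measurable_subtype_coe.comp (AddCircle.measurableEquivIoc 1 0).measurable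

def arc (α l : ℝ) : Set T := rep ⁻¹' Ioc α (α + l)

lemma measurableSet_arc (α l : ℝ) : MeasurableSet (arc α l) := measurable_rep measurableSet_Ioc

lemma vol_arc {α l : ℝ} (h0 : 0 ≤ α) (h1 : α + l ≤ 1) : volume (arc α l) = ENNReal.ofReal l := by
  rw [AddCircle.add_projection_respects_measure 1 0 (measurableSet_arc α l)]
  have : (QuotientAddGroup.mk ⁻¹' arc α l ∩ Ioc (0 : ℝ) (0 + 1)) = Ioc α (α + l) := by
    ext y
    simp only [arc, mem_inter_iff, mem_preimage, rep]
    constructor
    · rintro ⟨h, hy⟩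
      rwa [AddCircle.equivIoc_coe_of_mem hy] at h
    · intro h
      have hy : y ∈ Ioc (0 : ℝ) (0 + 1) := ⟨by linarith [h.1], by linarith [h.2]⟩
      exact ⟨by rwa [AddCircle.equivIoc_coe_of_mem hy], hy⟩
  rw [this, Real.volume_Ioc, add_sub_cancel_left]

lemma arc_univ : arc 0 1 = univ := eq_univ_of_forall fun x => rep_mem x

lemma arc_split (α l : ℝ) (hl : 0 ≤ l) :
    arc α l = arc α (l / 2) ∪ arc (α + l / 2) (l / 2) := by
  simp only [arc]
  rw [← preimage_union, Ioc_union_Ioc_eq_Ioc (by linarith) (by linarith)]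
  congr 2; ring

lemma arc_disjoint (α l : ℝ) : Disjoint (arc α (l / 2)) (arc (α + l / 2) (l / 2)) :=
  Disjoint.preimage _ (Ioc_disjoint_Ioc_of_le le_rfl)

lemma norm_sub_le_of_arc {α l : ℝ} {y : T} (hy : y ∈ arc α l) :
    ‖y - ((α + l / 2 : ℝ) : T)‖ ≤ l / 2 := by
  rw [← coe_rep y, ← AddCircle.coe_sub]
  refine (QuotientAddGroup.norm_mk_le_norm).trans ?_
  rw [Real.norm_eq_abs, abs_le]
  constructor <;> linarith [hy.1, hy.2]

lemma tail_bound (c : T) {l : ℝ} (hl : 0 < l) :
    ∫⁻ x in (Metric.closedBall c l)ᶜ, ENNReal.ofReal (l / ‖x - c‖ ^ 2) ≤ 8 := by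
  set A : ℕ → Set T := fun n => {x | 2 ^ n * l ≤ ‖x - c‖} ∩ Metric.closedBall c (2 ^ (n + 1) * l)
    with hA
  have hsub : (Metric.closedBall c l)ᶜ ⊆ ⋃ n, A n := by
    intro x hx
    simp only [mem_compl_iff, Metric.mem_closedBall, dist_eq_norm, not_le] at hx
    obtain ⟨n, h1, h2⟩ := exists_nat_pow_near (x := ‖x - c‖ / l) (y := 2)
      ((one_le_div hl).mpr hx.le) one_lt_two
    refine mem_iUnion.mpr ⟨n, (le_div_iff₀ hl).mp h1, ?_⟩
    rw [Metric.mem_closedBall, dist_eq_norm]
    exact ((div_lt_iff₀ hl).mp h2).le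
  refine (lintegral_mono_set hsub).trans ((lintegral_iUnion_le _ _).trans ?_)
  have h1 : ∀ n, ∫⁻ x in A n, ENNReal.ofReal (l / ‖x - c‖ ^ 2) ≤
      ENNReal.ofReal (4 * (1 / 2) ^ n) := by
    intro n
    have hm : MeasurableSet (A n) :=
      (measurableSet_le measurable_const (by fun_prop)).inter measurableSet_closedBall
    calc ∫⁻ x in A n, ENNReal.ofReal (l / ‖x - c‖ ^ 2)
        ≤ ∫⁻ _ in A n, ENNReal.ofReal (l / (2 ^ n * l) ^ 2) := by
          refine setLIntegral_mono' hm fun x hx => ENNReal.ofReal_le_ofReal ?_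
          exact div_le_div_of_nonneg_left hl.le (by positivity)
            (pow_le_pow_left₀ (by positivity) hx.1 2)
      _ = ENNReal.ofReal (l / (2 ^ n * l) ^ 2) * volume (A n) := setLIntegral_const _ _
      _ ≤ ENNReal.ofReal (l / (2 ^ n * l) ^ 2) * ENNReal.ofReal (2 * (2 ^ (n + 1) * l)) := by
          refine mul_le_mul_right ((measure_mono inter_subset_right).trans ?_) _
          rw [AddCircle.volume_closedBall]
          exact ENNReal.ofReal_le_ofReal (min_le_right _ _)
      _ = ENNReal.ofReal (4 * (1 / 2) ^ n) := by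
          rw [← ENNReal.ofReal_mul (by positivity)]
          congr 1
          rw [one_div, inv_pow]
          field_simp
          ring
  refine (ENNReal.tsum_le_tsum h1).trans ?_
  rw [← ENNReal.ofReal_tsum_of_nonneg (fun n => by positivity)
    (summable_geometric_two.mul_left 4), tsum_mul_left, tsum_geometric_two]
  norm_num

variable {X : Type*} [NormedAddCommGroup X] [NormedSpace ℂ X]

/-- The part of `‖f‖` above height `lam`. -/
noncomputable def big (lam : ℝ) (f : T → X) (x : T) : ℝ≥0∞ := if lam < ‖f x‖ then ‖f x‖ₑ else 0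

def Dec (k : T → ℂ) (f : T → X) (lam : ℝ) (A : Set T) : Prop :=
  ∃ (b : T → X) (E : Set T), Integrable b ∧ MeasurableSet E ∧ (∀ x, x ∉ A → b x = 0) ∧
    (∀ x, x ∉ E → b x = 0) ∧ (∀ x ∈ A, ‖f x - b x‖ ≤ 4 * lam) ∧
    ENNReal.ofReal lam * volume E ≤ 2 * ∫⁻ x in A, big lam f x ∧
    ∫⁻ x in Eᶜ, ‖conv k b x‖ₑ ≤ 200 * ∫⁻ x in A, big lam f x

lemma Dec.union {k : T → ℂ} (hk : Continuous k) {f : T → X} {lam : ℝ} {A₁ A₂ : Set T}
    (hd : Disjoint A₁ A₂) (hm : MeasurableSet A₂) (h₁ : Dec k f lam A₁) (h₂ : Dec k f lam A₂) :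
    Dec k f lam (A₁ ∪ A₂) := by
  obtain ⟨b₁, E₁, i₁, m₁, s₁, z₁, g₁, v₁, t₁⟩ := h₁
  obtain ⟨b₂, E₂, i₂, m₂, s₂, z₂, g₂, v₂, t₂⟩ := h₂
  refine ⟨fun x => b₁ x + b₂ x, E₁ ∪ E₂, i₁.add i₂, m₁.union m₂, fun x hx => ?_, fun x hx => ?_,
    fun x hx => ?_, ?_, ?_⟩
  · rw [mem_union, not_or] at hx
    simp [s₁ x hx.1, s₂ x hx.2]
  · rw [mem_union, not_or] at hx
    simp [z₁ x hx.1, z₂ x hx.2]
  · rcases hx with hx | hx
    · simpa [s₂ x (disjoint_left.mp hd hx)] using g₁ x hx
    · simpa [s₁ x (disjoint_right.mp hd hx)] using g₂ x hx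
  · rw [lintegral_union hm hd, mul_add]
    refine (mul_le_mul_right (measure_union_le _ _) _).trans ?_
    rw [mul_add]; exact add_le_add v₁ v₂
  · rw [lintegral_union hm hd, mul_add]
    calc ∫⁻ x in (E₁ ∪ E₂)ᶜ, ‖conv k (fun x => b₁ x + b₂ x) x‖ₑ
        ≤ ∫⁻ x in (E₁ ∪ E₂)ᶜ, (‖conv k b₁ x‖ₑ + ‖conv k b₂ x‖ₑ) := by
          refine lintegral_mono fun x => ?_
          rw [conv_add hk i₁ i₂]; exact enorm_add_le _ _
      _ = (∫⁻ x in (E₁ ∪ E₂)ᶜ, ‖conv k b₁ x‖ₑ) + ∫⁻ x in (E₁ ∪ E₂)ᶜ, ‖conv k b₂ x‖ₑ :=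
          lintegral_add_left (continuous_conv hk i₁).enorm.measurable _
      _ ≤ _ := add_le_add
          ((lintegral_mono_set (compl_subset_compl.mpr subset_union_left)).trans t₁)
          ((lintegral_mono_set (compl_subset_compl.mpr subset_union_right)).trans t₂)

lemma dec_small (k : T → ℂ) {f : T → X} {lam : ℝ} {A : Set T} (h : ∀ x ∈ A, ‖f x‖ ≤ 4 * lam) :
    Dec k f lam A := by
  refine ⟨fun _ => 0, ∅, integrable_zero _ _ _, MeasurableSet.empty, fun _ _ => rfl, fun _ _ => rfl,
    fun x hx => by simpa using h x hx, by simp, ?_⟩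
  simp [conv]

omit [NormedSpace ℂ X] in
lemma big_lower {f : T → X} (hf : Continuous f) {lam l : ℝ} (hlam : 0 < lam) (hl : 0 ≤ l)
    {A : Set T} (hA : volume A = ENNReal.ofReal l) (h : 2 * lam * l ≤ ∫ y in A, ‖f y‖) :
    ENNReal.ofReal (lam * l) ≤ ∫⁻ x in A, big lam f x := by
  have h1 : ENNReal.ofReal (lam * l) + ENNReal.ofReal (lam * l) ≤ ∫⁻ y in A, ‖f y‖ₑ := by
    rw [← ENNReal.ofReal_add (by positivity) (by positivity),
      ← ofReal_integral_norm_eq_lintegral_enorm (cont_integrable hf).integrableOn]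
    exact ENNReal.ofReal_le_ofReal (by linarith)
  have h2 : ∫⁻ y in A, ‖f y‖ₑ ≤ (∫⁻ x in A, big lam f x) + ENNReal.ofReal (lam * l) := by
    rw [ENNReal.ofReal_mul hlam.le, ← hA, ← setLIntegral_const,
      ← lintegral_add_right _ measurable_const]
    refine lintegral_mono fun x => ?_
    simp only [big]
    split_ifs with hx
    · exact le_self_add
    · rw [zero_add, ← ofReal_norm_eq_enorm]
      exact ENNReal.ofReal_le_ofReal (not_lt.mp hx)
  exact (ENNReal.add_le_add_iff_right ENNReal.ofReal_ne_top).mp (h1.trans h2)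

variable [CompleteSpace X]

lemma dec_bad {k : T → ℂ} (hk : Horm k) {f : T → X} (hf : Continuous f) {lam α l : ℝ}
    (hlam : 0 < lam) (h0 : 0 ≤ α) (h1 : α + l ≤ 1) (hl : 0 < l)
    (hlo : 2 * lam * l ≤ ∫ y in arc α l, ‖f y‖) (hhi : ∫ y in arc α l, ‖f y‖ ≤ 4 * lam * l) :
    Dec k f lam (arc α l) := by
  set c : T := ((α + l / 2 : ℝ) : T) with hc
  set m : X := (l⁻¹ : ℝ) • ∫ y in arc α l, f y with hm
  have hA := measurableSet_arc α l
  have hv := vol_arc h0 h1
  have hvr : (volume : Measure T).real (arc α l) = l := by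
    rw [Measure.real, hv, ENNReal.toReal_ofReal hl.le]
  have hmn : ‖m‖ ≤ 4 * lam := by
    rw [hm, norm_smul, Real.norm_eq_abs, abs_of_pos (inv_pos.mpr hl), inv_mul_le_iff₀ hl]
    exact (norm_integral_le_integral_norm _).trans (by linarith)
  set b : T → X := (arc α l).indicator fun y => f y - m with hb
  have hfm : Integrable (fun y => f y - m) := cont_integrable (by fun_prop)
  have hbi : Integrable b := hfm.indicator hA
  have hb0 : ∫ y, b y = 0 := by
    rw [hb, integral_indicator hA, integral_sub (cont_integrable hf).integrableOn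
      (integrable_const m), setIntegral_const, hvr, hm, smul_smul, mul_inv_cancel₀ hl.ne',
      one_smul, sub_self]
  have hb1 : ∫ y, ‖b y‖ ≤ 8 * lam * l := by
    have : ∀ y, ‖b y‖ ≤ (arc α l).indicator (fun y => ‖f y‖ + 4 * lam) y := by
      intro y
      by_cases hy : y ∈ arc α l
      · rw [hb, indicator_of_mem hy, indicator_of_mem hy]
        exact (norm_sub_le _ _).trans (by linarith)
      · rw [hb, indicator_of_notMem hy, indicator_of_notMem hy, norm_zero]
    refine (integral_mono hbi.norm ((cont_integrable (by fun_prop)).indicator hA) this).trans ?_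
    rw [integral_indicator hA, integral_add (cont_integrable hf.norm).integrableOn
      (integrable_const _), setIntegral_const, hvr, smul_eq_mul]
    linarith
  have hbig := big_lower hf hlam hl.le hv hlo
  refine ⟨b, Metric.closedBall c l, hbi, measurableSet_closedBall,
    fun x hx => indicator_of_notMem hx _, fun x hx => indicator_of_notMem (fun hx' => hx ?_) _,
    fun x hx => ?_, ?_, ?_⟩
  · rw [Metric.mem_closedBall, dist_eq_norm]
    linarith [norm_sub_le_of_arc hx']
  · rw [hb, indicator_of_mem hx]; simpa using hmn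
  · refine le_trans ?_ (mul_le_mul_right hbig 2)
    rw [AddCircle.volume_closedBall, ← ENNReal.ofReal_mul hlam.le, ← ENNReal.ofReal_ofNat 2,
      ← ENNReal.ofReal_mul zero_le_two]
    refine ENNReal.ofReal_le_ofReal ?_
    nlinarith [min_le_right 1 (2 * l)]
  · have hpt : ∀ x ∈ (Metric.closedBall c l)ᶜ, ‖conv k b x‖ₑ ≤
        ENNReal.ofReal (l / ‖x - c‖ ^ 2) * ENNReal.ofReal (24 * (lam * l)) := by
      intro x hx
      simp only [mem_compl_iff, Metric.mem_closedBall, dist_eq_norm, not_le] at hx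
      have hxc : 0 < ‖x - c‖ := hl.trans hx
      rw [← ofReal_norm_eq_enorm, ← ENNReal.ofReal_mul (by positivity)]
      refine ENNReal.ofReal_le_ofReal ?_
      have e1 : conv k b x = ∫ y, (k (x - y) - k (x - c)) • b y := by
        simp only [sub_smul]
        have hi2 : Integrable (fun y => k (x - c) • b y) := hbi.smul (k (x - c))
        rw [integral_sub (integrable_conv hk.1 hbi x) hi2, integral_smul, hb0,
          smul_zero, sub_zero, conv]
      have e2 : ∀ y, ‖(k (x - y) - k (x - c)) • b y‖ ≤ 3 * (l / ‖x - c‖ ^ 2) * ‖b y‖ := by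
        intro y
        by_cases hy : y ∈ arc α l
        · rw [norm_smul]
          refine mul_le_mul_of_nonneg_right ?_ (norm_nonneg _)
          have a1 := norm_sub_le_of_arc hy
          rw [← hc] at a1
          have a2 := hk.2 (x - y) (x - c)
          rw [sub_sub_sub_cancel_left, norm_sub_rev c y] at a2
          have a3 : ‖x - c‖ / 2 ≤ ‖x - y‖ := by
            have := norm_sub_le_norm_sub_add_norm_sub x y c
            linarith
          rw [← mul_div_assoc, le_div_iff₀ (by positivity)]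
          have a4 := mul_le_mul_of_nonneg_left (mul_le_mul_of_nonneg_right a3 hxc.le)
            (norm_nonneg (k (x - y) - k (x - c)))
          nlinarith
        · rw [hb, indicator_of_notMem hy]; simp
      rw [e1]
      refine (norm_integral_le_of_norm_le (hbi.norm.const_mul _) (ae_of_all _ e2)).trans ?_
      rw [integral_const_mul]
      have : 0 ≤ l / ‖x - c‖ ^ 2 := by positivity
      nlinarith
    refine (setLIntegral_mono' measurableSet_closedBall.compl hpt).trans ?_
    rw [lintegral_mul_const' _ _ ENNReal.ofReal_ne_top]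
    refine (mul_le_mul_left (tail_bound c hl) _).trans (le_trans ?_ (mul_le_mul_right hbig 200))
    rw [ENNReal.ofReal_mul (by norm_num), ← mul_assoc]
    refine mul_le_mul_left ?_ _
    rw [ENNReal.ofReal_ofNat]; norm_num

lemma dec_arc {k : T → ℂ} (hk : Horm k) {f : T → X} (hf : Continuous f) {lam δ : ℝ}
    (hlam : 0 < lam) (hδ : ∀ x y, ‖x - y‖ ≤ δ → ‖f x - f y‖ ≤ 2 * lam) (n : ℕ) :
    ∀ α l : ℝ, 0 ≤ α → α + l ≤ 1 → 0 < l → l ≤ δ * 2 ^ n →
      ∫ y in arc α l, ‖f y‖ ≤ 2 * lam * l → Dec k f lam (arc α l) := by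
  induction n with
  | zero =>
    intro α l h0 h1 hl hn hi
    refine dec_small k fun x hx => ?_
    have hvr : (volume : Measure T).real (arc α l) = l := by
      rw [Measure.real, vol_arc h0 h1, ENNReal.toReal_ofReal hl.le]
    have h2 : ∫ _ in arc α l, (‖f x‖ - 2 * lam) ≤ ∫ y in arc α l, ‖f y‖ := by
      refine setIntegral_mono_on (integrable_const _) (cont_integrable hf.norm).integrableOn
        (measurableSet_arc α l) fun y hy => ?_
      have a1 := norm_sub_le_of_arc hx
      have a2 := norm_sub_le_of_arc hy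
      have a3 := norm_sub_le_norm_sub_add_norm_sub x ((α + l / 2 : ℝ) : T) y
      rw [norm_sub_rev ((α + l / 2 : ℝ) : T) y] at a3
      rw [pow_zero, mul_one] at hn
      have a4 := hδ x y (by linarith)
      have a5 := norm_sub_norm_le (f x) (f y)
      linarith
    rw [setIntegral_const, hvr, smul_eq_mul] at h2
    nlinarith
  | succ n ih =>
    intro α l h0 h1 hl hn hi
    have key : ∀ β : ℝ, 0 ≤ β → β + l / 2 ≤ 1 → arc β (l / 2) ⊆ arc α l →
        Dec k f lam (arc β (l / 2)) := by
      intro β b0 b1 hsub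
      by_cases hc : ∫ y in arc β (l / 2), ‖f y‖ ≤ 2 * lam * (l / 2)
      · exact ih β (l / 2) b0 b1 (by linarith) (by rw [pow_succ] at hn; linarith) hc
      · refine dec_bad hk hf hlam b0 b1 (by linarith) (not_le.mp hc).le ?_
        have := setIntegral_mono_set (μ := volume) (cont_integrable hf.norm).integrableOn
          (ae_of_all _ fun y => norm_nonneg (f y)) hsub.eventuallyLE
        linarith
    rw [arc_split α l hl.le]
    refine Dec.union hk.1 (arc_disjoint α l) (measurableSet_arc _ _)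
      (key α h0 (by linarith) ?_) (key _ (by linarith) (by linarith) ?_)
    · rw [arc_split α l hl.le]; exact subset_union_left
    · rw [arc_split α l hl.le]; exact subset_union_right

lemma dec_univ {k : T → ℂ} (hk : Horm k) {f : T → X} (hf : Continuous f) {lam : ℝ}
    (hlam : 0 < lam) (hi : ∫ y, ‖f y‖ ≤ 2 * lam) : Dec k f lam univ := by
  have huc := CompactSpace.uniformContinuous_of_continuous hf
  obtain ⟨δ, hδ, h⟩ := Metric.uniformContinuous_iff_le.mp huc (2 * lam) (by positivity)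
  obtain ⟨n, hn⟩ := pow_unbounded_of_one_lt (1 / δ) (one_lt_two (α := ℝ))
  rw [← arc_univ]
  refine dec_arc hk hf hlam (δ := δ) (fun x y hxy => ?_) n 0 1 le_rfl (by norm_num) one_pos ?_ ?_
  · rw [← dist_eq_norm] at hxy ⊢; exact h hxy
  · rw [div_lt_iff₀ hδ] at hn; linarith
  · rw [arc_univ, Measure.restrict_univ]; linarith

/-- Calderon-Zygmund decomposition adapted to a modulated kernel. -/
lemma cz_op {K : T → ℂ} (hK : CZK K) {f : T → X} (hf : Continuous f) {lam : ℝ} (hlam : 0 < lam) :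
    ∃ (a : T → X) (E : Set T), Integrable a ∧ MeasurableSet E ∧ (∀ x, ‖a x‖ ≤ 4 * lam) ∧
      (∀ x, x ∉ E → a x = f x) ∧ ENNReal.ofReal lam * volume E ≤ 2 * ∫⁻ x, big lam f x ∧
      ∫⁻ x in Eᶜ, ‖conv K (fun y => f y - a y) x‖ₑ ≤ 200 * ∫⁻ x, big lam f x := by
  by_cases hi : ∫ y, ‖f y‖ ≤ 2 * lam
  · obtain ⟨c, k, hk, rfl⟩ := hK
    set g : T → X := fun y => e (-c) y • f y with hg
    have hgn : ∀ y, ‖g y‖ = ‖f y‖ := fun y => norm_e_smul _ _ _
    have hbig : big lam g = big lam f := by
      ext y; simp only [big, hg, norm_e_smul, enorm_e_smul]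
    obtain ⟨b, E, i, m, -, z, gd, v, t⟩ := dec_univ hk (f := g) (by rw [hg]; fun_prop) hlam
      (by simpa only [hgn] using hi)
    rw [hbig, Measure.restrict_univ] at v t
    refine ⟨fun y => f y - e c y • b y, E,
      (cont_integrable hf).sub (integrable_smul (continuous_e c) i), m, fun x => ?_,
      fun x hx => by simp [z x hx], v, ?_⟩
    · have := gd x (mem_univ x)
      rw [← norm_e_smul c x, smul_sub, hg, smul_smul, e_mul_neg, one_smul] at this
      exact this
    · refine le_trans (le_of_eq ?_) t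
      congr 1; ext x
      rw [conv_mod, enorm_e_smul]
      congr 2; ext y
      rw [sub_sub_cancel, smul_smul, mul_comm, e_mul_neg, one_smul]
  · refine ⟨fun _ => 0, univ, integrable_zero _ _ _, MeasurableSet.univ,
      fun x => by simp [hlam.le], fun x hx => absurd (mem_univ x) hx, ?_, by simp⟩
    have := big_lower hf hlam zero_le_one (A := univ) (by simp)
      (by rw [Measure.restrict_univ]; linarith [not_le.mp hi])
    rw [Measure.restrict_univ, mul_one] at this
    rw [measure_univ, mul_one, two_mul]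
    exact this.trans le_self_add

end Pool.Agent.Lib.MP_b78339_an
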