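import Pool.Agent.Lib.MP_b78339_an.Main

set_option autoImplicit false

open MeasureTheory Set
open scoped ENNReal NNReal ComplexConjugate

namespace Pool.Agent.Lib.MP_b78339_an

namespace T98

lemma e_pow (σ : ℤ) (k : ℕ) (t : T) : e σ t ^ k = e (σ * k) t := by
  induction k with
  | zero => simp [e_zero]
  | succ k ih => rw [pow_succ, ih, ← e_add]; congr 1; push_cast; ring

lemma cont_eval (σ : ℤ) (P : Polynomial ℂ) : Continuous fun t => P.eval (e σ t) :=
  P.continuous.comp (continuous_e σ)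

lemma integral_eval {σ : ℤ} (hσ : σ ≠ 0) (P : Polynomial ℂ) :
    ∫ t, P.eval (e σ t) = P.eval 0 := by
  induction P using Polynomial.induction_on' with
  | add p q hp hq =>
    simp only [Polynomial.eval_add]
    rw [integral_add (cont_integrable (cont_eval σ p)) (cont_integrable (cont_eval σ q)), hp, hq]
  | monomial n a =>
    simp only [Polynomial.eval_monomial, e_pow]
    rw [integral_const_mul, integral_e]
    rcases Nat.eq_zero_or_pos n with rfl | hn
    · simp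
    · rw [if_neg (mul_ne_zero hσ (by exact_mod_cast hn.ne')), zero_pow hn.ne']

lemma integral_eval_re {σ : ℤ} (hσ : σ ≠ 0) (P : Polynomial ℂ) :
    ∫ t, (P.eval (e σ t)).re = (P.eval 0).re := by
  rw [← integral_eval hσ P]
  exact integral_re (cont_integrable (cont_eval σ P))

lemma exists_re {σ : ℤ} (hσ : σ = 1 ∨ σ = -1) {f : C(T, ℂ)}
    (hf : f ∈ Submodule.span ℂ (range (@fourier 1))) (c : ℂ) :
    ∃ Q : Polynomial ℂ, ∀ t, (Q.eval (e σ t)).re = (c * f t).re := by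
  induction hf using Submodule.span_induction generalizing c with
  | mem f hf =>
    obtain ⟨n, rfl⟩ := hf
    by_cases h : σ * n.natAbs = n
    · refine ⟨Polynomial.monomial n.natAbs c, fun t => ?_⟩
      rw [Polynomial.eval_monomial, e_pow, h]; rfl
    · refine ⟨Polynomial.monomial n.natAbs (conj c), fun t => ?_⟩
      have h2 : σ * n.natAbs = -n := by rcases hσ with rfl | rfl <;> omega
      rw [Polynomial.eval_monomial, e_pow, h2, ← conj_e, ← map_mul, Complex.conj_re]; rfl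
  | zero => exact ⟨0, fun t => by simp⟩
  | add f g _ _ hf hg =>
    obtain ⟨P, hP⟩ := hf c
    obtain ⟨Q, hQ⟩ := hg c
    refine ⟨P + Q, fun t => ?_⟩
    rw [Polynomial.eval_add, Complex.add_re, hP, hQ, ContinuousMap.add_apply, mul_add,
      Complex.add_re]
  | smul a f _ hf =>
    obtain ⟨P, hP⟩ := hf (c * a)
    refine ⟨P, fun t => ?_⟩
    rw [hP, ContinuousMap.smul_apply, smul_eq_mul, mul_assoc]

lemma approx_re {σ : ℤ} (hσ : σ = 1 ∨ σ = -1) {β : T → ℝ} (hβ : Continuous β) {δ : ℝ}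
    (hδ : 0 < δ) : ∃ Q : Polynomial ℂ, (Q.eval 0).im = 0 ∧
      ∀ t, β t ≤ (Q.eval (e σ t)).re ∧ (Q.eval (e σ t)).re ≤ β t + δ := by
  set f0 : C(T, ℂ) := ⟨fun t => ((β t + δ / 2 : ℝ) : ℂ), by fun_prop⟩ with hf0
  have h1 : f0 ∈ closure (Submodule.span ℂ (range (@fourier 1)) : Set C(T, ℂ)) := by
    rw [← Submodule.topologicalClosure_coe, span_fourier_closure_eq_top]
    trivial
  obtain ⟨f, hf, hd⟩ := Metric.mem_closure_iff.mp h1 (δ / 2) (by positivity)
  obtain ⟨Q, hQ⟩ := exists_re hσ hf 1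
  refine ⟨Q - Polynomial.C (((Q.eval 0).im : ℂ) * Complex.I), by simp, fun t => ?_⟩
  have h2 : ‖f0 t - f t‖ < δ / 2 := by
    rw [← dist_eq_norm]
    exact (ContinuousMap.dist_apply_le_dist t).trans_lt hd
  have h3 := abs_le.mp ((Complex.abs_re_le_norm (f0 t - f t)).trans h2.le)
  have h4 : (f0 t - f t).re = β t + δ / 2 - (f t).re := by simp [hf0]
  have h5 : ((Q - Polynomial.C (((Q.eval 0).im : ℂ) * Complex.I)).eval (e σ t)).re = (f t).re := by
    have := hQ t
    rw [one_mul] at this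
    simp [this]
  rw [h5]
  constructor <;> linarith [h3.1, h3.2]

lemma neumann (F : Polynomial ℂ) (R : ℝ) {δ : ℝ} (hδ : 0 < δ) : ∃ ψ : Polynomial ℂ, ∀ z : ℂ,
    1 ≤ (F.eval z).re → ‖F.eval z‖ ≤ R → ‖ψ.eval z * F.eval z - 1‖ ≤ δ := by
  set M : ℝ := R ^ 2 + 1 with hM
  have hM1 : 1 ≤ M := by rw [hM]; nlinarith [sq_nonneg R]
  have hM0 : 0 < M := by linarith
  have h1 : 1 - M⁻¹ < 1 := by linarith [inv_pos.mpr hM0]
  obtain ⟨n, hn⟩ := exists_pow_lt_of_lt_one (pow_pos hδ 2) h1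
  refine ⟨Polynomial.C ((M⁻¹ : ℝ) : ℂ) *
    ∑ k ∈ Finset.range n, (1 - Polynomial.C ((M⁻¹ : ℝ) : ℂ) * F) ^ k, fun z h2 h3 => ?_⟩
  set y := F.eval z with hy
  set w : ℂ := 1 - ((M⁻¹ : ℝ) : ℂ) * y with hw
  have h4 : (Polynomial.C ((M⁻¹ : ℝ) : ℂ) * ∑ k ∈ Finset.range n,
      (1 - Polynomial.C ((M⁻¹ : ℝ) : ℂ) * F) ^ k).eval z * y - 1 = -w ^ n := by
    simp only [Polynomial.eval_mul, Polynomial.eval_C, Polynomial.eval_finset_sum,
      Polynomial.eval_pow, Polynomial.eval_sub, Polynomial.eval_one]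
    rw [← hy, ← hw]
    have := geom_sum_mul_neg w n
    rw [hw] at this ⊢
    linear_combination this
  have h5 : ‖w‖ ^ 2 ≤ 1 - M⁻¹ := by
    have a1 : ‖y‖ ^ 2 ≤ M := by
      have := pow_le_pow_left₀ (norm_nonneg _) h3 2
      linarith
    have a2 : ‖w‖ ^ 2 = 1 - 2 * M⁻¹ * y.re + M⁻¹ * (M⁻¹ * ‖y‖ ^ 2) := by
      rw [Complex.sq_norm, Complex.sq_norm, Complex.normSq_apply, Complex.normSq_apply, hw]
      simp only [Complex.sub_re, Complex.sub_im, Complex.one_re, Complex.one_im,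
        Complex.re_ofReal_mul, Complex.im_ofReal_mul]
      ring
    have a3 : M⁻¹ * ‖y‖ ^ 2 ≤ 1 := by rw [inv_mul_le_iff₀ hM0]; linarith
    have a4 := inv_pos.mpr hM0
    rw [a2]
    nlinarith
  rw [h4, norm_neg, norm_pow]
  refine le_of_lt (lt_of_pow_lt_pow_left₀ 2 hδ.le (lt_of_le_of_lt ?_ hn))
  rw [← pow_mul, mul_comm, pow_mul]
  exact pow_le_pow_left₀ (by positivity) h5 n

lemma inv_pt {F ψ : ℂ} {δ : ℝ} (h1 : 1 ≤ F.re) (hδ : δ ≤ 1) (h : ‖ψ * F - 1‖ ≤ δ) :
    ‖ψ‖ * F.re ≤ 2 ∧ ‖1 - ψ‖ ^ 2 ≤ 1 - ψ.re + 2 * δ := by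
  have a1 : ‖ψ‖ * F.re ≤ 2 := by
    have b1 := norm_sub_norm_le (ψ * F) 1
    rw [norm_mul, norm_one] at b1
    have b2 := mul_le_mul_of_nonneg_left (Complex.re_le_norm F) (norm_nonneg ψ)
    linarith
  have a2 : ‖ψ‖ ≤ 2 := by nlinarith [norm_nonneg ψ]
  refine ⟨a1, ?_⟩
  have a3 : (conj ψ * (ψ * F - 1)).re ≤ 2 * δ := by
    refine (Complex.re_le_norm _).trans ?_
    rw [norm_mul, Complex.norm_conj]
    exact mul_le_mul a2 h (norm_nonneg _) zero_le_two
  have a4 : (conj ψ * (ψ * F - 1)).re = (ψ.re * ψ.re + ψ.im * ψ.im) * F.re - ψ.re := by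
    simp only [Complex.mul_re, Complex.mul_im, Complex.sub_re, Complex.sub_im, Complex.conj_re,
      Complex.conj_im, Complex.one_re, Complex.one_im]
    ring
  rw [Complex.sq_norm, Complex.normSq_apply]
  simp only [Complex.sub_re, Complex.sub_im, Complex.one_re, Complex.one_im]
  nlinarith [mul_self_nonneg ψ.re, mul_self_nonneg ψ.im]

/-- A one-sided trigonometric polynomial that is small where `β` is large and close to one in
the mean. -/
lemma cut {σ : ℤ} (hσ : σ = 1 ∨ σ = -1) {β : T → ℝ} (hβ : Continuous β) (h0 : ∀ t, 0 ≤ β t)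
    {δ : ℝ} (hδ : 0 < δ) : ∃ P : Polynomial ℂ,
      (∀ t, ‖P.eval (e σ t)‖ * (1 + β t) ≤ 8 ∧ ‖1 - P.eval (e σ t)‖ ≤ 9) ∧
      ∫ t, ‖1 - P.eval (e σ t)‖ ≤ (∫ t, β t) + δ := by
  have hσ0 : σ ≠ 0 := by rcases hσ with rfl | rfl <;> decide
  set η := min 1 (δ / 4) with hη
  have hη0 : 0 < η := lt_min one_pos (by positivity)
  have hη1 : η ≤ 1 := min_le_left _ _
  have hη2 : η ≤ δ / 4 := min_le_right _ _
  obtain ⟨Q, hQ0, hQ⟩ := approx_re hσ hβ hη0
  have hQc : Continuous fun t => (Q.eval (e σ t)).re := Complex.continuous_re.comp (cont_eval σ Q)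
  have b1 : 0 ≤ (Q.eval 0).re := by
    rw [← integral_eval_re hσ0]
    exact integral_nonneg fun t => (h0 t).trans (hQ t).1
  have b2 : (Q.eval 0).re ≤ (∫ t, β t) + η := by
    rw [← integral_eval_re hσ0]
    refine (integral_mono (g := fun t => β t + η) (cont_integrable hQc)
      (cont_integrable (hβ.add continuous_const)) fun t => (hQ t).2).trans (le_of_eq ?_)
    rw [integral_add (cont_integrable hβ) (integrable_const _)]
    simp
  obtain ⟨R, hR⟩ := (isCompact_range (cont_eval σ (1 + Q)).norm).bddAbove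
  obtain ⟨ψ, hψ⟩ := neumann (1 + Q) (max R ‖(1 + Q).eval 0‖) hη0
  have hre : ∀ z, ((1 + Q).eval z).re = 1 + (Q.eval z).re := fun z => by simp
  have c1 : ∀ t, ‖ψ.eval (e σ t)‖ * (1 + (Q.eval (e σ t)).re) ≤ 2 ∧
      ‖1 - ψ.eval (e σ t)‖ ^ 2 ≤ 1 - (ψ.eval (e σ t)).re + 2 * η := fun t => by
    have h1 : 1 ≤ ((1 + Q).eval (e σ t)).re := by rw [hre]; linarith [h0 t, (hQ t).1]
    rw [← hre]
    exact inv_pt h1 hη1 (hψ _ h1 ((hR ⟨t, rfl⟩).trans (le_max_left _ _)))
  have c2 : 1 - (ψ.eval 0).re ≤ (∫ t, β t) + 2 * η := by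
    have h1 : 1 ≤ ((1 + Q).eval 0).re := by rw [hre]; linarith
    have h2 := hψ 0 h1 (le_max_right _ _)
    have h3 := (abs_le.mp ((Complex.abs_re_le_norm _).trans h2)).1
    simp only [Polynomial.eval_add, Polynomial.eval_one, Complex.sub_re, Complex.mul_re,
      Complex.add_re, Complex.add_im, Complex.one_re, Complex.one_im, hQ0] at h3
    by_cases h4 : (ψ.eval 0).re ≤ 1
    · nlinarith
    · have : 0 ≤ ∫ t, β t := integral_nonneg fun t => h0 t
      linarith [not_le.mp h4]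
  have e1 : ∀ t, 1 - (1 - (1 - ψ) ^ 2).eval (e σ t) = (1 - ψ.eval (e σ t)) ^ 2 := fun t => by simp
  refine ⟨1 - (1 - ψ) ^ 2, fun t => ?_, ?_⟩
  · have d0 := norm_nonneg (ψ.eval (e σ t))
    have d1 : ‖ψ.eval (e σ t)‖ * (1 + β t) ≤ 2 :=
      (mul_le_mul_of_nonneg_left (by linarith [(hQ t).1]) d0).trans (c1 t).1
    have d2 : ‖ψ.eval (e σ t)‖ ≤ 2 := by nlinarith [h0 t]
    constructor
    · have : (1 - (1 - ψ) ^ 2).eval (e σ t) = (2 - ψ.eval (e σ t)) * ψ.eval (e σ t) := by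
        simp; ring
      rw [this, norm_mul, mul_assoc]
      have d3 : ‖2 - ψ.eval (e σ t)‖ ≤ 4 := by
        refine (norm_sub_le _ _).trans ?_
        rw [Complex.norm_ofNat]; linarith
      exact (mul_le_mul d3 d1 (mul_nonneg d0 (by linarith [h0 t])) (by norm_num)).trans
        (by norm_num)
    · rw [e1, norm_pow]
      have d3 : ‖1 - ψ.eval (e σ t)‖ ≤ 3 := by
        refine (norm_sub_le _ _).trans ?_
        rw [norm_one]; linarith
      nlinarith [norm_nonneg (1 - ψ.eval (e σ t))]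
  · simp only [e1, norm_pow]
    have hψc : Continuous fun t => (ψ.eval (e σ t)).re :=
      Complex.continuous_re.comp (cont_eval σ ψ)
    have hc2 := cont_eval σ ψ
    refine (integral_mono (cont_integrable (by fun_prop)) (cont_integrable (by fun_prop))
      fun t => (c1 t).2).trans ?_
    rw [integral_add (cont_integrable (by fun_prop)) (integrable_const _),
      integral_sub (integrable_const _) (cont_integrable hψc), integral_eval_re hσ0]
    simp only [integral_const, probReal_univ, one_smul]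
    linarith

end T98

end Pool.Agent.Lib.MP_b78339_an
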