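import Mathlib

set_option autoImplicit false

open MeasureTheory
open scoped ENNReal NNReal

namespace Pool.Agent.Lib.MP_b78339_an

/-- The trigonometric polynomial `t ↦ ∑ e_n(t) x_n` on `ℝ / ℤ`. -/
noncomputable def trigPoly {X : Type*} [NormedAddCommGroup X] [NormedSpace ℂ X]
    (x : ℤ →₀ X) (t : UnitAddCircle) : X :=
  x.sum fun n v => fourier n t • v

open Classical in
/-- The norm in `L^p(𝕋; X)` of `D_I f`, for `f = ∑ e_n x_n`. -/
noncomputable def normD {X : Type*} [NormedAddCommGroup X] [NormedSpace ℂ X]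
    (p : ℝ) (I : Set ℤ) (x : ℤ →₀ X) : ℝ≥0∞ :=
  eLpNorm (trigPoly (x.filter fun n => n ∈ I)) (ENNReal.ofReal p) volume

/-- A partition of `ℤ` into intervals. -/
def IsIntervalPartition (P : Set (Set ℤ)) : Prop :=
  Setoid.IsPartition P ∧ ∀ I ∈ P, I.OrdConnected

/-- Upper `ℓ^q(L^p)`-decompositions. -/
def UpperDec (X : Type*) [NormedAddCommGroup X] [NormedSpace ℂ X] (q p : ℝ) : Prop :=
  ∃ U : ℝ≥0, 0 < U ∧ ∀ P : Set (Set ℤ), IsIntervalPartition P → ∀ x : ℤ →₀ X,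
    eLpNorm (trigPoly x) (ENNReal.ofReal p) volume ≤ U * (∑' I : P, normD p I x ^ q) ^ (1 / q)

/-- Lower `ℓ^q(L^p)`-decompositions. -/
def LowerDec (X : Type*) [NormedAddCommGroup X] [NormedSpace ℂ X] (q p : ℝ) : Prop :=
  ∃ L : ℝ≥0, 0 < L ∧ ∀ P : Set (Set ℤ), IsIntervalPartition P → ∀ x : ℤ →₀ X,
    (∑' I : P, normD p I x ^ q) ^ (1 / q) ≤ L * eLpNorm (trigPoly x) (ENNReal.ofReal p) volume

/-- The UMD property: for some `p ∈ (1, ∞)`, `L^p` martingale differences are unconditional. -/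
def UMD (X : Type*) [NormedAddCommGroup X] [NormedSpace ℂ X] [CompleteSpace X] : Prop :=
  ∃ p : ℝ, 1 < p ∧ ∃ β : ℝ≥0, ∀ (Ω : Type) (m : MeasurableSpace Ω) (μ : Measure Ω),
    IsProbabilityMeasure μ → ∀ (ℱ : Filtration ℕ m) (f : ℕ → Ω → X), Martingale f ℱ μ →
    (∀ n, MemLp (f n) (ENNReal.ofReal p) μ) → ∀ ε : ℕ → ℂ, (∀ k, ε k = 1 ∨ ε k = -1) → ∀ n : ℕ,
      eLpNorm (fun ω => ∑ k ∈ Finset.range n, ε k • (f (k + 1) ω - f k ω)) (ENNReal.ofReal p) μ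
        ≤ β * eLpNorm (fun ω => ∑ k ∈ Finset.range n, (f (k + 1) ω - f k ω)) (ENNReal.ofReal p) μ

end Pool.Agent.Lib.MP_b78339_an
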