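import Pool.Agent.Lib.MP_b78339_an.UpCore

set_option autoImplicit false

open MeasureTheory Set
open scoped ENNReal NNReal ComplexConjugate Topology

namespace Pool.Agent.Lib.MP_b78339_an

variable {X : Type*} [NormedAddCommGroup X] [NormedSpace ℂ X]
variable {Y : Type*} [NormedAddCommGroup Y] [NormedSpace ℂ Y]

/-- `Y` norms `X` through the contractive pairing `B`. -/
def Norms (B : Y →L[ℂ] X →L[ℂ] ℂ) : Prop :=
  (∀ y x, ‖B y x‖ ≤ ‖y‖ * ‖x‖) ∧ ∀ x, ∃ y, ‖y‖ ≤ 1 ∧ ‖x‖ ≤ 2 * (B y x).re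

noncomputable def pair (B : Y →L[ℂ] X →L[ℂ] ℂ) (g : T → Y) (f : T → X) : ℂ :=
  ∫ t, B (g (-t)) (f t)

lemma pair_holder {B : Y →L[ℂ] X →L[ℂ] ℂ} (hB : Norms B) {p p' : ℝ} (hp : p.HolderConjugate p')
    {g : T → Y} {f : T → X} (hg : Continuous g) (hf : AEStronglyMeasurable f) :
    ‖pair B g f‖ₑ ≤ nrm p' g * nrm p f := by
  refine (enorm_integral_le_lintegral_enorm _).trans ?_
  have h1 := ENNReal.lintegral_mul_le_Lp_mul_Lq volume hp.symm (f := fun t => ‖g (-t)‖ₑ)
    (g := fun t => ‖f t‖ₑ) (hg.comp continuous_neg).enorm.measurable.aemeasurable hf.enorm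
  rw [← nrm_eq hp.symm.pos, ← nrm_eq hp.pos, nrm_comp_neg hp.symm.pos] at h1
  refine le_trans (lintegral_mono fun t => ?_) h1
  simp only [Pi.mul_apply, ← ofReal_norm_eq_enorm]
  rw [← ENNReal.ofReal_mul (norm_nonneg _)]
  exact ENNReal.ofReal_le_ofReal (hB.1 _ _)

lemma integrable_pair (B : Y →L[ℂ] X →L[ℂ] ℂ) {g : T → Y} {f : T → X} (hg : Continuous g)
    (hf : Integrable f) : Integrable fun t => B (g (-t)) (f t) := by
  obtain ⟨C, hC⟩ := (isCompact_range hg.norm).bddAbove
  refine Integrable.mono' (hf.norm.const_mul (‖B‖ * C))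
    (B.aestronglyMeasurable_comp₂ (hg.comp continuous_neg).aestronglyMeasurable
      hf.aestronglyMeasurable) (ae_of_all _ fun t => (B.le_opNorm₂ _ _).trans ?_)
  exact mul_le_mul_of_nonneg_right (mul_le_mul_of_nonneg_left (hC ⟨_, rfl⟩) B.opNorm_nonneg)
    (norm_nonneg _)

lemma pair_sum_right (B : Y →L[ℂ] X →L[ℂ] ℂ) {g : T → Y} (hg : Continuous g) {ι : Type*}
    (s : Finset ι) {f : ι → T → X} (hf : ∀ i ∈ s, Integrable (f i)) :
    pair B g (fun t => ∑ i ∈ s, f i t) = ∑ i ∈ s, pair B g (f i) := by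
  simp only [pair, map_sum]
  exact integral_finset_sum _ fun i hi => integrable_pair B hg (hf i hi)

lemma pair_sum_left (B : Y →L[ℂ] X →L[ℂ] ℂ) {ι : Type*} (s : Finset ι) {g : ι → T → Y}
    (hg : ∀ i ∈ s, Continuous (g i)) {f : T → X} (hf : Integrable f) :
    pair B (fun t => ∑ i ∈ s, g i t) f = ∑ i ∈ s, pair B (g i) f := by
  simp only [pair, map_sum, ContinuousLinearMap.sum_apply]
  exact integral_finset_sum _ fun i hi => integrable_pair B (hg i hi) hf

lemma pair_smul_left (B : Y →L[ℂ] X →L[ℂ] ℂ) (c : ℂ) (g : T → Y) (f : T → X) :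
    pair B (fun t => c • g t) f = c * pair B g f := by
  simp only [pair, map_smul, ContinuousLinearMap.smul_apply]
  exact integral_smul _ _

lemma norming {B : Y →L[ℂ] X →L[ℂ] ℂ} (hB : Norms B) {p p' : ℝ} (hp : p.HolderConjugate p')
    {f : T → X} (hf : Continuous f) :
    ∃ g : T → Y, Continuous g ∧ nrm p' g ≤ 1 ∧ (nrm p f).toReal ≤ 4 * (pair B g f).re := by
  have hp0 := hp.pos
  have hp1 := hp.sub_one_pos
  have hc1 : Continuous fun t => ‖f t‖ ^ p := hf.norm.rpow_const fun _ => Or.inr hp0.le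
  have hc2 : Continuous fun t => ‖f t‖ ^ (p - 1) := hf.norm.rpow_const fun _ => Or.inr hp1.le
  set I := ∫ t, ‖f t‖ ^ p with hI
  set A := ∫ t, ‖f t‖ ^ (p - 1) with hA
  have hI0 : 0 ≤ I := integral_nonneg fun t => by positivity
  have hA0 : 0 ≤ A := integral_nonneg fun t => by positivity
  have hlin : ∫⁻ t, ‖f t‖ₑ ^ p = ENNReal.ofReal I := by
    simp only [enorm_rpow_eq _ hp0.le]
    exact (ofReal_integral_eq_lintegral_ofReal (cont_integrable hc1)
      (ae_of_all _ fun t => by positivity)).symm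
  have hn : (nrm p f).toReal = I ^ (1 / p) := by
    rw [nrm_eq hp0, hlin, ← ENNReal.toReal_rpow, ENNReal.toReal_ofReal hI0]
  rcases hI0.eq_or_lt with h0 | h0
  · refine ⟨fun _ => 0, continuous_const, by simp [nrm_zero], ?_⟩
    rw [hn, ← h0, Real.zero_rpow (by positivity)]
    simp [pair]
  set η := I / (4 * (A + 1)) with hη
  have hη0 : 0 < η := by positivity
  obtain ⟨u, hu⟩ := exists_continuous_forall_mem_convex_of_local_const (X := T) (E := Y)
    (t := fun t => {y | ‖y‖ ≤ 1 ∧ ‖f t‖ / 2 - η ≤ (B y (f t)).re}) (fun t => by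
      intro a ha b hb α β hα hβ hab
      refine ⟨?_, ?_⟩
      · refine (norm_add_le _ _).trans ?_
        rw [norm_smul, norm_smul, Real.norm_of_nonneg hα, Real.norm_of_nonneg hβ]
        nlinarith [ha.1, hb.1]
      · rw [map_add, ContinuousLinearMap.map_smul_of_tower, ContinuousLinearMap.map_smul_of_tower]
        simp only [ContinuousLinearMap.add_apply, ContinuousLinearMap.smul_apply, Complex.add_re,
          Complex.smul_re, smul_eq_mul]
        have e : ‖f t‖ / 2 - η = α * (‖f t‖ / 2 - η) + β * (‖f t‖ / 2 - η) := by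
          rw [← add_mul, hab, one_mul]
        rw [e]
        exact add_le_add (mul_le_mul_of_nonneg_left ha.2 hα) (mul_le_mul_of_nonneg_left hb.2 hβ))
    (fun t => by
      obtain ⟨y, hy1, hy2⟩ := hB.2 (f t)
      refine ⟨y, ?_⟩
      have hc : Continuous fun s => (B y (f s)).re - ‖f s‖ / 2 := by fun_prop
      have : ∀ᶠ s in 𝓝 t, -η < (B y (f s)).re - ‖f s‖ / 2 :=
        hc.continuousAt.eventually (lt_mem_nhds (by simp only; linarith))
      filter_upwards [this] with s hs
      exact ⟨hy1, by linarith⟩)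
  have huc : Continuous u := u.continuous
  set κ := I ^ (-(1 / p')) with hκ
  have hκ0 : 0 < κ := by positivity
  refine ⟨fun t => ((κ * ‖f (-t)‖ ^ (p - 1) : ℝ) : ℂ) • u (-t), ?_, ?_, ?_⟩
  · exact (Complex.continuous_ofReal.comp (continuous_const.mul (hc2.comp continuous_neg))).smul
      (huc.comp continuous_neg)
  · rw [← nrm_comp_neg hp.symm.pos, nrm_eq hp.symm.pos]
    refine ENNReal.rpow_le_one ?_ hp.symm.one_div_nonneg
    have : ∀ t, ‖((κ * ‖f (- -t)‖ ^ (p - 1) : ℝ) : ℂ) • u (- -t)‖ₑ ^ p' ≤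
        ENNReal.ofReal I⁻¹ * ‖f t‖ₑ ^ p := by
      intro t
      rw [neg_neg, enorm_rpow_eq _ hp.symm.nonneg, enorm_rpow_eq _ hp0.le,
        ← ENNReal.ofReal_mul (by positivity), norm_smul, Complex.norm_real,
        Real.norm_of_nonneg (by positivity)]
      refine ENNReal.ofReal_le_ofReal ((Real.rpow_le_rpow (by positivity)
        (mul_le_of_le_one_right (by positivity) (hu t).1) hp.symm.nonneg).trans (le_of_eq ?_))
      rw [Real.mul_rpow hκ0.le (by positivity), ← Real.rpow_mul (norm_nonneg _),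
        hp.sub_one_mul_conj, hκ, ← Real.rpow_mul hI0, neg_mul, one_div_mul_cancel hp.symm.ne_zero,
        Real.rpow_neg_one]
    refine (lintegral_mono this).trans ?_
    rw [lintegral_const_mul' _ _ ENNReal.ofReal_ne_top, hlin, ← ENNReal.ofReal_mul (by positivity),
      inv_mul_cancel₀ h0.ne', ENNReal.ofReal_one]
  · have hi : Integrable fun t => B (((κ * ‖f t‖ ^ (p - 1) : ℝ) : ℂ) • u t) (f t) :=
      cont_integrable (((B.continuous.comp ((Complex.continuous_ofReal.comp
        (continuous_const.mul hc2)).smul huc))).clm_apply hf)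
    simp only [pair, neg_neg]
    rw [← RCLike.re_to_complex, ← integral_re hi]
    have h2 : ∀ t, κ * (‖f t‖ ^ p / 2 - η * ‖f t‖ ^ (p - 1)) ≤
        RCLike.re (B (((κ * ‖f t‖ ^ (p - 1) : ℝ) : ℂ) • u t) (f t)) := by
      intro t
      rw [map_smul, ContinuousLinearMap.smul_apply, smul_eq_mul, RCLike.re_to_complex,
        Complex.re_ofReal_mul]
      have e1 : ‖f t‖ ^ p = ‖f t‖ ^ (p - 1) * ‖f t‖ := by
        rw [← Real.rpow_add_one' (norm_nonneg _) (by linarith)]; simp
      have e2 := mul_le_mul_of_nonneg_left (hu t).2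
        (show 0 ≤ κ * ‖f t‖ ^ (p - 1) by positivity)
      rw [e1]; linarith
    have h3 := integral_mono (cont_integrable (by fun_prop)) hi.re h2
    rw [integral_const_mul, integral_sub (cont_integrable (by fun_prop))
      (cont_integrable (by fun_prop)), integral_div, integral_const_mul, ← hI, ← hA] at h3
    have h4 : η * A ≤ I / 4 := by
      rw [hη, div_mul_eq_mul_div, div_le_div_iff₀ (by positivity) (by positivity)]
      nlinarith
    have h5 : I ^ (1 / p) = κ * I := by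
      rw [hκ, ← Real.rpow_add_one h0.ne']
      congr 1
      have := hp.inv_add_inv_eq_one
      simp only [one_div]; linarith
    rw [hn, h5]
    nlinarith

lemma norming' {B : Y →L[ℂ] X →L[ℂ] ℂ} (hB : Norms B) {p p' : ℝ} (hp : p.HolderConjugate p')
    {f : T → X} (hf : Continuous f) :
    ∃ g : T → Y, Continuous g ∧ nrm p' g ≤ 1 ∧ nrm p f ≤ 4 * ‖pair B g f‖ₑ := by
  obtain ⟨g, h1, h2, h3⟩ := norming hB hp hf
  refine ⟨g, h1, h2, ?_⟩
  rw [← ENNReal.ofReal_toReal (nrm_ne_top hf), ← ofReal_norm_eq_enorm, ← ENNReal.ofReal_ofNat 4,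
    ← ENNReal.ofReal_mul (by norm_num)]
  exact ENNReal.ofReal_le_ofReal (h3.trans (by linarith [Complex.re_le_norm (pair B g f)]))

variable [CompleteSpace X] [CompleteSpace Y]

lemma pair_D (B : Y →L[ℂ] X →L[ℂ] ℂ) (J : Finset ℤ) {g : T → Y} (hg : Continuous g) {f : T → X}
    (hf : Integrable f) : pair B g (D J f) = pair B (D J g) f := by
  unfold D poly
  rw [pair_sum_right B hg J (f := fun n t => e n t • fc f n) fun n _ =>
    cont_integrable (by fun_prop), pair_sum_left B J (g := fun n t => e n t • fc g n)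
      (fun n _ => by fun_prop) hf]
  refine Finset.sum_congr rfl fun n _ => ?_
  have h1 : pair B g (fun t => e n t • fc f n) = B (fc g n) (fc f n) := by
    have := (B.flip (fc f n)).integral_comp_comm (μ := volume) (φ := fun t => e n t • g (-t))
      (cont_integrable (by fun_prop))
    simp only [ContinuousLinearMap.flip_apply, map_smul, ContinuousLinearMap.smul_apply] at this
    simp only [pair, map_smul]
    rw [this]
    congr 2
    rw [fc, ← integral_neg_eq_self]
    simp only [e_neg_pt, neg_neg]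
  have h2 : pair B (fun t => e n t • fc g n) f = B (fc g n) (fc f n) := by
    have := (B (fc g n)).integral_comp_comm (integrable_smul (continuous_e (-n)) hf)
    simp only [map_smul] at this
    simp only [pair, map_smul, ContinuousLinearMap.smul_apply, e_neg_pt]
    rw [this]; rfl
  rw [h1, h2]

lemma HT.dual {B : Y →L[ℂ] X →L[ℂ] ℂ} (hB : Norms B) {p p' : ℝ} (hp : p.HolderConjugate p')
    (h : HT Y p') : HT X p := by
  obtain ⟨C, hC, h⟩ := h
  refine ⟨4 * C, by finiteness, fun J hJ f hf => ?_⟩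
  obtain ⟨g, h1, h2, h3⟩ := norming' hB hp (continuous_D J f)
  rw [pair_D B J h1 hf] at h3
  refine h3.trans ?_
  rw [mul_assoc]
  refine mul_le_mul_right ((pair_holder hB hp (continuous_D _ _) hf.aestronglyMeasurable).trans
    (mul_le_mul_left ((h J hJ g (cont_integrable h1)).trans ?_) _)) _
  exact mul_le_of_le_one_right' h2

lemma Low.dual {B : Y →L[ℂ] X →L[ℂ] ℂ} (hB : Norms B) {p p' q q' : ℝ} (hp : p.HolderConjugate p')
    (hq : q.HolderConjugate q') (h : Low Y q' p') : Up X q p := by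
  obtain ⟨C, hC, h⟩ := h
  refine ⟨(4 * C ^ (1 / q')) ^ q, ENNReal.rpow_ne_top_of_nonneg hq.nonneg (ENNReal.mul_ne_top
    (by simp) (ENNReal.rpow_ne_top_of_nonneg hq.symm.one_div_nonneg hC)), fun ι s J hJ g hg => ?_⟩
  have hgc : ∀ i ∈ s, Continuous (g i) := fun i hi => by rw [← hg i hi]; fun_prop
  obtain ⟨G, h1, h2, h3⟩ := norming' hB hp (continuous_finset_sum s hgc)
  rw [pair_sum_right B h1 s fun i hi => cont_integrable (hgc i hi)] at h3
  have h4 : ‖∑ i ∈ s, pair B G (g i)‖ₑ ≤ ∑ i ∈ s, nrm p' (D (J i) G) * nrm p (g i) := by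
    refine (enorm_sum_le _ _).trans (Finset.sum_le_sum fun i hi => ?_)
    conv_lhs => rw [← hg i hi, pair_D B _ h1 (cont_integrable (hgc i hi))]
    exact pair_holder hB hp (continuous_D _ _) (hgc i hi).aestronglyMeasurable
  have h5 : ∑ i ∈ s, nrm p' (D (J i) G) ^ q' ≤ C := (h ι s J hJ G (cont_integrable h1)).trans
    (mul_le_of_le_one_right' (ENNReal.rpow_le_one h2 hq.symm.nonneg))
  have h6 := h3.trans (mul_le_mul_right (h4.trans ((ENNReal.inner_le_Lp_mul_Lq s _ _ hq.symm).trans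
    (mul_le_mul_left (ENNReal.rpow_le_rpow h5 hq.symm.one_div_nonneg) _))) _)
  refine (ENNReal.rpow_le_rpow h6 hq.nonneg).trans (le_of_eq ?_)
  rw [← mul_assoc, ENNReal.mul_rpow_of_nonneg _ (_ ^ (1 / q)) hq.nonneg, ← ENNReal.rpow_mul,
    one_div_mul_cancel hq.ne_zero, ENNReal.rpow_one]

lemma Up.dual {B : Y →L[ℂ] X →L[ℂ] ℂ} (hB : Norms B) {p p' q q' : ℝ} (hp : p.HolderConjugate p')
    (hq : q.HolderConjugate q') (h : Up Y q' p') (ht : HT Y p') : Low X q p := by
  obtain ⟨C, hC, h⟩ := h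
  obtain ⟨C1, hC1, ht⟩ := ht
  have hq1 := hq.sub_one_pos
  refine ⟨(4 * (C ^ (1 / q') * C1)) ^ q, ENNReal.rpow_ne_top_of_nonneg hq.nonneg
    (ENNReal.mul_ne_top (by simp) (ENNReal.mul_ne_top
      (ENNReal.rpow_ne_top_of_nonneg hq.symm.one_div_nonneg hC) hC1)), fun ι s J hJ f hf => ?_⟩
  choose G h1 h2 h3 using fun i => norming hB hp (continuous_D (J i) f)
  set n : ι → ℝ := fun i => (nrm p (D (J i) f)).toReal with hn
  have hn0 : ∀ i, 0 ≤ n i := fun i => ENNReal.toReal_nonneg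
  have hnn : ∀ i, nrm p (D (J i) f) = ENNReal.ofReal (n i) := fun i =>
    (ENNReal.ofReal_toReal (nrm_ne_top (continuous_D _ _))).symm
  set S := ∑ i ∈ s, nrm p (D (J i) f) ^ q with hS
  have hS' : S = ENNReal.ofReal (∑ i ∈ s, n i ^ q) := by
    rw [ENNReal.ofReal_sum_of_nonneg fun i _ => Real.rpow_nonneg (hn0 i) _]
    exact Finset.sum_congr rfl fun i _ => by
      rw [hnn, ENNReal.ofReal_rpow_of_nonneg (hn0 i) hq.nonneg]
  set H : ι → T → Y := fun i t => ((n i ^ (q - 1) : ℝ) : ℂ) • D (J i) (G i) t with hH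
  have hHc : ∀ i, Continuous (H i) := fun i => by simp only [hH]; fun_prop
  have a1 : S ≤ 4 * ‖pair B (fun t => ∑ i ∈ s, H i t) f‖ₑ := by
    rw [hS', ← ofReal_norm_eq_enorm, ← ENNReal.ofReal_ofNat 4, ← ENNReal.ofReal_mul (by norm_num)]
    refine ENNReal.ofReal_le_ofReal (le_trans ?_
      (mul_le_mul_of_nonneg_left (Complex.re_le_norm _) (by norm_num)))
    rw [pair_sum_left B s (fun i _ => hHc i) hf, Complex.re_sum, Finset.mul_sum]
    refine Finset.sum_le_sum fun i _ => ?_
    simp only [hH]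
    rw [pair_smul_left, ← pair_D B _ (h1 i) hf, Complex.re_ofReal_mul]
    have e1 : n i ^ q = n i ^ (q - 1) * n i := by
      rw [← Real.rpow_add_one' (hn0 i) (by linarith [hq.pos])]; simp
    have := mul_le_mul_of_nonneg_left (h3 i) (Real.rpow_nonneg (hn0 i) (q - 1))
    rw [e1]; linarith
  have a2 : nrm p' (fun t => ∑ i ∈ s, H i t) ^ q' ≤ C * (C1 ^ q' * S) := by
    refine (h ι s J hJ H fun i _ => ?_).trans (mul_le_mul_right ?_ _)
    · ext t
      simp only [hH]
      rw [D_smul, D_D, Finset.inter_self]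
    · rw [hS, Finset.mul_sum]
      refine Finset.sum_le_sum fun i hi => ?_
      simp only [hH]
      rw [nrm_smul, ENNReal.mul_rpow_of_nonneg _ _ hq.symm.nonneg, mul_comm]
      refine mul_le_mul' (ENNReal.rpow_le_rpow ((ht _ (hJ.1 i hi) _
        (cont_integrable (h1 i))).trans (mul_le_of_le_one_right' (h2 i))) hq.symm.nonneg)
        (le_of_eq ?_)
      rw [enorm_rpow_eq _ hq.symm.nonneg, Complex.norm_real,
        Real.norm_of_nonneg (Real.rpow_nonneg (hn0 i) _), ← Real.rpow_mul (hn0 i),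
        hq.sub_one_mul_conj, hnn, ENNReal.ofReal_rpow_of_nonneg (hn0 i) hq.nonneg]
  have a3 := ENNReal.rpow_le_rpow a2 hq.symm.one_div_nonneg
  rw [← ENNReal.rpow_mul, mul_one_div_cancel hq.symm.ne_zero, ENNReal.rpow_one,
    ENNReal.mul_rpow_of_nonneg _ _ hq.symm.one_div_nonneg,
    ENNReal.mul_rpow_of_nonneg _ _ hq.symm.one_div_nonneg, ← ENNReal.rpow_mul,
    mul_one_div_cancel hq.symm.ne_zero, ENNReal.rpow_one] at a3
  have a4 := a1.trans (mul_le_mul_right ((pair_holder hB hp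
    (continuous_finset_sum s fun i _ => hHc i) hf.aestronglyMeasurable).trans
    (mul_le_mul_left a3 _)) _)
  by_cases hS0 : S = 0
  · rw [hS0]; exact zero_le
  have hSt : S ≠ ⊤ := by rw [hS']; exact ENNReal.ofReal_ne_top
  have a5 : S ^ (1 / q) ≤ 4 * (C ^ (1 / q') * C1) * nrm p f := by
    have e1 : S = S ^ (1 / q') * S ^ (1 / q) := by
      rw [← ENNReal.rpow_add _ _ hS0 hSt, hq.symm.one_div_add_one_div]; simp
    refine (ENNReal.mul_le_mul_iff_right (a := S ^ (1 / q'))
      (ENNReal.rpow_pos (pos_iff_ne_zero.mpr hS0) hSt).ne'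
      (ENNReal.rpow_ne_top_of_nonneg hq.symm.one_div_nonneg hSt)).mp ?_
    rw [← e1]
    exact a4.trans (le_of_eq (by ring))
  have a6 := ENNReal.rpow_le_rpow a5 hq.nonneg
  rwa [← ENNReal.rpow_mul, one_div_mul_cancel hq.ne_zero, ENNReal.rpow_one,
    ENNReal.mul_rpow_of_nonneg _ (nrm p f) hq.nonneg] at a6

omit [CompleteSpace X] in
lemma norms_dual : Norms (ContinuousLinearMap.id ℂ (X →L[ℂ] ℂ)) := by
  refine ⟨fun y x => y.le_opNorm x, fun x => ?_⟩
  obtain ⟨g, h1, h2⟩ := exists_dual_vector'' ℂ x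
  refine ⟨g, h1, ?_⟩
  simp only [ContinuousLinearMap.id_apply]
  rw [h2]
  simp only [Complex.coe_algebraMap, Complex.ofReal_re]
  linarith [norm_nonneg x]

omit [CompleteSpace X] in
lemma norms_predual : Norms (ContinuousLinearMap.id ℂ (X →L[ℂ] ℂ)).flip := by
  refine ⟨fun y x => by rw [mul_comm]; exact x.le_opNorm y, fun φ => ?_⟩
  by_cases h0 : φ = 0
  · exact ⟨0, by simp, by simp [h0]⟩
  have h1 : 0 < ‖φ‖ := norm_pos_iff.mpr h0
  obtain ⟨x, hx1, hx2⟩ := φ.exists_lt_apply_of_lt_opNorm (r := ‖φ‖ / 2) (by linarith)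
  have h2 : φ x ≠ 0 := norm_pos_iff.mp (by linarith)
  refine ⟨((‖φ x‖ : ℂ) / φ x) • x, ?_, ?_⟩
  · rw [norm_smul, norm_div, Complex.norm_real, norm_norm, div_self (norm_ne_zero_iff.mpr h2),
      one_mul]
    exact hx1.le
  · rw [ContinuousLinearMap.flip_apply, ContinuousLinearMap.id_apply, map_smul, smul_eq_mul,
      div_mul_cancel₀ _ h2, Complex.ofReal_re]
    linarith

/-- Boundedness of the interval projections does not depend on the exponent. -/
lemma HT.all {p r : ℝ} (h : HT X p) (hp : 1 < p) (hr : 1 < r) : HT X r := by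
  rcases lt_trichotomy r p with h1 | rfl | h1
  · exact h.down hr h1
  · exact h
  · have hp' := Real.HolderConjugate.conjExponent hp
    have hr' := Real.HolderConjugate.conjExponent hr
    refine HT.dual norms_dual hr' ((HT.dual norms_predual hp'.symm h).down hr'.symm.lt ?_)
    simp only [Real.conjExponent]
    rw [div_lt_div_iff₀ (by linarith) (by linarith)]
    nlinarith

end Pool.Agent.Lib.MP_b78339_an
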