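import Pool.Agent.Lib.MP_b78339_an.Weak

set_option autoImplicit false

open MeasureTheory Set
open scoped ENNReal NNReal ComplexConjugate

namespace Pool.Agent.Lib.MP_b78339_an

noncomputable def gc (a : ℝ) : ℝ≥0∞ := (1 - ENNReal.ofReal ((2 : ℝ) ^ (-a)))⁻¹

lemma gc_ne_top {a : ℝ} (ha : 0 < a) : gc a ≠ ⊤ := by
  rw [gc, ENNReal.inv_ne_top, ← pos_iff_ne_zero, tsub_pos_iff_lt, ENNReal.ofReal_lt_one]
  exact Real.rpow_lt_one_of_one_lt_of_neg one_lt_two (by linarith)

lemma geo1 {a : ℝ} (ha : 0 < a) {y : ℝ} (hy : 0 < y) :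
    ∑' k : ℤ, (if (2 : ℝ) ^ k ≤ y then ENNReal.ofReal (((2 : ℝ) ^ k) ^ a) else 0) ≤
      gc a * ENNReal.ofReal (y ^ a) := by
  obtain ⟨k0, h1, h2⟩ := exists_mem_Ico_zpow hy (one_lt_two (α := ℝ))
  have hinj : Function.Injective fun n : ℕ => k0 - n := by
    intro m n h; simpa using h
  rw [← hinj.tsum_eq]
  · rw [gc, ← ENNReal.tsum_geometric, ← ENNReal.tsum_mul_right]
    refine ENNReal.tsum_le_tsum fun n => ?_
    split_ifs
    · rw [← ENNReal.ofReal_pow (by positivity), ← ENNReal.ofReal_mul (by positivity)]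
      refine ENNReal.ofReal_le_ofReal ?_
      rw [zpow_sub₀ two_ne_zero, div_eq_mul_inv, Real.mul_rpow (by positivity) (by positivity),
        mul_comm]
      refine mul_le_mul (le_of_eq ?_) (Real.rpow_le_rpow (by positivity) h1 ha.le)
        (by positivity) (by positivity)
      rw [zpow_natCast, ← Real.rpow_natCast, ← Real.rpow_neg zero_le_two,
        ← Real.rpow_mul zero_le_two, ← Real.rpow_natCast, ← Real.rpow_mul zero_le_two]
      congr 1; ring
    · exact zero_le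
  · intro k hk
    have h3 : (2 : ℝ) ^ k ≤ y := by
      by_contra h; exact hk (if_neg h)
    have h4 : k < k0 + 1 := (zpow_lt_zpow_iff_right₀ one_lt_two).mp (h3.trans_lt h2)
    exact ⟨(k0 - k).toNat, by simp only; omega⟩

lemma geo2 {a : ℝ} (ha : 0 < a) {y : ℝ} (hy : 0 < y) :
    ∑' k : ℤ, (if y ≤ (2 : ℝ) ^ k then ENNReal.ofReal (((2 : ℝ) ^ k) ^ (-a)) else 0) ≤
      gc a * ENNReal.ofReal (y ^ (-a)) := by
  have h := geo1 ha (inv_pos.mpr hy)
  rw [← (Equiv.neg ℤ).tsum_eq, Real.inv_rpow hy.le, ← Real.rpow_neg hy.le] at h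
  refine le_trans (le_of_eq ?_) h
  congr 1; ext k
  simp only [Equiv.neg_apply, zpow_neg]
  rw [Real.inv_rpow (by positivity), ← Real.rpow_neg (by positivity)]
  simp only [inv_le_inv₀ (show (0 : ℝ) < 2 ^ k by positivity) hy]

lemma sum_ph {p r c y : ℝ} (hr : 1 < r) (hrp : r < p) (hc : 0 < c) (hy : 0 ≤ y) :
    ∑' j : ℤ, ENNReal.ofReal ((c * 2 ^ j) ^ (r - 1)) * ENNReal.ofReal (ph p (c * 2 ^ j) y) ≤
      (gc (r - 1) + gc (p - r)) * ENNReal.ofReal (y ^ r) := by
  rcases hy.eq_or_lt with rfl | hy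
  · have : ∀ j : ℤ, ph p (c * 2 ^ j) 0 = 0 := by
      intro j
      rw [ph, if_neg (not_lt.mpr (by positivity)), Real.zero_rpow (by linarith), mul_zero]
    simp [this]
  have hyc : 0 < y / c := by positivity
  have h1 := geo1 (a := r - 1) (by linarith) hyc
  have h2 := geo2 (a := p - r) (by linarith) hyc
  have key : ∀ j : ℤ, ENNReal.ofReal ((c * 2 ^ j) ^ (r - 1)) * ENNReal.ofReal (ph p (c * 2 ^ j) y) ≤
      (if (2 : ℝ) ^ j ≤ y / c then ENNReal.ofReal (((2 : ℝ) ^ j) ^ (r - 1)) else 0) *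
        ENNReal.ofReal (c ^ (r - 1) * y) +
      (if y / c ≤ (2 : ℝ) ^ j then ENNReal.ofReal (((2 : ℝ) ^ j) ^ (-(p - r))) else 0) *
        ENNReal.ofReal (c ^ (-(p - r)) * y ^ p) := by
    intro j
    have hj : (0 : ℝ) < 2 ^ j := by positivity
    by_cases h : c * 2 ^ j < y
    · rw [ph, if_pos h, if_pos (by rw [le_div_iff₀ hc]; linarith),
        ← ENNReal.ofReal_mul (by positivity), ← ENNReal.ofReal_mul (by positivity)]
      refine le_trans (le_of_eq ?_) le_self_add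
      rw [Real.mul_rpow hc.le hj.le]; congr 1; ring
    · rw [ph, if_neg h, if_pos (show y / c ≤ 2 ^ j by rw [div_le_iff₀ hc]; linarith),
        ← ENNReal.ofReal_mul (by positivity), ← ENNReal.ofReal_mul (by positivity)]
      refine le_trans (le_of_eq ?_) le_add_self
      rw [← mul_assoc, ← mul_assoc, ← Real.rpow_add (by positivity), ← Real.mul_rpow hj.le hc.le,
        mul_comm c]
      congr 3; ring
  refine (ENNReal.tsum_le_tsum key).trans ?_
  rw [ENNReal.tsum_add, ENNReal.tsum_mul_right, ENNReal.tsum_mul_right, add_mul]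
  refine add_le_add ((mul_le_mul_left h1 _).trans (le_of_eq ?_))
    ((mul_le_mul_left h2 _).trans (le_of_eq ?_))
  · rw [mul_assoc, ← ENNReal.ofReal_mul (by positivity), ← mul_assoc,
      ← Real.mul_rpow hyc.le hc.le, div_mul_cancel₀ _ hc.ne', ← Real.rpow_add_one hy.ne']
    simp
  · rw [mul_assoc, ← ENNReal.ofReal_mul (by positivity), ← mul_assoc,
      ← Real.mul_rpow hyc.le hc.le, div_mul_cancel₀ _ hc.ne', ← Real.rpow_add hy]
    congr 3; ring

variable {E : Type*} [NormedAddCommGroup E]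

lemma sum_Phi {p r c : ℝ} (hr : 1 < r) (hrp : r < p) (hc : 0 < c) {f : T → E} (hf : Continuous f) :
    ∑' j : ℤ, ENNReal.ofReal ((c * 2 ^ j) ^ (r - 1)) * Phi p (c * 2 ^ j) f ≤
      (gc (r - 1) + gc (p - r)) * ∫⁻ x, ‖f x‖ₑ ^ r := by
  simp only [Phi]
  simp_rw [← lintegral_const_mul _ (measurable_ph _ _ hf)]
  rw [← lintegral_tsum fun j => ((measurable_ph _ _ hf).const_mul _).aemeasurable,
    ← lintegral_const_mul _ (hf.enorm.measurable.pow_const r)]
  refine lintegral_mono fun x => ?_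
  rw [enorm_rpow_eq _ (by linarith)]
  exact sum_ph hr hrp hc (norm_nonneg _)

lemma layer {r c : ℝ} (hr : 0 < r) (hc : 0 < c) {g : T → E} (hg : Continuous g) :
    ∫⁻ x, ‖g x‖ₑ ^ r ≤
      ∑' k : ℤ, ENNReal.ofReal ((2 * c * 2 ^ k) ^ r) * volume {x | c * 2 ^ k < ‖g x‖} := by
  have hm : ∀ k : ℤ, MeasurableSet {x | c * 2 ^ k < ‖g x‖} := fun k =>
    measurableSet_lt measurable_const hg.norm.measurable
  simp_rw [← lintegral_indicator_const (hm _)]
  rw [← lintegral_tsum fun k => (measurable_const.indicator (hm k)).aemeasurable]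
  refine lintegral_mono fun x => ?_
  rcases (norm_nonneg (g x)).eq_or_lt with h0 | h0
  · rw [enorm_rpow_eq _ hr.le, ← h0, Real.zero_rpow hr.ne']; simp
  · obtain ⟨k, h1, h2⟩ := exists_mem_Ioc_zpow (div_pos h0 hc) (one_lt_two (α := ℝ))
    refine le_trans ?_ (ENNReal.le_tsum k)
    rw [lt_div_iff₀ hc] at h1
    rw [div_le_iff₀ hc, zpow_add_one₀ two_ne_zero] at h2
    rw [indicator_of_mem (show x ∈ {x | c * 2 ^ k < ‖g x‖} from by
      simp only [mem_ofPred_eq]; linarith), enorm_rpow_eq _ hr.le]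
    exact ENNReal.ofReal_le_ofReal (Real.rpow_le_rpow h0.le (by linarith) hr.le)

end Pool.Agent.Lib.MP_b78339_an
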