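import Pool.Agent.Lib.MP_b78339_an.KInf

set_option autoImplicit false

open MeasureTheory Set
open scoped ENNReal NNReal ComplexConjugate

namespace Pool.Agent.Lib.MP_b78339_an

namespace T98

lemma rpow_split {p y : ℝ} (hp : 1 ≤ p) (hy : 0 ≤ y) : y ^ p = y ^ (p - 1) * y := by
  rw [← Real.rpow_add_one' hy (by linarith)]; simp

lemma pt_lo {p lam y d z : ℝ} (hp : 1 ≤ p) (hlam : 0 < lam) (hy : 0 ≤ y) (hd : 0 ≤ d) (hz : 0 ≤ z)
    (h1 : z ≤ 212 * lam) (h2 : z ≤ y + d) :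
    z ^ p ≤ lam ^ (p - 1) * (424 ^ p * (ph p lam y + d)) := by
  have h0 := ph_nonneg p hlam hy
  have a1 : ∀ w, z ≤ 424 * w → z ^ p ≤ lam ^ (p - 1) * (424 ^ p * w) := fun w hw => by
    rw [rpow_split hp hz, rpow_split (y := 424) hp (by norm_num), mul_assoc, ← mul_assoc,
      ← Real.mul_rpow hlam.le (by norm_num)]
    exact mul_le_mul (Real.rpow_le_rpow hz (by linarith) (by linarith)) hw hz (by positivity)
  by_cases h : z ≤ 2 * d
  · exact a1 _ (by linarith)
  · by_cases h3 : lam < y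
    · refine a1 _ ?_
      rw [ph, if_pos h3]; linarith
    · have a2 : z ^ p ≤ (424 * y) ^ p := Real.rpow_le_rpow hz (by linarith) (by linarith)
      have a3 : lam ^ (p - 1) * (424 ^ p * ph p lam y) = (424 * y) ^ p := by
        rw [ph, if_neg h3, Real.mul_rpow (by norm_num) hy, mul_left_comm, ← mul_assoc (lam ^ _),
          ← Real.rpow_add hlam]
        simp
      have a4 : 0 ≤ lam ^ (p - 1) * (424 ^ p * d) := by positivity
      rw [mul_add, mul_add, a3]
      linarith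

noncomputable def ps (p lam y : ℝ) : ℝ := if lam < y then y ^ p else 0

lemma ps_nonneg (p lam : ℝ) {y : ℝ} (hy : 0 ≤ y) : 0 ≤ ps p lam y := by
  unfold ps; split_ifs
  · positivity
  · exact le_rfl

lemma pt_hi {p lam y d : ℝ} (hp : 1 ≤ p) (hlam : 0 < lam) (hy : 0 ≤ y) (hd : 0 ≤ d)
    (h : d ≤ y + 212 * lam) : d ^ p ≤ 213 ^ p * (ps p lam y + lam ^ (p - 1) * d) := by
  unfold ps
  split_ifs with h1
  · have a1 : d ^ p ≤ (213 * y) ^ p := Real.rpow_le_rpow hd (by linarith) (by linarith)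
    have a2 : 0 ≤ (213 : ℝ) ^ p * (lam ^ (p - 1) * d) := by positivity
    rw [Real.mul_rpow (by norm_num) hy] at a1
    linarith
  · rw [zero_add, rpow_split hp hd, ← mul_assoc]
    refine mul_le_mul_of_nonneg_right ((Real.rpow_le_rpow (y := 213 * lam) hd (by linarith)
      (by linarith)).trans ?_) hd
    rw [Real.mul_rpow (by norm_num) hlam.le]
    exact mul_le_mul_of_nonneg_right
      (Real.rpow_le_rpow_of_exponent_le (by norm_num) (by linarith)) (by positivity)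

lemma sum_ps {p r c y : ℝ} (hpr : p < r) (hc : 0 < c) (hy : 0 ≤ y) :
    ∑' j : ℤ, ENNReal.ofReal ((c * 2 ^ j) ^ (r - p)) * ENNReal.ofReal (ps p (c * 2 ^ j) y) ≤
      gc (r - p) * ENNReal.ofReal (y ^ r) := by
  rcases hy.eq_or_lt with rfl | hy
  · have : ∀ j : ℤ, ps p (c * 2 ^ j) 0 = 0 := fun j => if_neg (not_lt.mpr (by positivity))
    simp [this]
  have hyc : 0 < y / c := by positivity
  have key : ∀ j : ℤ, ENNReal.ofReal ((c * 2 ^ j) ^ (r - p)) * ENNReal.ofReal (ps p (c * 2 ^ j) y) ≤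
      (if (2 : ℝ) ^ j ≤ y / c then ENNReal.ofReal (((2 : ℝ) ^ j) ^ (r - p)) else 0) *
        ENNReal.ofReal (c ^ (r - p) * y ^ p) := by
    intro j
    have hj : (0 : ℝ) < 2 ^ j := by positivity
    by_cases h : c * 2 ^ j < y
    · rw [ps, if_pos h, if_pos (by rw [le_div_iff₀ hc]; linarith),
        ← ENNReal.ofReal_mul (by positivity), ← ENNReal.ofReal_mul (by positivity),
        Real.mul_rpow hc.le hj.le]
      exact le_of_eq (by congr 1; ring)
    · rw [ps, if_neg h]; simp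
  refine (ENNReal.tsum_le_tsum key).trans ?_
  rw [ENNReal.tsum_mul_right]
  refine (mul_le_mul_left (geo1 (a := r - p) (by linarith) hyc) _).trans (le_of_eq ?_)
  rw [mul_assoc, ← ENNReal.ofReal_mul (by positivity), ← mul_assoc,
    ← Real.mul_rpow hyc.le hc.le, div_mul_cancel₀ _ hc.ne', ← Real.rpow_add hy, sub_add_cancel]

variable {X : Type*} [NormedAddCommGroup X] [NormedSpace ℂ X]

noncomputable def Psi (p lam : ℝ) (f : T → X) : ℝ≥0∞ := ∫⁻ x, ENNReal.ofReal (ps p lam ‖f x‖)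

omit [NormedSpace ℂ X] in
lemma measurable_ps {p : ℝ} (lam : ℝ) {f : T → X} (hf : Continuous f) :
    Measurable fun x => ENNReal.ofReal (ps p lam ‖f x‖) := by
  refine Measurable.ennreal_ofReal ?_
  unfold ps
  exact Measurable.ite (measurableSet_lt measurable_const hf.norm.measurable)
    (hf.norm.measurable.pow_const p) measurable_const

omit [NormedSpace ℂ X] in
lemma sum_Psi {p r c : ℝ} (hr : 0 ≤ r) (hpr : p < r) (hc : 0 < c) {f : T → X} (hf : Continuous f) :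
    ∑' j : ℤ, ENNReal.ofReal ((c * 2 ^ j) ^ (r - p)) * Psi p (c * 2 ^ j) f ≤
      gc (r - p) * ∫⁻ x, ‖f x‖ₑ ^ r := by
  simp only [Psi]
  simp_rw [← lintegral_const_mul _ (measurable_ps _ hf)]
  rw [← lintegral_tsum fun j => ((measurable_ps _ hf).const_mul _).aemeasurable,
    ← lintegral_const_mul _ (hf.enorm.measurable.pow_const r)]
  refine lintegral_mono fun x => ?_
  rw [enorm_rpow_eq _ hr]
  exact sum_ps hpr hc (norm_nonneg _)

lemma tr_Psi {p lam : ℝ} (hp : 1 ≤ p) (hlam : 0 < lam) (f : T → X) :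
    ENNReal.ofReal (lam ^ (p - 1)) * ∫⁻ x, ‖f x - tr lam f x‖ₑ ≤ Psi p lam f := by
  rw [← lintegral_const_mul' _ _ ENNReal.ofReal_ne_top]
  refine lintegral_mono fun x => ?_
  rw [← ofReal_norm_eq_enorm, ← ENNReal.ofReal_mul (by positivity)]
  refine ENNReal.ofReal_le_ofReal
    ((mul_le_mul_of_nonneg_left (norm_sub_tr hlam f x) (by positivity)).trans ?_)
  unfold ps
  split_ifs with h
  · rw [rpow_split hp (norm_nonneg _)]
    exact mul_le_mul_of_nonneg_right (Real.rpow_le_rpow hlam.le h.le (by linarith)) (norm_nonneg _)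
  · rw [mul_zero]

variable [CompleteSpace X]

lemma kinf' {J : Finset ℤ} (hJ : IsInt J) {g : T → X} (hg : D J g = g) {lam : ℝ} (hlam : 0 < lam) :
    ∃ h : T → X, Continuous h ∧ D J h = h ∧ (∀ t, ‖h t‖ ≤ 212 * lam) ∧
      ∫⁻ t, ‖g t - h t‖ₑ ≤ 212 * ∫⁻ t, ‖g t - tr lam g t‖ₑ := by
  obtain ⟨h, h1, h2, h3⟩ := kinf hJ hg hlam
  have hgc : Continuous g := by rw [← hg]; fun_prop
  have hc : Continuous h := by rw [← h1]; fun_prop
  refine ⟨h, hc, h1, h2, ?_⟩
  rw [lintegral_enorm_cont (f := fun t => g t - h t) (hgc.sub hc),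
    lintegral_enorm_cont (f := fun t => g t - tr lam g t) (hgc.sub (continuous_tr hlam hgc)),
    ← ENNReal.ofReal_ofNat, ← ENNReal.ofReal_mul (by norm_num)]
  exact ENNReal.ofReal_le_ofReal h3

lemma kc_all {p : ℝ} (hp : 1 ≤ p) {J : Finset ℤ} (hJ : IsInt J) {g : T → X} (hg : D J g = g) :
    KC p (212 + ENNReal.ofReal (424 ^ p) * (1 + 212)) J g := by
  intro lam hlam
  obtain ⟨h, hc, h1, h2, h3⟩ := kinf' hJ hg hlam
  have hgc : Continuous g := by rw [← hg]; fun_prop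
  have h4 := h3.trans (mul_le_mul_right (tr_hi p hlam g) _)
  refine ⟨h, hc, h1, h4.trans (mul_le_mul_left le_self_add _), ?_⟩
  have h5 : ∀ x, ‖h x‖ₑ ^ p ≤ ENNReal.ofReal (lam ^ (p - 1)) * (ENNReal.ofReal (424 ^ p) *
      (ENNReal.ofReal (ph p lam ‖g x‖) + ‖g x - h x‖ₑ)) := fun x => by
    have := ph_nonneg p hlam (norm_nonneg (g x))
    rw [enorm_rpow_eq _ (by linarith), ← ofReal_norm_eq_enorm,
      ← ENNReal.ofReal_add this (norm_nonneg _), ← ENNReal.ofReal_mul (by positivity),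
      ← ENNReal.ofReal_mul (by positivity)]
    refine ENNReal.ofReal_le_ofReal (pt_lo hp hlam (norm_nonneg _) (norm_nonneg _) (norm_nonneg _)
      (h2 x) ?_)
    linarith [norm_sub_norm_le (h x) (g x), norm_sub_rev (h x) (g x)]
  refine (lintegral_mono h5).trans ?_
  rw [lintegral_const_mul' _ _ ENNReal.ofReal_ne_top, lintegral_const_mul' _ _ ENNReal.ofReal_ne_top,
    lintegral_add_left (measurable_ph p lam hgc)]
  refine mul_le_mul_right (le_trans ?_ (mul_le_mul_left le_add_self _)) _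
  rw [mul_assoc, add_mul, one_mul]
  exact mul_le_mul_right (add_le_add le_rfl h4) _

lemma ku_all {p : ℝ} (hp : 1 ≤ p) {J : Finset ℤ} (hJ : IsInt J) {g : T → X} (hg : D J g = g)
    {lam : ℝ} (hlam : 0 < lam) : ∃ h : T → X, Continuous h ∧ D J h = h ∧ (∀ t, ‖h t‖ ≤ 212 * lam) ∧
      ∫⁻ t, ‖g t - h t‖ₑ ^ p ≤ ENNReal.ofReal (213 ^ p) * (1 + 212) * Psi p lam g := by
  obtain ⟨h, hc, h1, h2, h3⟩ := kinf' hJ hg hlam
  have hgc : Continuous g := by rw [← hg]; fun_prop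
  refine ⟨h, hc, h1, h2, ?_⟩
  have h5 : ∀ x, ‖g x - h x‖ₑ ^ p ≤ ENNReal.ofReal (213 ^ p) * (ENNReal.ofReal (ps p lam ‖g x‖) +
      ENNReal.ofReal (lam ^ (p - 1)) * ‖g x - h x‖ₑ) := fun x => by
    rw [enorm_rpow_eq _ (by linarith), ← ofReal_norm_eq_enorm,
      ← ENNReal.ofReal_mul (by positivity),
      ← ENNReal.ofReal_add (ps_nonneg _ _ (norm_nonneg _)) (by positivity),
      ← ENNReal.ofReal_mul (by positivity)]
    refine ENNReal.ofReal_le_ofReal (pt_hi hp hlam (norm_nonneg _) (norm_nonneg _) ?_)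
    linarith [norm_sub_le (g x) (h x), h2 x]
  refine (lintegral_mono h5).trans ?_
  rw [lintegral_const_mul' _ _ ENNReal.ofReal_ne_top, lintegral_add_left (measurable_ps lam hgc),
    lintegral_const_mul' _ _ ENNReal.ofReal_ne_top, mul_assoc, add_mul, one_mul]
  refine mul_le_mul_right (add_le_add le_rfl ((mul_le_mul_right h3 _).trans ?_)) _
  rw [mul_left_comm]
  exact mul_le_mul_right (tr_Psi hp hlam g) _

lemma hi_core {q p r s : ℝ} (hp : 1 ≤ p) (hpr : p < r) (hq : 0 < q) (hqp : q ≤ p)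
    (hs : s * (p / q + r - p) = r) {C K : ℝ≥0∞}
    (h : Upc X q p C) {ι : Type} {t : Finset ι} {J : ι → Finset ℤ} (hJ : Fam t J)
    {g : ι → T → X} (hD : ∀ i ∈ t, D (J i) (g i) = g i)
    {ε : ι → ℝ} (hε0 : ∀ i ∈ t, 0 < ε i) (hε : ∑ i ∈ t, ENNReal.ofReal (ε i ^ s) ≤ 2)
    (hn : ∀ i ∈ t, nrm r (g i) ≤ K * ENNReal.ofReal (ε i)) :
    ∫⁻ x, ‖∑ i ∈ t, g i x‖ₑ ^ r ≤ ENNReal.ofReal (850 ^ r) * (C ^ (p / q) * (2 ^ (p / q - 1) *
      (ENNReal.ofReal (213 ^ p) * (1 + 212) * (gc (r - p) * 2)))) * K ^ r := by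
  classical
  obtain ⟨W, hW⟩ : ∃ W, ENNReal.ofReal (213 ^ p) * (1 + 212) = W := ⟨_, rfl⟩
  rw [hW]
  have hσ : 1 ≤ p / q := (one_le_div hq).mpr hqp
  have hg : ∀ i ∈ t, Continuous (g i) := fun i hi => by rw [← hD i hi]; fun_prop
  have hc0 : ∀ i ∈ t, 0 < ε i ^ s := fun i hi => Real.rpow_pos_of_pos (hε0 i hi) _
  have hε2 : ∑ i ∈ t, ε i ^ s ≤ 2 := by
    rw [← ENNReal.ofReal_sum_of_nonneg fun i hi => (hc0 i hi).le, ← ENNReal.ofReal_ofNat] at hε
    exact (ENNReal.ofReal_le_ofReal_iff zero_le_two).mp hε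
  set u : ι → ℤ → ℝ≥0∞ := fun i k => ENNReal.ofReal (ε i ^ (s - r)) *
    (ENNReal.ofReal ((ε i ^ s * 2 ^ k) ^ (r - p)) * Psi p (ε i ^ s * 2 ^ k) (g i)) with hu
  have hsum : Continuous fun x => ∑ i ∈ t, g i x := continuous_finset_sum _ hg
  have key : ∀ k : ℤ, ENNReal.ofReal ((2 * 425 * 2 ^ k) ^ r) *
      volume {x | 425 * 2 ^ k < ‖∑ i ∈ t, g i x‖} ≤
      ENNReal.ofReal (850 ^ r) * (C ^ (p / q) * (2 ^ (p / q - 1) * (W * ∑ i ∈ t, u i k))) := by
    intro k
    have hk0 : (0 : ℝ) < 2 ^ k := by positivity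
    have hex : ∀ i, ∃ h : T → X, i ∈ t → Continuous h ∧ D (J i) h = h ∧
        (∀ x, ‖h x‖ ≤ 212 * (ε i ^ s * 2 ^ k)) ∧
        ∫⁻ x, ‖g i x - h x‖ₑ ^ p ≤ W * Psi p (ε i ^ s * 2 ^ k) (g i) := by
      intro i
      by_cases hi : i ∈ t
      · obtain ⟨h, hh⟩ := ku_all hp (hJ.1 i hi) (hD i hi) (mul_pos (hc0 i hi) hk0)
        exact ⟨h, fun _ => hW ▸ hh⟩
      · exact ⟨0, fun h => absurd h hi⟩
    choose H hH using hex
    have hm : ∀ i ∈ t, Continuous fun x => g i x - H i x := fun i hi => (hg i hi).sub (hH i hi).1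
    rw [Real.mul_rpow (by norm_num) hk0.le, ENNReal.ofReal_mul (by positivity), mul_assoc,
      show (2 * 425 : ℝ) = 850 by norm_num]
    refine mul_le_mul_right ?_ _
    have hsub : {x | 425 * 2 ^ k < ‖∑ i ∈ t, g i x‖} ⊆ {x | 2 ^ k < ‖∑ i ∈ t, (g i x - H i x)‖} := by
      intro x hx
      simp only [mem_ofPred_eq] at hx ⊢
      have a1 := (norm_sum_le t fun i => H i x).trans (Finset.sum_le_sum fun i hi => (hH i hi).2.2.1 x)
      rw [← Finset.mul_sum, ← Finset.sum_mul] at a1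
      rw [Finset.sum_sub_distrib]
      nlinarith [norm_sub_norm_le (∑ i ∈ t, g i x) (∑ i ∈ t, H i x)]
    have e1 : ((2 : ℝ) ^ k) ^ r = (2 ^ k) ^ (r - p) * (2 ^ k) ^ p := by
      rw [← Real.rpow_add hk0]; congr 1; ring
    rw [e1, ENNReal.ofReal_mul (by positivity), mul_assoc]
    refine (mul_le_mul_right ((mul_le_mul_right (measure_mono hsub) _).trans
      (cheb volume (continuous_finset_sum _ hm) hk0 (by linarith))) _).trans ?_
    have a1 := ENNReal.rpow_le_rpow (h ι t J hJ (fun i x => g i x - H i x) fun i hi => by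
      ext x
      rw [D_sub _ (cont_integrable (hg i hi)) (cont_integrable (hH i hi).1), hD i hi,
        (hH i hi).2.1]) (z := p / q) (by linarith)
    rw [← ENNReal.rpow_mul, mul_div_cancel₀ _ hq.ne', nrm_rpow (by linarith),
      ENNReal.mul_rpow_of_nonneg _ _ (by linarith)] at a1
    have a2 : ∑ i ∈ t, nrm p (fun x => g i x - H i x) ^ q = ∑ i ∈ t, ENNReal.ofReal (ε i ^ s) *
        (ENNReal.ofReal (ε i ^ (-s)) * nrm p (fun x => g i x - H i x) ^ q) := by
      refine Finset.sum_congr rfl fun i hi => ?_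
      have := hε0 i hi
      rw [← mul_assoc, ← ENNReal.ofReal_mul (by positivity), ← Real.rpow_add this]
      simp
    rw [a2] at a1
    have a3 := a1.trans (mul_le_mul_right ((jensen_fin t _ _ hσ).trans
      (mul_le_mul_left (ENNReal.rpow_le_rpow hε (by linarith)) _)) _)
    refine (mul_le_mul_right a3 _).trans ?_
    rw [mul_left_comm, mul_left_comm (ENNReal.ofReal _)]
    refine mul_le_mul_right (mul_le_mul_right ?_ _) _
    rw [Finset.mul_sum, Finset.mul_sum]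
    refine Finset.sum_le_sum fun i hi => ?_
    have := hε0 i hi
    rw [ENNReal.mul_rpow_of_nonneg _ _ (by linarith), ← ENNReal.rpow_mul,
      mul_div_cancel₀ _ hq.ne', nrm_rpow (by linarith),
      ENNReal.ofReal_rpow_of_nonneg (by positivity) (by linarith)]
    refine (mul_le_mul_right (mul_le_mul_right (mul_le_mul_right (hH i hi).2.2.2 _) _) _).trans
      (le_of_eq ?_)
    simp only [hu]
    rw [mul_left_comm _ W, mul_left_comm _ W, mul_left_comm _ W, ← mul_assoc (ENNReal.ofReal _),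
      ← mul_assoc (_ * _), ← mul_assoc (ENNReal.ofReal (ε i ^ (s - r))),
      ← ENNReal.ofReal_mul (by positivity), ← ENNReal.ofReal_mul (by positivity),
      ← ENNReal.ofReal_mul (by positivity)]
    congr 3
    rw [Real.mul_rpow (by positivity) hk0.le, ← Real.rpow_mul this.le, ← Real.rpow_mul this.le,
      mul_assoc, ← Real.rpow_add this, ← mul_assoc, ← Real.rpow_add this, mul_comm]
    congr 2
    linear_combination -hs
  refine (layer (c := 425) (by linarith) (by norm_num) hsum).trans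
    ((ENNReal.tsum_le_tsum key).trans ?_)
  rw [ENNReal.tsum_mul_left, ENNReal.tsum_mul_left, ENNReal.tsum_mul_left, ENNReal.tsum_mul_left,
    mul_assoc, mul_assoc, mul_assoc, mul_assoc]
  refine mul_le_mul_right (mul_le_mul_right (mul_le_mul_right (mul_le_mul_right ?_ _) _) _) _
  rw [Summable.tsum_finsetSum fun _ _ => ENNReal.summable]
  have a5 : ∀ i ∈ t, ∑' k, u i k ≤ gc (r - p) * K ^ r * ENNReal.ofReal (ε i ^ s) := by
    intro i hi
    have := hε0 i hi
    simp only [hu]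
    rw [ENNReal.tsum_mul_left]
    refine (mul_le_mul_right (sum_Psi (by linarith) hpr (hc0 i hi) (hg i hi)) _).trans ?_
    rw [mul_left_comm, mul_assoc]
    refine mul_le_mul_right ?_ _
    refine (mul_le_mul_right ((nrm_rpow (by linarith) _).symm.le.trans
      (ENNReal.rpow_le_rpow (hn i hi) (by linarith))) _).trans (le_of_eq ?_)
    rw [ENNReal.mul_rpow_of_nonneg _ _ (by linarith), mul_left_comm,
      ENNReal.ofReal_rpow_of_nonneg this.le (by linarith), ← ENNReal.ofReal_mul (by positivity),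
      ← Real.rpow_add this, sub_add_cancel]
  refine (Finset.sum_le_sum a5).trans ?_
  rw [← Finset.mul_sum, mul_right_comm _ 2]
  exact mul_le_mul_right hε _

lemma up_hi {q p r s : ℝ} (h : Up X q p) (hp : 1 ≤ p) (hpr : p < r) (hq : 0 < q) (hqp : q ≤ p)
    (hs1 : 1 ≤ s) (hs : s * (p / q + r - p) = r) : Up X s r := by
  obtain ⟨C, hC, h⟩ := h
  have h2 := gc_ne_top (a := r - p) (by linarith)
  have hσ : 1 ≤ p / q := (one_le_div hq).mpr hqp
  have h3 : C ^ (p / q) ≠ ⊤ := ENNReal.rpow_ne_top_of_nonneg (by linarith) hC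
  have h4 : (2 : ℝ≥0∞) ^ (p / q - 1) ≠ ⊤ := ENNReal.rpow_ne_top_of_nonneg (by linarith) (by simp)
  have hs0 : 0 < s := by linarith
  have hr0 : 0 < r := by linarith
  set A := ENNReal.ofReal (850 ^ r) * (C ^ (p / q) * (2 ^ (p / q - 1) *
      (ENNReal.ofReal (213 ^ p) * (1 + 212) * (gc (r - p) * 2)))) with hA
  refine ⟨A ^ (s / r) * (1 + 1), ENNReal.mul_ne_top
    (ENNReal.rpow_ne_top_of_nonneg (by positivity) (by rw [hA]; finiteness)) (by simp),
    fun ι t J hJ g hD => ?_⟩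
  have hg : ∀ i ∈ t, Continuous (g i) := fun i hi => by rw [← hD i hi]; fun_prop
  set Y := (∑ i ∈ t, nrm r (g i) ^ s) ^ (1 / s) with hY
  have hYt : Y ≠ ⊤ := ENNReal.rpow_ne_top_of_nonneg (by positivity)
    (ENNReal.sum_ne_top.mpr fun i hi => ENNReal.rpow_ne_top_of_nonneg hs0.le (nrm_ne_top (hg i hi)))
  obtain ⟨ε, e1, e2⟩ := exists_eps t hs1 (β := fun i => nrm r (g i)) ENNReal.one_ne_top hYt (by
    rw [hY, rpow_root _ hs0, one_mul])
  have := hi_core hp hpr hq hqp hs h hJ hD (K := (1 + 1) ^ (1 / s) * Y)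
    (fun i hi => lt_of_lt_of_le (by positivity) (e2 i hi).1.1) e1
    (fun i hi => (e2 i hi).2.trans (le_of_eq (mul_right_comm _ _ _)))
  rw [← hA, ← nrm_rpow hr0] at this
  have h5 := ENNReal.rpow_le_rpow this (z := s / r) (by positivity)
  rwa [ENNReal.mul_rpow_of_nonneg _ (_ ^ r) (by positivity), ← ENNReal.rpow_mul,
    ← ENNReal.rpow_mul, mul_div_cancel₀ _ hr0.ne', ENNReal.mul_rpow_of_nonneg _ _ hs0.le, hY,
    rpow_root _ hs0, rpow_root _ hs0, ← mul_assoc] at h5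

lemma up_lo {q p r s : ℝ} (h : Up X q p) (hr : 1 < r) (hrp : r < p) (hq : 1 < q)
    (hqp : q ≤ p) (hs1 : 1 ≤ s) (hs : (1 - 1 / s) * (1 - 1 / p) = (1 - 1 / r) * (1 - 1 / q)) :
    Up X s r := by
  obtain ⟨C, hC, h⟩ := h
  have hs0 : 0 < s := by linarith
  obtain ⟨A, hA, key⟩ := up_core' hr hrp hq hqp hs1 hs hC
    (W := 212 + ENNReal.ofReal (424 ^ p) * (1 + 212)) (by finiteness) h
  refine ⟨A ^ s, ENNReal.rpow_ne_top_of_nonneg hs0.le hA, fun ι t J hJ g hD => ?_⟩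
  have h1 := ENNReal.rpow_le_rpow (key ι t J hJ g (fun i hi => by rw [← hD i hi]; fun_prop)
    fun i hi => kc_all (by linarith) (hJ.1 i hi) (hD i hi)) hs0.le
  rwa [ENNReal.mul_rpow_of_nonneg _ _ hs0.le, rpow_root _ hs0] at h1

end T98

end Pool.Agent.Lib.MP_b78339_an
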