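import Pool.Agent.Lib.MP_b78339_an.Cut

set_option autoImplicit false

open MeasureTheory Set
open scoped ENNReal NNReal ComplexConjugate

namespace Pool.Agent.Lib.MP_b78339_an

namespace T98

variable {X : Type*} [NormedAddCommGroup X] [NormedSpace ℂ X]

/-- Kernel of a trapezoid multiplier. -/
noncomputable def tk (l : ℕ) (u v : ℤ) (t : T) : ℂ :=
  (l : ℂ)⁻¹ * ∑ j ∈ Finset.Ico (0 : ℤ) l, dir (Finset.Ico (u + j) (v + j)) t

@[fun_prop]
lemma continuous_tk (l : ℕ) (u v : ℤ) : Continuous (tk l u v) := by unfold tk; fun_prop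

lemma tk_one {l : ℕ} (hl : 0 < l) {u v : ℤ} (h : v - u ≤ 5 * l) : ∫ t, ‖tk l u v t‖ ≤ 3 := by
  have hl' : (0 : ℝ) < l := by exact_mod_cast hl
  have h2 : ∀ t, ‖tk l u v t‖ ≤ (l : ℝ)⁻¹ *
      (‖dir (Finset.Ico (0 : ℤ) l) t‖ ^ 2 / 2 + ‖dir (Finset.Ico u v) t‖ ^ 2 / 2) := by
    intro t
    have : tk l u v t = (l : ℂ)⁻¹ * (dir (Finset.Ico (0 : ℤ) l) t * dir (Finset.Ico u v) t) := by
      simp only [tk, ← Finset.map_add_right_Ico, dir_shift]
      rw [← Finset.sum_mul]; rfl
    rw [this, norm_mul, norm_mul, norm_inv, Complex.norm_natCast]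
    refine mul_le_mul_of_nonneg_left ?_ (by positivity)
    nlinarith [sq_nonneg (‖dir (Finset.Ico (0 : ℤ) l) t‖ - ‖dir (Finset.Ico u v) t‖)]
  refine (integral_mono (cont_integrable (continuous_tk l u v).norm)
    (cont_integrable (by fun_prop)) h2).trans ?_
  rw [integral_const_mul, integral_add (cont_integrable (by fun_prop))
    (cont_integrable (by fun_prop)), integral_div, integral_div, integral_dir_sq, integral_dir_sq,
    inv_mul_le_iff₀ hl']
  have a1 : (Finset.Ico (0 : ℤ) l).card = l := by rw [Int.card_Ico]; omega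
  have a2 : (Finset.Ico u v).card ≤ 5 * l := by rw [Int.card_Ico]; omega
  have a3 : ((Finset.Ico u v).card : ℝ) ≤ 5 * l := by exact_mod_cast a2
  rw [a1]
  linarith

lemma conv_l1 {k : T → ℂ} (hk : Continuous k) (h3 : ∫ t, ‖k t‖ ≤ 3) {f : T → X}
    (hf : Continuous f) : ∫ t, ‖conv k f t‖ ≤ 3 * ∫ t, ‖f t‖ := by
  have h1 := young le_rfl hk hf.aestronglyMeasurable
  simp only [nrm_eq one_pos, ENNReal.rpow_one, div_one] at h1
  have h0 : 0 ≤ ∫ t, ‖f t‖ := integral_nonneg fun t => norm_nonneg _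
  rw [lintegral_enorm_cont (continuous_conv hk (cont_integrable hf)), lintegral_enorm_cont hk,
    lintegral_enorm_cont hf, ← ENNReal.ofReal_mul (integral_nonneg fun t => norm_nonneg _),
    ENNReal.ofReal_le_ofReal_iff (mul_nonneg (integral_nonneg fun t => norm_nonneg _) h0)] at h1
  exact h1.trans (mul_le_mul_of_nonneg_right h3 h0)

lemma conv_sup {k : T → ℂ} (hk : Continuous k) (h3 : ∫ t, ‖k t‖ ≤ 3) {f : T → X} {μ : ℝ}
    (hf : ∀ t, ‖f t‖ ≤ μ) (x : T) : ‖conv k f x‖ ≤ 3 * μ := by
  have h0 : 0 ≤ μ := (norm_nonneg _).trans (hf x)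
  refine (norm_integral_le_of_norm_le (g := fun y => ‖k (x - y)‖ * μ)
    (cont_integrable (by fun_prop)) (ae_of_all _ fun y => ?_)).trans ?_
  · rw [norm_smul]
    exact mul_le_mul_of_nonneg_left (hf y) (norm_nonneg _)
  · rw [integral_mul_const, integral_sub_left_eq_self (fun t => ‖k t‖) volume x]
    exact mul_le_mul_of_nonneg_right h3 h0

lemma conv_tk (l : ℕ) (u v : ℤ) {f : T → X} (hf : Continuous f) : conv (tk l u v) f =
    fun x => (l : ℂ)⁻¹ • ∑ j ∈ Finset.Ico (0 : ℤ) l, D (Finset.Ico (u + j) (v + j)) f x := by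
  ext x
  exact conv_avg _ _ (fun j => Finset.Ico (u + j) (v + j)) (cont_integrable hf) x

lemma avg_const {l : ℕ} (hl : 0 < l) (y : X) :
    (l : ℂ)⁻¹ • ∑ _j ∈ Finset.Ico (0 : ℤ) l, y = y := by
  have a1 : (Finset.Ico (0 : ℤ) l).card = l := by rw [Int.card_Ico]; omega
  rw [Finset.sum_const, a1, ← Nat.cast_smul_eq_nsmul ℂ, smul_smul,
    inv_mul_cancel₀ (by exact_mod_cast hl.ne'), one_smul]

lemma fc_eval_smul (σ : ℤ) (P : Polynomial ℂ) {f : T → X} (hf : Continuous f) {n : ℤ}
    (h : ∀ k : ℕ, fc f (n - σ * k) = 0) : fc (fun t => P.eval (e σ t) • f t) n = 0 := by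
  induction P using Polynomial.induction_on' with
  | add p q hp hq =>
    simp only [Polynomial.eval_add, add_smul]
    rw [fc_add (f := fun t => p.eval (e σ t) • f t) (g := fun t => q.eval (e σ t) • f t)
      (cont_integrable ((cont_eval σ p).smul hf))
      (cont_integrable ((cont_eval σ q).smul hf)), hp, hq, add_zero]
  | monomial k a =>
    simp only [Polynomial.eval_monomial, e_pow, mul_smul]
    rw [fc_smul, fc_mod, h, smul_zero]

variable [CompleteSpace X]

lemma fc_eq_zero {J : Finset ℤ} {f : T → X} (h : D J f = f) {n : ℤ} (hn : n ∉ J) : fc f n = 0 := by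
  rw [← h, fc_D, if_neg hn]

lemma D_eq_of {J S : Finset ℤ} {f : T → X} (h : D J f = f) (hS : ∀ n, n ∉ S → fc f n = 0) :
    D S f = f := by
  conv_rhs => rw [← h]
  refine poly_congr fun n => ?_
  split_ifs with h1 h2 h2
  · rfl
  · exact fc_eq_zero h h2
  · exact (hS n h1).symm
  · rfl

lemma D_conv_tk {l : ℕ} {u v : ℤ} {S : Finset ℤ} {f : T → X} (hf : Continuous f)
    (h : ∀ j ∈ Finset.Ico (0 : ℤ) l, ∀ n ∈ Finset.Ico (u + j) (v + j), n ∉ S → fc f n = 0) :
    D S (conv (tk l u v) f) = conv (tk l u v) f := by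
  rw [conv_tk l u v hf]
  ext x
  rw [D_smul, D_sum _ _ (f := fun j => D (Finset.Ico (u + j) (v + j)) f)
    fun j _ => cont_integrable (by fun_prop)]
  congr 1
  refine Finset.sum_congr rfl fun j hj => congrFun (D_eq_of (J := Finset.Ico (u + j) (v + j))
    (by rw [D_D, Finset.inter_self]) fun n hn => ?_) x
  rw [fc_D]
  split_ifs with h1
  · exact h j hj n h1 hn
  · rfl

lemma conv_tk_eq {l : ℕ} (hl : 0 < l) {u v : ℤ} {S : Finset ℤ} {f : T → X} (hS : D S f = f)
    (h : ∀ j ∈ Finset.Ico (0 : ℤ) l, S ⊆ Finset.Ico (u + j) (v + j)) : conv (tk l u v) f = f := by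
  have hf : Continuous f := by rw [← hS]; fun_prop
  rw [conv_tk l u v hf]
  ext x
  rw [Finset.sum_congr rfl fun j hj =>
    congrFun (D_eq_of hS fun n hn => fc_eq_zero hS fun h1 => hn (h j hj h1)) x, avg_const hl]

lemma one_side {σ : ℤ} (hσ : σ = 1 ∨ σ = -1) {l : ℕ} (hl : 0 < l) {u v : ℤ} (huv : v - u ≤ 5 * l)
    {S J : Finset ℤ} {a b : T → X} (ha : Continuous a) (hb : Continuous b)
    (hS : D S (fun t => a t + b t) = fun t => a t + b t)
    (h1 : ∀ j ∈ Finset.Ico (0 : ℤ) l, S ⊆ Finset.Ico (u + j) (v + j))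
    (h2 : ∀ j ∈ Finset.Ico (0 : ℤ) l, ∀ n ∈ Finset.Ico (u + j) (v + j), n ∉ J →
      ∀ k : ℕ, n - σ * k ∉ S) {μ δ : ℝ} (hμ : 0 < μ) (hδ : 0 < δ) (hbμ : ∀ t, ‖b t‖ ≤ μ) :
    ∃ h : T → X, D J h = h ∧ (∀ t, ‖h t‖ ≤ 24 * μ) ∧
      ∫ t, ‖a t + b t - h t‖ ≤ 30 * (∫ t, ‖a t‖) + δ := by
  obtain ⟨P, hP, hI⟩ := cut hσ (β := fun t => ‖a t‖ / μ) (by fun_prop) (fun t => by positivity)
    (δ := δ / (3 * μ)) (by positivity)
  have hPc := cont_eval σ P
  have hf : Continuous fun t => a t + b t := ha.add hb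
  have hw : Continuous fun t => P.eval (e σ t) • (a t + b t) := hPc.smul hf
  have hk := continuous_tk l u v
  have hk3 := tk_one hl huv
  refine ⟨conv (tk l u v) fun t => P.eval (e σ t) • (a t + b t), D_conv_tk hw fun j hj n hn hJ =>
    fc_eval_smul σ P hf fun k => fc_eq_zero hS (h2 j hj n hn hJ k), fun t => ?_, ?_⟩
  · refine (conv_sup hk hk3 (μ := 8 * μ) (fun y => ?_) t).trans (by linarith)
    rw [norm_smul]
    have b1 : ‖a y + b y‖ ≤ (1 + ‖a y‖ / μ) * μ := by
      rw [add_mul, div_mul_cancel₀ _ hμ.ne']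
      linarith [norm_add_le (a y) (b y), hbμ y]
    refine (mul_le_mul_of_nonneg_left b1 (norm_nonneg _)).trans ?_
    rw [← mul_assoc]
    exact mul_le_mul_of_nonneg_right (hP y).1 hμ.le
  · have e1 : ∀ t, a t + b t - conv (tk l u v) (fun t => P.eval (e σ t) • (a t + b t)) t =
        conv (tk l u v) (fun t => (a t + b t) - P.eval (e σ t) • (a t + b t)) t := fun t => by
      rw [conv_sub hk (cont_integrable hf) (cont_integrable hw), conv_tk_eq hl hS h1]
    simp only [e1]
    refine (conv_l1 hk hk3 (hf.sub hw)).trans ?_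
    have b1 : ∀ t, ‖(a t + b t) - P.eval (e σ t) • (a t + b t)‖ ≤
        9 * ‖a t‖ + μ * ‖1 - P.eval (e σ t)‖ := fun t => by
      have : (a t + b t) - P.eval (e σ t) • (a t + b t) =
          (1 - P.eval (e σ t)) • a t + (1 - P.eval (e σ t)) • b t := by
        rw [← smul_add, sub_smul, one_smul]
      rw [this]
      refine (norm_add_le _ _).trans ?_
      rw [norm_smul, norm_smul, mul_comm μ]
      exact add_le_add (mul_le_mul_of_nonneg_right (hP t).2 (norm_nonneg _))
        (mul_le_mul_of_nonneg_left (hbμ t) (norm_nonneg _))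
    have b2 := integral_mono (cont_integrable (hf.sub hw).norm) (cont_integrable (by fun_prop)) b1
    rw [integral_add (cont_integrable (by fun_prop)) (cont_integrable (by fun_prop)),
      integral_const_mul, integral_const_mul] at b2
    rw [integral_div] at hI
    have b3 := mul_le_mul_of_nonneg_left hI hμ.le
    have b4 : μ * ((∫ t, ‖a t‖) / μ + δ / (3 * μ)) = (∫ t, ‖a t‖) + δ / 3 := by field_simp
    rw [b4] at b3
    have b5 : ∫ t, ‖(a t + b t) - P.eval (e σ t) • (a t + b t)‖ ≤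
        9 * (∫ t, ‖a t‖) + μ * ∫ t, ‖1 - P.eval (e σ t)‖ := b2
    linarith

omit [CompleteSpace X] in
lemma norm_tr_le {lam : ℝ} (hlam : 0 < lam) (f : T → X) (x : T) : ‖tr lam f x‖ ≤ lam := by
  have h0 : 0 < max lam ‖f x‖ := hlam.trans_le (le_max_left _ _)
  rw [tr, norm_smul, Complex.norm_real, Real.norm_eq_abs, abs_of_nonneg (by positivity),
    div_mul_eq_mul_div, div_le_iff₀ h0]
  exact mul_le_mul_of_nonneg_left (le_max_right _ _) hlam.le

omit [CompleteSpace X] in
lemma norm_sub_tr {lam : ℝ} (hlam : 0 < lam) (f : T → X) (x : T) :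
    ‖f x - tr lam f x‖ ≤ if lam < ‖f x‖ then ‖f x‖ else 0 := by
  split_ifs with h
  · have h0 : 0 < ‖f x‖ := hlam.trans h
    have : f x - tr lam f x = ((1 - lam / ‖f x‖ : ℝ) : ℂ) • f x := by
      rw [tr, max_eq_right h.le]; push_cast; rw [sub_smul, one_smul]
    have h1 : lam / ‖f x‖ ≤ 1 := (div_le_one h0).mpr h.le
    have h2 : 0 ≤ lam / ‖f x‖ := by positivity
    rw [this, norm_smul, Complex.norm_real, Real.norm_eq_abs, abs_of_nonneg (by linarith)]
    nlinarith
  · rw [tr, max_eq_left (not_lt.mp h), div_self hlam.ne']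
    simp

/-- Truncation in height that keeps the spectrum in an interval, in any Banach space. -/
lemma kinf {J : Finset ℤ} (hJ : IsInt J) {g : T → X} (hg : D J g = g) {lam : ℝ} (hlam : 0 < lam) :
    ∃ h : T → X, D J h = h ∧ (∀ t, ‖h t‖ ≤ 212 * lam) ∧
      ∫ t, ‖g t - h t‖ ≤ 212 * ∫ t, ‖g t - tr lam g t‖ := by
  have hgc : Continuous g := by rw [← hg]; fun_prop
  have h1c := continuous_tr hlam hgc
  have h0c : Continuous fun t => g t - tr lam g t := hgc.sub h1c
  have hδ0 : 0 ≤ ∫ t, ‖g t - tr lam g t‖ := integral_nonneg fun t => norm_nonneg _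
  rcases hδ0.eq_or_lt with hδ | hδ
  · have h2 := (integral_eq_zero_iff_of_nonneg (fun t => norm_nonneg _)
      (cont_integrable h0c.norm)).mp hδ.symm
    have h3 := (Continuous.ae_eq_iff_eq volume h0c.norm continuous_const).mp h2
    refine ⟨g, hg, fun t => ?_, by simpa using hδ0⟩
    rw [sub_eq_zero.mp (norm_eq_zero.mp (congrFun h3 t))]
    linarith [norm_tr_le hlam g t]
  obtain ⟨a, m, rfl⟩ := hJ.exists_nat
  have hm : 0 < m := by
    by_contra h
    have : m = 0 := by omega
    subst this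
    rw [Nat.cast_zero, add_zero, Finset.Ico_self, D_empty] at hg
    subst hg
    simp [tr] at hδ
  set l := (m + 2) / 3 with hl
  have hl0 : 0 < l := by omega
  set K := tk l (a - l) (a + l) with hK
  have hKc : Continuous K := continuous_tk _ _ _
  have hK3 : ∫ t, ‖K t‖ ≤ 3 := tk_one hl0 (by omega)
  have c0 := continuous_conv hKc (cont_integrable h0c)
  have c1 := continuous_conv hKc (cont_integrable h1c)
  have e1 : (fun t => conv K (fun t => g t - tr lam g t) t + conv K (tr lam g) t) = conv K g := by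
    ext t
    rw [conv_sub hKc (cont_integrable hgc) (cont_integrable h1c), sub_add_cancel]
  have e2 : (fun t => (g t - tr lam g t - conv K (fun t => g t - tr lam g t) t) +
      (tr lam g t - conv K (tr lam g) t)) = fun t => g t - conv K g t := by
    ext t
    rw [← congrFun e1 t]
    abel
  have cg := continuous_conv hKc (cont_integrable hgc)
  have s1 : D (Finset.Ico a (a + 2 * l - 1)) (conv K g) = conv K g :=
    D_conv_tk hgc fun j hj n hn hS => fc_eq_zero hg (by
      simp only [Finset.mem_Ico] at hj hn hS ⊢; omega)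
  have s2 : D (Finset.Ico (a + l) (a + m)) (fun t => g t - conv K g t) =
      fun t => g t - conv K g t := by
    have s3 : D (Finset.Ico a (a + m)) (conv K g) = conv K g :=
      D_conv_tk hgc fun j hj n hn hS => fc_eq_zero hg hS
    refine D_eq_of (J := Finset.Ico a (a + m)) ?_ fun n hn => ?_
    · ext t
      rw [D_sub _ (cont_integrable hgc) (cont_integrable cg), hg, s3]
    · rw [fc_sub (cont_integrable hgc) (cont_integrable cg), sub_eq_zero]
      by_cases hJ : n ∈ Finset.Ico a (a + m)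
      · rw [hK, conv_tk _ _ _ hgc, fc_smul, fc_sum _ (f := fun j => D _ g)
          fun j _ => cont_integrable (by fun_prop)]
        simp only [fc_D]
        rw [Finset.sum_congr rfl fun j hj => if_pos (by
          simp only [Finset.mem_Ico] at hj hn hJ ⊢; omega), avg_const hl0]
      · rw [fc_eq_zero hg hJ, fc_eq_zero s3 hJ]
  have n1 : ∀ t, ‖conv K (tr lam g) t‖ ≤ 3 * lam := conv_sup hKc hK3 (norm_tr_le hlam g)
  have n0 := conv_l1 hKc hK3 h0c
  obtain ⟨h, p1, p2, p3⟩ := one_side (Or.inl rfl) hl0 (u := a - l) (v := a + m - l + 1) (by omega)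
    (S := Finset.Ico a (a + 2 * l - 1)) (J := Finset.Ico a (a + m)) c0 c1 (by rw [e1, s1])
    (fun j hj n hn => by simp only [Finset.mem_Ico] at hj hn ⊢; omega)
    (fun j hj n hn hJ k => by simp only [Finset.mem_Ico] at hj hn hJ ⊢; omega)
    (μ := 4 * lam) (by positivity) hδ fun t => by linarith [n1 t]
  obtain ⟨h', q1, q2, q3⟩ := one_side (Or.inr rfl) hl0 (u := a) (v := a + m) (by omega)
    (S := Finset.Ico (a + l) (a + m)) (J := Finset.Ico a (a + m)) (h0c.sub c0) (h1c.sub c1)
    (by simp only [Pi.sub_apply]; rw [e2, s2])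
    (fun j hj n hn => by simp only [Finset.mem_Ico] at hj hn ⊢; omega)
    (fun j hj n hn hJ k => by simp only [Finset.mem_Ico] at hj hn hJ ⊢; omega)
    (μ := 4 * lam) (by positivity) hδ fun t => by
      simp only [Pi.sub_apply]
      linarith [n1 t, norm_tr_le hlam g t, norm_sub_le (tr lam g t) (conv K (tr lam g) t)]
  have hc : Continuous h := by rw [← p1]; fun_prop
  have hc' : Continuous h' := by rw [← q1]; fun_prop
  refine ⟨fun t => h t + h' t, ?_, fun t => ?_, ?_⟩
  · ext t
    rw [D_add _ (cont_integrable hc) (cont_integrable hc'), p1, q1]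
  · linarith [norm_add_le (h t) (h' t), p2 t, q2 t]
  · simp only [Pi.sub_apply] at q3
    simp only [congrFun e1] at p3
    simp only [congrFun e2] at q3
    have r1 : ∫ t, ‖g t - (h t + h' t)‖ ≤
        (∫ t, ‖conv K g t - h t‖) + ∫ t, ‖g t - conv K g t - h' t‖ := by
      rw [← integral_add (cont_integrable (by fun_prop)) (cont_integrable (by fun_prop))]
      refine integral_mono (cont_integrable (by fun_prop)) (cont_integrable (by fun_prop))
        fun t => le_trans (le_of_eq ?_) (norm_add_le _ _)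
      congr 1
      abel
    have r2 : ∫ t, ‖g t - tr lam g t - conv K (fun t => g t - tr lam g t) t‖ ≤
        (∫ t, ‖g t - tr lam g t‖) + ∫ t, ‖conv K (fun t => g t - tr lam g t) t‖ := by
      rw [← integral_add (cont_integrable (by fun_prop)) (cont_integrable (by fun_prop))]
      exact integral_mono (cont_integrable (by fun_prop)) (cont_integrable (by fun_prop))
        fun t => norm_sub_le _ _
    linarith

end T98

end Pool.Agent.Lib.MP_b78339_an
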