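import Pool.Agent.Lib.MP_b78339_an.Young

set_option autoImplicit false

open MeasureTheory
open scoped ENNReal NNReal ComplexConjugate

namespace Pool.Agent.Lib.MP_b78339_an

lemma exists_rep (t : T) : ∃ x : ℝ, (x : T) = t ∧ |x| = ‖t‖ ∧ |x| ≤ 1 / 2 := by
  induction t using QuotientAddGroup.induction_on with
  | H y =>
    refine ⟨y - round y, ?_, UnitAddCircle.norm_eq.symm, abs_sub_round y⟩
    rw [AddCircle.coe_sub]
    have : ((round y : ℝ) : T) = 0 := by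
      rw [AddCircle.coe_eq_zero_iff]; exact ⟨round y, by simp⟩
    rw [this, sub_zero]

lemma norm_e_one_sub (t : T) : 4 * ‖t‖ ≤ ‖1 - e 1 t‖ ∧ ‖1 - e 1 t‖ ≤ 7 * ‖t‖ := by
  obtain ⟨x, rfl, h1, h2⟩ := exists_rep t
  rw [← h1, norm_sub_rev]
  have h3 : e 1 (x : T) = Complex.exp (Complex.I * ((2 * Real.pi * x : ℝ) : ℂ)) := by
    rw [e, fourier_coe_apply]; congr 1; push_cast; ring
  rw [h3]
  constructor
  · rw [Complex.norm_exp_I_mul_ofReal_sub_one, Real.norm_eq_abs, abs_mul, abs_two]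
    have h4 : 2 * Real.pi * x / 2 = Real.pi * x := by ring
    rw [h4]
    have h5 : |Real.pi * x| ≤ Real.pi / 2 := by
      rw [abs_mul, abs_of_pos Real.pi_pos]; nlinarith [Real.pi_pos]
    have h6 := Real.mul_abs_le_abs_sin h5
    rw [abs_mul, abs_of_pos Real.pi_pos] at h6
    have h7 : 2 / Real.pi * (Real.pi * |x|) = 2 * |x| := by field_simp
    linarith
  · refine Real.norm_exp_I_mul_ofReal_sub_one_le.trans ?_
    rw [Real.norm_eq_abs, abs_mul, abs_mul, abs_two, abs_of_pos Real.pi_pos]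
    nlinarith [Real.pi_lt_d2, abs_nonneg x]

lemma norm_e_sub (s t : T) : ‖e 1 s - e 1 t‖ ≤ 7 * ‖s - t‖ := by
  have h : e 1 s - e 1 t = -(e 1 t * (1 - e 1 (s - t))) := by
    rw [e_sub_pt]
    have := e_mul_neg 1 t
    linear_combination (-e 1 s) * this
  rw [h, norm_neg, norm_mul, norm_e, one_mul]
  exact (norm_e_one_sub _).2

lemma norm_pow_sub_le {z w : ℂ} (hz : ‖z‖ ≤ 1) (hw : ‖w‖ ≤ 1) (n : ℕ) :
    ‖z ^ n - w ^ n‖ ≤ n * ‖z - w‖ := by
  induction n with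
  | zero => simp
  | succ n ih =>
    have h : z ^ (n + 1) - w ^ (n + 1) = z * (z ^ n - w ^ n) + (z - w) * w ^ n := by ring
    rw [h]
    refine (norm_add_le _ _).trans ?_
    rw [norm_mul, norm_mul, norm_pow]
    have h1 : ‖w‖ ^ n ≤ 1 := pow_le_one₀ (norm_nonneg _) hw
    push_cast
    nlinarith [norm_nonneg (z ^ n - w ^ n), norm_nonneg (z - w), norm_nonneg z]

/-- A continuous kernel with a Hoermander type bound. -/
def Horm (k : T → ℂ) : Prop :=
  Continuous k ∧ ∀ s t, ‖k s - k t‖ * (‖s‖ * ‖t‖) ≤ 3 * ‖s - t‖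

lemma Horm.neg {k : T → ℂ} (h : Horm k) : Horm (fun t => k (-t)) := by
  refine ⟨h.1.comp continuous_neg, fun s t => ?_⟩
  have := h.2 (-s) (-t)
  rwa [norm_neg, norm_neg, neg_sub_neg, norm_sub_rev t s] at this

noncomputable def ker (u v : ℕ) (t : T) : ℂ :=
  ((v : ℂ) - u)⁻¹ * ∑ j ∈ Finset.Ico u v, dir (Finset.Ico 0 (j : ℤ)) t

lemma dir_Ico_zero (j : ℕ) (t : T) :
    dir (Finset.Ico 0 (j : ℤ)) t = ∑ n ∈ Finset.range j, e 1 t ^ n := by
  induction j with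
  | zero => simp [dir]
  | succ j ih =>
    rw [Finset.sum_range_succ, ← ih, ← e_nat, Nat.cast_succ,
      ← Finset.insert_Ico_right_eq_Ico_add_one (by positivity), dir, dir,
      Finset.sum_insert (by simp), add_comm]

lemma horm_ker {u v : ℕ} (huv : u < v) (h2 : 2 * u ≤ v) : Horm (ker u v) := by
  refine ⟨by unfold ker; fun_prop, fun s t => ?_⟩
  set c : ℂ := ((v : ℂ) - u)⁻¹ with hc
  have hvu : (0 : ℝ) < (v : ℝ) - u := by rw [sub_pos]; exact_mod_cast huv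
  have hcn : ‖c‖ = ((v : ℝ) - u)⁻¹ := by
    rw [hc, norm_inv]; congr 1
    rw [show ((v : ℂ) - u) = (((v : ℝ) - u : ℝ) : ℂ) by push_cast; rfl, Complex.norm_real,
      Real.norm_eq_abs, abs_of_pos hvu]
  have hc1 : c * ((v : ℂ) - u) = 1 := by
    refine inv_mul_cancel₀ ?_
    rw [sub_ne_zero]; exact_mod_cast huv.ne'
  set σ : ℂ → ℂ := fun z => c * ∑ j ∈ Finset.Ico u v, z ^ j with hσ
  have hk : ∀ x : T, ker u v x * (1 - e 1 x) = 1 - σ (e 1 x) := by
    intro x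
    simp only [ker, dir_Ico_zero, hσ]
    rw [← hc, mul_assoc, Finset.sum_mul]
    simp only [geom_sum_mul_neg]
    rw [Finset.sum_sub_distrib, mul_sub]
    congr 1
    rw [Finset.sum_const, Nat.card_Ico, nsmul_eq_mul, mul_one, Nat.cast_sub huv.le, hc1]
  have hs1 : ∀ z : ℂ, (1 - z) * σ z = c * (z ^ u - z ^ v) := by
    intro z
    simp only [hσ]
    rw [← geom_sum_Ico_mul_neg z huv.le]; ring
  have hs2 : ∀ z : ℂ, ‖z‖ = 1 → ‖σ z‖ ≤ 1 := by
    intro z hz
    simp only [hσ]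
    rw [norm_mul, hcn]
    have : ‖∑ j ∈ Finset.Ico u v, z ^ j‖ ≤ (v : ℝ) - u := by
      refine (norm_sum_le _ _).trans ?_
      simp only [norm_pow, hz, one_pow, Finset.sum_const, Nat.card_Ico, nsmul_eq_mul, mul_one]
      rw [Nat.cast_sub huv.le]
    rw [inv_mul_le_iff₀ hvu]; linarith
  set z := e 1 s with hz
  set w := e 1 t with hw
  have hzn : ‖z‖ = 1 := norm_e _ _
  have hwn : ‖w‖ = 1 := norm_e _ _
  have hid : (ker u v s - ker u v t) * ((1 - z) * (1 - w)) =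
      (1 - σ z) * (z - w) + c * ((z ^ v - w ^ v) - (z ^ u - w ^ u)) + (w - z) * σ w := by
    have h1 := hk s
    have h2 := hk t
    have h3 := hs1 z
    have h4 := hs1 w
    rw [← hz] at h1
    rw [← hw] at h2
    linear_combination (1 - w) * h1 - (1 - z) * h2 + h4 - h3
  have hN : ‖ker u v s - ker u v t‖ * (‖1 - z‖ * ‖1 - w‖) ≤ 6 * ‖z - w‖ := by
    rw [← norm_mul, ← norm_mul, hid]
    have a1 : ‖(1 - σ z) * (z - w)‖ ≤ 2 * ‖z - w‖ := by
      rw [norm_mul]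
      refine mul_le_mul_of_nonneg_right ((norm_sub_le _ _).trans ?_) (norm_nonneg _)
      rw [norm_one]; linarith [hs2 z hzn]
    have a2 : ‖c * ((z ^ v - w ^ v) - (z ^ u - w ^ u))‖ ≤ 3 * ‖z - w‖ := by
      rw [norm_mul, hcn, inv_mul_le_iff₀ hvu]
      refine (norm_sub_le _ _).trans ?_
      have b1 := norm_pow_sub_le hzn.le hwn.le v
      have b2 := norm_pow_sub_le hzn.le hwn.le u
      have b3 : (2 : ℝ) * u ≤ v := by exact_mod_cast h2
      nlinarith [norm_nonneg (z - w)]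
    have a3 : ‖(w - z) * σ w‖ ≤ ‖z - w‖ := by
      rw [norm_mul, norm_sub_rev]
      exact mul_le_of_le_one_right (norm_nonneg _) (hs2 w hwn)
    linarith [norm_add₃_le (a := (1 - σ z) * (z - w))
      (b := c * ((z ^ v - w ^ v) - (z ^ u - w ^ u))) (c := (w - z) * σ w)]
  have b1 := (norm_e_one_sub s).1
  have b2 := (norm_e_one_sub t).1
  have b3 := norm_e_sub s t
  rw [← hz] at b1 b3
  rw [← hw] at b2 b3
  have b4 : (4 * ‖s‖) * (4 * ‖t‖) ≤ ‖1 - z‖ * ‖1 - w‖ :=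
    mul_le_mul b1 b2 (by positivity) (norm_nonneg _)
  have b5 := mul_le_mul_of_nonneg_left b4 (norm_nonneg (ker u v s - ker u v t))
  nlinarith [norm_nonneg (s - t)]

/-- A modulated Hoermander kernel. -/
def CZK (K : T → ℂ) : Prop := ∃ (c : ℤ) (k : T → ℂ), Horm k ∧ K = fun t => e c t * k t

lemma CZK.continuous {K : T → ℂ} (h : CZK K) : Continuous K := by
  obtain ⟨c, k, hk, rfl⟩ := h
  exact (continuous_e c).mul hk.1

noncomputable def kerL (a : ℤ) (u v : ℕ) (t : T) : ℂ :=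
  ((v : ℂ) - u)⁻¹ * ∑ j ∈ Finset.Ico u v, dir (Finset.Ico a (a + j)) t

noncomputable def kerR (b : ℤ) (u v : ℕ) (t : T) : ℂ :=
  ((v : ℂ) - u)⁻¹ * ∑ j ∈ Finset.Ico u v, dir (Finset.Ico (b - j) b) t

lemma czk_kerL (a : ℤ) {u v : ℕ} (huv : u < v) (h2 : 2 * u ≤ v) : CZK (kerL a u v) := by
  refine ⟨a, ker u v, horm_ker huv h2, ?_⟩
  ext t
  simp only [kerL, ker]
  rw [mul_left_comm, Finset.mul_sum (a := e a t)]
  congr 1
  refine Finset.sum_congr rfl fun j _ => ?_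
  rw [← dir_shift, Finset.map_add_right_Ico, zero_add, add_comm]

lemma czk_kerR (b : ℤ) {u v : ℕ} (huv : u < v) (h2 : 2 * u ≤ v) : CZK (kerR b u v) := by
  refine ⟨b - 1, fun t => ker u v (-t), (horm_ker huv h2).neg, ?_⟩
  ext t
  simp only [kerR, ker]
  rw [mul_left_comm, Finset.mul_sum (a := e (b - 1) t)]
  congr 1
  refine Finset.sum_congr rfl fun j _ => ?_
  simp only [dir, Finset.mul_sum, e_neg_pt, ← e_add]
  refine Finset.sum_bij' (fun n _ => b - 1 - n) (fun n _ => b - 1 - n) ?_ ?_ ?_ ?_ ?_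
  · intro n hn; simp only [Finset.mem_Ico] at hn ⊢; omega
  · intro n hn; simp only [Finset.mem_Ico] at hn ⊢; omega
  · intro n _; ring
  · intro n _; ring
  · intro n _; congr 1; ring

end Pool.Agent.Lib.MP_b78339_an
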