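import Pool.Agent.Lib.MP_b78339_an.Dyadic

set_option autoImplicit false

open MeasureTheory Set
open scoped ENNReal NNReal ComplexConjugate

namespace Pool.Agent.Lib.MP_b78339_an

variable {X : Type*} [NormedAddCommGroup X] [NormedSpace ℂ X]

/-- Radial truncation at height `lam`. -/
noncomputable def tr (lam : ℝ) (f : T → X) (x : T) : X :=
  ((lam / max lam ‖f x‖ : ℝ) : ℂ) • f x

lemma continuous_tr {lam : ℝ} (hlam : 0 < lam) {f : T → X} (hf : Continuous f) :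
    Continuous (tr lam f) := by
  unfold tr
  refine Continuous.smul (Complex.continuous_ofReal.comp (continuous_const.div
    (continuous_const.max hf.norm) fun x => ?_)) hf
  exact (hlam.trans_le (le_max_left _ _)).ne'

lemma tr_hi (p : ℝ) {lam : ℝ} (hlam : 0 < lam) (f : T → X) :
    ∫⁻ x, ‖f x - tr lam f x‖ₑ ≤ Phi p lam f := by
  refine lintegral_mono fun x => ?_
  rw [← ofReal_norm_eq_enorm]
  refine ENNReal.ofReal_le_ofReal ?_
  by_cases h : lam < ‖f x‖
  · have h0 : 0 < ‖f x‖ := hlam.trans h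
    have : f x - tr lam f x = ((1 - lam / ‖f x‖ : ℝ) : ℂ) • f x := by
      rw [tr, max_eq_right h.le]; push_cast; rw [sub_smul, one_smul]
    have h1 : lam / ‖f x‖ ≤ 1 := (div_le_one h0).mpr h.le
    have h2 : 0 ≤ lam / ‖f x‖ := by positivity
    rw [this, ph, if_pos h, norm_smul, Complex.norm_real, Real.norm_eq_abs,
      abs_of_nonneg (by linarith)]
    nlinarith
  · rw [tr, max_eq_left (not_lt.mp h), div_self hlam.ne']
    simpa using ph_nonneg p hlam (norm_nonneg (f x))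

lemma tr_lo {p lam : ℝ} (hp : 1 ≤ p) (hlam : 0 < lam) {f : T → X} (hf : Continuous f) :
    ∫⁻ x, ‖tr lam f x‖ₑ ^ p ≤ ENNReal.ofReal (lam ^ (p - 1)) * Phi p lam f := by
  rw [Phi, ← lintegral_const_mul _ (measurable_ph p lam hf)]
  refine lintegral_mono fun x => ?_
  rw [enorm_rpow_eq _ (by linarith), ← ENNReal.ofReal_mul (by positivity)]
  refine ENNReal.ofReal_le_ofReal ?_
  by_cases h : lam < ‖f x‖
  · have h0 : 0 < ‖f x‖ := hlam.trans h
    rw [tr, max_eq_right h.le, norm_smul, Complex.norm_real, Real.norm_eq_abs,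
      abs_of_nonneg (by positivity), div_mul_cancel₀ _ h0.ne', ph, if_pos h]
    have h4 : lam ^ p = lam ^ (p - 1) * lam := by
      rw [← Real.rpow_add_one hlam.ne']; simp
    rw [h4]
    exact mul_le_mul_of_nonneg_left h.le (by positivity)
  · rw [tr, max_eq_left (not_lt.mp h), div_self hlam.ne', ph, if_neg h, ← mul_assoc,
      ← Real.rpow_add hlam]
    simp

lemma exists_cross {μ : ℤ → ℝ} {a b : ℝ} (ha : 0 < a) (hb : 0 < b)
    (h : ∀ j, a * 2 ^ j ≤ μ j ∧ μ j ≤ b * 2 ^ j) {y : ℝ} (hy : 0 < y) :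
    ∃ j, μ j ≤ y ∧ y ≤ μ (j + 1) := by
  obtain ⟨j0, h0, -⟩ := exists_mem_Ico_zpow (div_pos hy hb) (one_lt_two (α := ℝ))
  obtain ⟨j1, -, h1⟩ := exists_mem_Ico_zpow (div_pos hy ha) (one_lt_two (α := ℝ))
  obtain ⟨j, hj, hmin⟩ := Int.exists_least_of_bdd (P := fun j => y < μ j) ⟨j0, fun z hz => by
    by_contra hc
    have h2 : (2 : ℝ) ^ z ≤ 2 ^ j0 := zpow_le_zpow_right₀ one_le_two (not_le.mp hc).le
    rw [le_div_iff₀ hb] at h0
    nlinarith [(h z).2]⟩ ⟨j1 + 1, by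
    rw [div_lt_iff₀ ha] at h1
    linarith [(h (j1 + 1)).1]⟩
  refine ⟨j - 1, not_lt.mp fun hc => ?_, by simpa using hj.le⟩
  have := hmin _ hc
  omega

noncomputable def lc (p r : ℝ) (W C : ℝ≥0∞) : ℝ≥0∞ :=
  ENNReal.ofReal (10 ^ r) * (gc (r - 1) * W * ENNReal.ofReal (2 ^ (r - 1)) + gc (p - r) * C)

lemma lc_ne_top {p r : ℝ} (hr : 1 < r) (hrp : r < p) {W C : ℝ≥0∞} (hW : W ≠ ⊤) (hC : C ≠ ⊤) :
    lc p r W C ≠ ⊤ := by
  have h1 := gc_ne_top (a := r - 1) (by linarith)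
  have h2 := gc_ne_top (a := p - r) (by linarith)
  unfold lc; finiteness

lemma low_core {p r : ℝ} (hr : 1 < r) (hrp : r < p) {W C : ℝ≥0∞} {J : Finset ℤ}
    (hW : ∀ g : T → X, Continuous g → ∀ lam : ℝ, 0 < lam →
      ENNReal.ofReal lam * volume {x | 4 * lam < ‖D J g x‖} ≤ W * ∫⁻ x, ‖g x‖ₑ)
    {f : T → X} (hf : Continuous f) {ε : ℤ → ℝ} {δ : ℝ} (hδ : 0 < δ)
    (hε : ∀ j, δ ≤ ε j ∧ ε j ≤ 2)
    (hb : ∀ j : ℤ, ∫⁻ x, ‖D J (tr (2 ^ j) f) x‖ₑ ^ p ≤
      C * ENNReal.ofReal (ε j ^ p) * ∫⁻ x, ‖tr (2 ^ j) f x‖ₑ ^ p) :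
    ∫⁻ x, ‖D J f x‖ₑ ^ r ≤ lc p r W C *
      ∑' j : ℤ, ENNReal.ofReal ((1 * 2 ^ j) ^ (r - 1)) * Phi p (1 * 2 ^ j) f *
        (ENNReal.ofReal (ε j ^ (p / (p - 1) * (r - 1))) +
          ENNReal.ofReal (ε (j + 1) ^ (p / (p - 1) * (r - 1)))) := by
  simp only [one_mul]
  have hp : 1 < p := hr.trans hrp
  set p' := p / (p - 1) with hp'
  have hp'0 : 0 < p' := div_pos (by linarith) (by linarith)
  have hε0 : ∀ j, 0 < ε j := fun j => hδ.trans_le (hε j).1
  set μ : ℤ → ℝ := fun j => ε j ^ p' * 2 ^ j with hμ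
  have hμ0 : ∀ j, 0 < μ j := fun j => by have := hε0 j; simp only [hμ]; positivity
  set Φ : ℤ → ℝ≥0∞ := fun j => Phi p (2 ^ j) f with hΦ
  set A : ℤ → ℝ≥0∞ := fun j => W * Φ j with hA
  set B : ℤ → ℝ≥0∞ := fun j => C * ENNReal.ofReal (ε j ^ p) *
    (ENNReal.ofReal (((2 : ℝ) ^ j) ^ (p - 1)) * Φ j) with hB
  have key : ∀ k : ℤ, ENNReal.ofReal ((2 * 5 * 2 ^ k) ^ r) * volume {x | 5 * 2 ^ k < ‖D J f x‖} ≤
      ENNReal.ofReal (10 ^ r) * ∑' j : ℤ,
        ((if (2 : ℝ) ^ k ≤ μ (j + 1) then ENNReal.ofReal (((2 : ℝ) ^ k) ^ (r - 1)) else 0) * A j +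
        (if μ j ≤ (2 : ℝ) ^ k then ENNReal.ofReal (((2 : ℝ) ^ k) ^ (-(p - r))) else 0) * B j) := by
    intro k
    have hk : (0 : ℝ) < 2 ^ k := by positivity
    obtain ⟨j, h1, h2⟩ := exists_cross (μ := μ) (a := δ ^ p') (b := 2 ^ p') (by positivity)
      (by positivity) (fun j => ⟨mul_le_mul_of_nonneg_right
        (Real.rpow_le_rpow hδ.le (hε j).1 hp'0.le) (by positivity), mul_le_mul_of_nonneg_right
        (Real.rpow_le_rpow (hε0 j).le (hε j).2 hp'0.le) (by positivity)⟩) hk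
    have hj : (0 : ℝ) < 2 ^ j := by positivity
    have htc := continuous_tr hj hf
    refine le_trans ?_ (mul_le_mul_right (ENNReal.le_tsum j) _)
    rw [if_pos h1, if_pos h2, Real.mul_rpow (by norm_num) hk.le,
      ENNReal.ofReal_mul (by positivity), mul_assoc, show (2 * 5 : ℝ) = 10 by norm_num]
    refine mul_le_mul_right ?_ _
    have hsub : {x | 5 * 2 ^ k < ‖D J f x‖} ⊆
        {x | 4 * 2 ^ k < ‖D J (fun y => f y - tr (2 ^ j) f y) x‖} ∪
          {x | 2 ^ k < ‖D J (tr (2 ^ j) f) x‖} := by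
      intro x hx
      by_contra hc
      simp only [mem_union, mem_ofPred_eq, not_or, not_lt] at hx hc
      rw [D_sub _ (cont_integrable hf) (cont_integrable htc)] at hc
      linarith [norm_sub_norm_le (D J f x) (D J (tr (2 ^ j) f) x), hc.1, hc.2]
    refine (mul_le_mul_right ((measure_mono hsub).trans (measure_union_le _ _)) _).trans ?_
    rw [mul_add]
    refine add_le_add ?_ ?_
    · have e1 : ((2 : ℝ) ^ k) ^ r = (2 ^ k) ^ (r - 1) * 2 ^ k := by
        rw [← Real.rpow_add_one hk.ne']; simp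
      rw [e1, ENNReal.ofReal_mul (by positivity), mul_assoc]
      refine mul_le_mul_right ((hW _ (hf.sub htc) _ hk).trans ?_) _
      exact mul_le_mul_right (tr_hi p hj f) _
    · have e1 : ((2 : ℝ) ^ k) ^ r = (2 ^ k) ^ (-(p - r)) * (2 ^ k) ^ p := by
        rw [← Real.rpow_add hk]; congr 1; ring
      rw [e1, ENNReal.ofReal_mul (by positivity), mul_assoc]
      refine mul_le_mul_right ((cheb volume (continuous_D _ _) hk (by linarith)).trans
        ((hb j).trans ?_)) _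
      exact mul_le_mul_right (tr_lo hp.le hj hf) _
  refine (layer (c := 5) (by linarith) (by norm_num) (continuous_D J f)).trans
    ((ENNReal.tsum_le_tsum key).trans ?_)
  rw [ENNReal.tsum_mul_left, ENNReal.tsum_comm, lc, mul_assoc]
  refine mul_le_mul_right ?_ _
  rw [← ENNReal.tsum_mul_left]
  refine ENNReal.tsum_le_tsum fun j => ?_
  have hj : (0 : ℝ) < 2 ^ j := by positivity
  rw [ENNReal.tsum_add, ENNReal.tsum_mul_right, ENNReal.tsum_mul_right]
  refine (add_le_add (mul_le_mul_left (geo1 (by linarith) (hμ0 (j + 1))) _)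
    (mul_le_mul_left (geo2 (by linarith) (hμ0 j)) _)).trans ?_
  have e1 : ENNReal.ofReal (μ (j + 1) ^ (r - 1)) = ENNReal.ofReal (2 ^ (r - 1)) *
      ENNReal.ofReal (((2 : ℝ) ^ j) ^ (r - 1)) * ENNReal.ofReal (ε (j + 1) ^ (p' * (r - 1))) := by
    have := hε0 (j + 1)
    rw [← ENNReal.ofReal_mul (by positivity), ← ENNReal.ofReal_mul (by positivity), hμ]
    simp only
    rw [zpow_add_one₀ two_ne_zero, Real.mul_rpow (by positivity) (by positivity),
      Real.mul_rpow (by positivity) (by positivity), ← Real.rpow_mul this.le]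
    congr 1; ring
  have e2 : ENNReal.ofReal (μ j ^ (-(p - r))) * (ENNReal.ofReal (ε j ^ p) *
      ENNReal.ofReal (((2 : ℝ) ^ j) ^ (p - 1))) =
      ENNReal.ofReal (((2 : ℝ) ^ j) ^ (r - 1)) * ENNReal.ofReal (ε j ^ (p' * (r - 1))) := by
    have := hε0 j
    have h3 := hμ0 j
    rw [← ENNReal.ofReal_mul (by positivity), ← ENNReal.ofReal_mul (by positivity),
      ← ENNReal.ofReal_mul (by positivity), hμ]
    simp only
    rw [Real.mul_rpow (by positivity) (by positivity), ← Real.rpow_mul this.le]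
    have h4 : p' * (r - 1) = p' * (-(p - r)) + p := by
      have : p - 1 ≠ 0 := by linarith
      rw [hp']; field_simp; ring
    have h5 : r - 1 = -(p - r) + (p - 1) := by ring
    rw [h4, h5, Real.rpow_add this, Real.rpow_add hj]
    congr 1; ring
  set w := ENNReal.ofReal (((2 : ℝ) ^ j) ^ (r - 1)) * Φ j with hw
  set x1 := ENNReal.ofReal (ε j ^ (p' * (r - 1)))
  set x2 := ENNReal.ofReal (ε (j + 1) ^ (p' * (r - 1)))
  have e3 : gc (r - 1) * ENNReal.ofReal (μ (j + 1) ^ (r - 1)) * A j =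
      gc (r - 1) * W * ENNReal.ofReal (2 ^ (r - 1)) * (w * x2) := by
    rw [e1, hA, hw]; ring
  have e4 : gc (p - r) * ENNReal.ofReal (μ j ^ (-(p - r))) * B j = gc (p - r) * C * (w * x1) := by
    calc _ = gc (p - r) * C * ((ENNReal.ofReal (μ j ^ (-(p - r))) * (ENNReal.ofReal (ε j ^ p) *
        ENNReal.ofReal (((2 : ℝ) ^ j) ^ (p - 1)))) * Φ j) := by rw [hB]; ring
      _ = _ := by rw [e2, hw]; ring
  rw [e3, e4, add_mul]
  exact add_le_add (mul_le_mul_right (mul_le_mul_right le_add_self _) _)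
    (mul_le_mul_right (mul_le_mul_right le_self_add _) _)

lemma nrm_le_of_lint {p : ℝ} (hp : 0 < p) {C : ℝ≥0∞} {E F : Type*} [NormedAddCommGroup E]
    [NormedAddCommGroup F] {f : T → E} {g : T → F}
    (h : ∫⁻ x, ‖f x‖ₑ ^ p ≤ C * ∫⁻ x, ‖g x‖ₑ ^ p) : nrm p f ≤ C ^ (1 / p) * nrm p g := by
  rw [nrm_eq hp, nrm_eq hp, ← ENNReal.mul_rpow_of_nonneg _ _ (by positivity)]
  exact ENNReal.rpow_le_rpow h (by positivity)

variable [CompleteSpace X]

lemma HT_of_poly {p : ℝ} (hp : 1 ≤ p) {C : ℝ≥0∞} (hC : C ≠ ⊤)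
    (h : ∀ J, IsInt J → ∀ (S : Finset ℤ) (x : ℤ → X),
      nrm p (D J (poly S x)) ≤ C * nrm p (poly S x)) : HT X p := by
  refine ⟨C * 2, by finiteness, fun J hJ f hf => ?_⟩
  obtain ⟨S, x, h1, h2⟩ := smooth J hf
  rw [← D_congr h1, mul_assoc]
  exact (h J hJ S x).trans (mul_le_mul_right (h2 p hp) _)

lemma HT.down {p r : ℝ} (h : HT X p) (hr : 1 < r) (hrp : r < p) : HT X r := by
  obtain ⟨C, hC, h⟩ := h
  have hp : 1 < p := hr.trans hrp
  have h1 := gc_ne_top (a := r - 1) (by linarith)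
  have h2 := gc_ne_top (a := p - r) (by linarith)
  have h3 := lc_ne_top hr hrp (W := 2 * wc p C) (C := C ^ p)
    (ENNReal.mul_ne_top (by simp) (wc_ne_top (by linarith) hC))
    (ENNReal.rpow_ne_top_of_nonneg (by linarith) hC)
  refine HT_of_poly hr.le
    (C := (lc p r (2 * wc p C) (C ^ p) * ((gc (r - 1) + gc (p - r)) * 2)) ^ (1 / r))
    (ENNReal.rpow_ne_top_of_nonneg (by positivity) (by finiteness)) fun J hJ S x => ?_
  have hf := continuous_poly S x
  refine nrm_le_of_lint (by linarith) ?_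
  refine (low_core hr hrp (fun g hg lam hlam => weak_D hp.le h hJ hg hlam) hf (ε := fun _ => 1)
    one_pos (fun _ => ⟨le_rfl, one_le_two⟩) (C := C ^ p) fun j => ?_).trans ?_
  · rw [Real.one_rpow, ENNReal.ofReal_one, mul_one]
    exact lint_le_of_nrm (by linarith)
      (h J hJ _ (cont_integrable (continuous_tr (by positivity) hf)))
  · rw [mul_assoc]
    refine mul_le_mul_right ?_ _
    simp only [Real.one_rpow, ENNReal.ofReal_one, one_add_one_eq_two]
    rw [ENNReal.tsum_mul_right, mul_right_comm]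
    exact mul_le_mul_left (sum_Phi hr hrp one_pos hf) _

def Fam {ι : Type} (s : Finset ι) (J : ι → Finset ℤ) : Prop :=
  (∀ i ∈ s, IsInt (J i)) ∧ (s : Set ι).PairwiseDisjoint J

def Low (X : Type*) [NormedAddCommGroup X] [NormedSpace ℂ X] (q p : ℝ) : Prop :=
  ∃ C : ℝ≥0∞, C ≠ ⊤ ∧ ∀ (ι : Type) (s : Finset ι) (J : ι → Finset ℤ), Fam s J →
    ∀ f : T → X, Integrable f → ∑ i ∈ s, nrm p (D (J i) f) ^ q ≤ C * nrm p f ^ q

omit [CompleteSpace X] in
lemma Low.ht {q p : ℝ} (hq : 0 < q) (h : Low X q p) : HT X p := by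
  obtain ⟨C, hC, h⟩ := h
  refine ⟨C ^ (1 / q), ENNReal.rpow_ne_top_of_nonneg (by positivity) hC, fun J hJ f hf => ?_⟩
  have := h Unit {()} (fun _ => J) ⟨fun _ _ => hJ, by simp⟩ f hf
  rw [Finset.sum_singleton] at this
  have h2 := ENNReal.rpow_le_rpow this (z := 1 / q) (by positivity)
  rwa [ENNReal.mul_rpow_of_nonneg _ _ (by positivity), ← ENNReal.rpow_mul, ← ENNReal.rpow_mul,
    mul_one_div_cancel hq.ne', ENNReal.rpow_one, ENNReal.rpow_one] at h2

lemma Low_of_poly {q p : ℝ} (hp : 1 ≤ p) (hq : 0 ≤ q) {C : ℝ≥0∞} (hC : C ≠ ⊤)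
    (h : ∀ (ι : Type) (s : Finset ι) (J : ι → Finset ℤ), Fam s J → ∀ (S : Finset ℤ) (x : ℤ → X),
      ∑ i ∈ s, nrm p (D (J i) (poly S x)) ^ q ≤ C * nrm p (poly S x) ^ q) : Low X q p := by
  classical
  refine ⟨C * 2 ^ q, ENNReal.mul_ne_top hC (ENNReal.rpow_ne_top_of_nonneg hq (by simp)),
    fun ι s J hJ f hf => ?_⟩
  obtain ⟨S, x, h1, h2⟩ := smooth (s.biUnion J) hf
  have h3 : ∀ i ∈ s, D (J i) f = D (J i) (poly S x) := fun i hi =>
    (D_congr fun n hn => h1 n (Finset.mem_biUnion.mpr ⟨i, hi, hn⟩)).symm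
  rw [Finset.sum_congr rfl fun i hi => by rw [h3 i hi], mul_assoc,
    ← ENNReal.mul_rpow_of_nonneg _ _ hq]
  exact (h ι s J hJ S x).trans (mul_le_mul_right (ENNReal.rpow_le_rpow (h2 p hp) hq) _)

lemma exists_eps {ι : Type} (s : Finset ι) {q : ℝ} (hq : 1 ≤ q) {β : ι → ℝ≥0∞} {C Y : ℝ≥0∞}
    (hC : C ≠ ⊤) (hY : Y ≠ ⊤) (h : ∑ i ∈ s, β i ^ q ≤ C * Y ^ q) :
    ∃ ε : ι → ℝ, ∑ i ∈ s, ENNReal.ofReal (ε i ^ q) ≤ 2 ∧ ∀ i ∈ s,
      (1 / (s.card + 1) ≤ ε i ∧ ε i ≤ 2) ∧ β i ≤ (C + 1) ^ (1 / q) * ENNReal.ofReal (ε i) * Y := by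
  have hq0 : 0 < q := by linarith
  set δ : ℝ := 1 / (s.card + 1) with hδ
  have hδ0 : 0 < δ := by positivity
  have hδ1 : δ ≤ 1 := by
    rw [hδ, div_le_one (by positivity)]; linarith [Nat.cast_nonneg (α := ℝ) s.card]
  set M := (C + 1) * Y ^ q with hM
  have hMt : M ≠ ⊤ :=
    ENNReal.mul_ne_top (by finiteness) (ENNReal.rpow_ne_top_of_nonneg hq0.le hY)
  have h' : ∑ i ∈ s, β i ^ q ≤ M := h.trans (mul_le_mul_left le_self_add _)
  have hsum : ∑ i ∈ s, β i ^ q / M ≤ 1 := by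
    simp only [div_eq_mul_inv]
    rw [← Finset.sum_mul]
    exact (mul_le_mul_left h' _).trans (ENNReal.mul_inv_le_one M)
  have hle : ∀ i ∈ s, β i ^ q / M ≤ 1 := fun i hi =>
    (Finset.single_le_sum (f := fun i => β i ^ q / M) (fun _ _ => zero_le) hi).trans hsum
  have hε : ∀ i ∈ s, ENNReal.ofReal ((((β i ^ q / M).toReal + δ) ^ (1 / q)) ^ q) =
      β i ^ q / M + ENNReal.ofReal δ := by
    intro i hi
    rw [← Real.rpow_mul (by positivity), one_div_mul_cancel hq0.ne', Real.rpow_one,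
      ENNReal.ofReal_add (by positivity) hδ0.le,
      ENNReal.ofReal_toReal (ne_top_of_le_ne_top ENNReal.one_ne_top (hle i hi))]
  refine ⟨fun i => ((β i ^ q / M).toReal + δ) ^ (1 / q), ?_, fun i hi => ⟨⟨?_, ?_⟩, ?_⟩⟩
  · rw [Finset.sum_congr rfl hε, Finset.sum_add_distrib, ← one_add_one_eq_two]
    refine add_le_add hsum ?_
    rw [Finset.sum_const, nsmul_eq_mul, ← ENNReal.ofReal_natCast,
      ← ENNReal.ofReal_mul (by positivity), ENNReal.ofReal_le_one, hδ, mul_one_div,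
      div_le_one (by positivity)]
    linarith
  · calc δ = δ ^ (1 : ℝ) := (Real.rpow_one δ).symm
      _ ≤ δ ^ (1 / q) := Real.rpow_le_rpow_of_exponent_ge hδ0 hδ1 ((div_le_one hq0).mpr hq)
      _ ≤ _ := Real.rpow_le_rpow hδ0.le (le_add_of_nonneg_left ENNReal.toReal_nonneg)
          (by positivity)
  · have h1 : (β i ^ q / M).toReal ≤ 1 := by
      simpa using ENNReal.toReal_mono ENNReal.one_ne_top (hle i hi)
    calc _ ≤ (2 : ℝ) ^ (1 / q) := Real.rpow_le_rpow (by positivity) (by linarith) (by positivity)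
      _ ≤ 2 ^ (1 : ℝ) := Real.rpow_le_rpow_of_exponent_le one_le_two ((div_le_one hq0).mpr hq)
      _ = 2 := Real.rpow_one 2
  · rw [← ENNReal.rpow_le_rpow_iff hq0, ENNReal.mul_rpow_of_nonneg _ _ hq0.le,
      ENNReal.mul_rpow_of_nonneg _ _ hq0.le, ← ENNReal.rpow_mul, one_div_mul_cancel hq0.ne',
      ENNReal.rpow_one, ENNReal.ofReal_rpow_of_nonneg (by positivity) hq0.le, hε i hi,
      mul_right_comm, ← hM]
    have h1 : β i ^ q ≤ M :=
      (Finset.single_le_sum (f := fun i => β i ^ q) (fun _ _ => zero_le) hi).trans h'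
    by_cases hM0 : M = 0
    · rw [hM0] at h1; exact h1.trans zero_le
    · refine le_trans (le_of_eq ?_) (mul_le_mul_right le_self_add _)
      rw [ENNReal.mul_div_cancel hM0 hMt]

lemma Low.down {q p r s : ℝ} (h : Low X q p) (hr : 1 < r) (hrp : r < p) (hpq : p ≤ q)
    (hs : s * (p / (p - 1) * (r - 1)) = q * r) : Low X s r := by
  have hp : 1 < p := hr.trans hrp
  have hq : 1 < q := by linarith
  obtain ⟨C1, hC1, hht⟩ := h.ht (by linarith)
  obtain ⟨C, hC, h⟩ := h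
  set κ := p / (p - 1) * (r - 1) with hκ
  have hκ0 : 0 < κ := mul_pos (div_pos (by linarith) (by linarith)) (by linarith)
  have hκq : κ ≤ q := by
    refine le_trans ?_ hpq
    rw [hκ, div_mul_eq_mul_div, div_le_iff₀ (by linarith)]
    nlinarith
  set σ := s / r with hσ
  have hσκ : κ * σ = q := by rw [hσ]; field_simp; linarith
  have hσ1 : 1 ≤ σ := by
    by_contra hc
    nlinarith [not_le.mp hc]
  have hrs : r * σ = s := by rw [hσ]; field_simp
  have hs0 : 0 ≤ s := by rw [← hrs]; positivity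
  have h1 := gc_ne_top (a := r - 1) (by linarith)
  have h2 := gc_ne_top (a := p - r) (by linarith)
  set C0 := ((C + 1) ^ (1 / q)) ^ p with hC0
  have hC0t : C0 ≠ ⊤ := ENNReal.rpow_ne_top_of_nonneg (by linarith)
    (ENNReal.rpow_ne_top_of_nonneg (by positivity) (by finiteness))
  set L := lc p r (2 * wc p C1) C0 with hL
  have h3 : L ≠ ⊤ :=
    lc_ne_top hr hrp (ENNReal.mul_ne_top (by simp) (wc_ne_top (by linarith) hC1)) hC0t
  refine Low_of_poly hr.le hs0
    (C := L ^ σ * (2 ^ (σ - 1) * 4) * (gc (r - 1) + gc (p - r)) ^ σ)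
    (ENNReal.mul_ne_top (ENNReal.mul_ne_top (ENNReal.rpow_ne_top_of_nonneg (by linarith) h3)
      (ENNReal.mul_ne_top (ENNReal.rpow_ne_top_of_nonneg (by linarith) (by simp)) (by simp)))
      (ENNReal.rpow_ne_top_of_nonneg (by linarith) (by finiteness))) fun ι t J hJ S x => ?_
  have hf := continuous_poly S x
  set f := poly S x with hfd
  have htc : ∀ j : ℤ, Continuous (tr (2 ^ j) f) := fun j => continuous_tr (by positivity) hf
  choose ε hε1 hε2 using fun j : ℤ => exists_eps t hq.le hC (nrm_ne_top (htc j))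
    (h ι t J hJ _ (cont_integrable (htc j)))
  set w : ℤ → ℝ≥0∞ := fun j => ENNReal.ofReal ((1 * 2 ^ j) ^ (r - 1)) * Phi p (1 * 2 ^ j) f with hw
  have hε0 : ∀ j, ∀ i ∈ t, 0 ≤ ε j i := fun j i hi =>
    le_trans (by positivity) (hε2 j i hi).1.1
  have key : ∀ i ∈ t, nrm r (D (J i) f) ^ s ≤ L ^ σ * ((∑' j, w j) ^ (σ - 1) *
      ∑' j, w j * (2 ^ (σ - 1) * (ENNReal.ofReal (ε j i ^ q) +
        ENNReal.ofReal (ε (j + 1) i ^ q)))) := by
    intro i hi
    have a1 := low_core hr hrp (fun g hg lam hlam => weak_D hp.le hht (hJ.1 i hi) hg hlam) hf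
      (ε := fun j => ε j i) (δ := 1 / (t.card + 1)) (by positivity) (fun j => (hε2 j i hi).1)
      (C := C0) fun j => by
        refine (lint_le_of_nrm (by linarith) (hε2 j i hi).2).trans (le_of_eq ?_)
        rw [ENNReal.mul_rpow_of_nonneg _ _ (by linarith),
          ENNReal.ofReal_rpow_of_nonneg (hε0 j i hi) (by linarith)]
    rw [← hrs, ENNReal.rpow_mul, nrm_rpow (by linarith)]
    refine (ENNReal.rpow_le_rpow a1 (by linarith)).trans ?_
    rw [ENNReal.mul_rpow_of_nonneg _ _ (by linarith)]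
    refine mul_le_mul_right ?_ _
    have a2 := jensen_w (Measure.count : Measure ℤ) (w := w)
      (x := fun j => ENNReal.ofReal (ε j i ^ κ) + ENNReal.ofReal (ε (j + 1) i ^ κ))
      (measurable_of_countable _).aemeasurable (measurable_of_countable _).aemeasurable hσ1
    simp only [lintegral_count] at a2
    refine a2.trans (mul_le_mul_right (ENNReal.tsum_le_tsum fun j => mul_le_mul_right ?_ _) _)
    refine (ENNReal.rpow_add_le_mul_rpow_add_rpow _ _ hσ1).trans (le_of_eq ?_)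
    have b1 := hε0 j i hi
    have b2 := hε0 (j + 1) i hi
    rw [ENNReal.ofReal_rpow_of_nonneg (by positivity) (by linarith),
      ENNReal.ofReal_rpow_of_nonneg (by positivity) (by linarith), ← Real.rpow_mul b1,
      ← Real.rpow_mul b2, hσκ]
  refine (Finset.sum_le_sum key).trans ?_
  rw [← Finset.mul_sum, ← Finset.mul_sum, ← Summable.tsum_finsetSum fun _ _ => ENNReal.summable,
    mul_assoc, mul_assoc (L ^ σ)]
  refine mul_le_mul_right ?_ _
  have a3 : ∑' j, ∑ i ∈ t, w j * (2 ^ (σ - 1) * (ENNReal.ofReal (ε j i ^ q) +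
      ENNReal.ofReal (ε (j + 1) i ^ q))) ≤ (∑' j, w j) * (2 ^ (σ - 1) * 4) := by
    rw [← ENNReal.tsum_mul_right]
    refine ENNReal.tsum_le_tsum fun j => ?_
    rw [← Finset.mul_sum, ← Finset.mul_sum, Finset.sum_add_distrib]
    refine mul_le_mul_right (mul_le_mul_right ((add_le_add (hε1 j) (hε1 (j + 1))).trans ?_) _) _
    norm_num
  refine (mul_le_mul_right a3 _).trans ?_
  rw [← mul_assoc, mul_comm]
  refine mul_le_mul_right ?_ _
  have a4 : (∑' j, w j) ^ (σ - 1) * ∑' j, w j = (∑' j, w j) ^ σ := by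
    conv_rhs => rw [show σ = (σ - 1) + 1 by ring,
      ENNReal.rpow_add_of_nonneg _ _ (by linarith) zero_le_one, ENNReal.rpow_one]
  rw [a4, ← hrs, ENNReal.rpow_mul, nrm_rpow (by linarith),
    ← ENNReal.mul_rpow_of_nonneg _ _ (by linarith)]
  exact ENNReal.rpow_le_rpow (sum_Phi hr hrp one_pos hf) (by linarith)

end Pool.Agent.Lib.MP_b78339_an
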