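import Pool.Agent.Lib.MP_b78339_an.Dual

set_option autoImplicit false

open MeasureTheory Set
open scoped ENNReal NNReal ComplexConjugate Topology

namespace Pool.Agent.Lib.MP_b78339_an

variable {X : Type*} [NormedAddCommGroup X] [NormedSpace ℂ X]

noncomputable def bump (M : ℕ) (t : T) : ℂ := (M : ℂ)⁻¹ * dir (Finset.Ico 0 (M : ℤ)) t ^ 2

@[fun_prop]
lemma continuous_bump (M : ℕ) : Continuous (bump M) := by unfold bump; fun_prop

lemma bump_one {M : ℕ} (hM : 0 < M) : ∫⁻ t, ‖bump M t‖ₑ = 1 := by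
  rw [lintegral_enorm_cont (continuous_bump M)]
  simp only [bump, norm_mul, norm_pow, norm_inv, Complex.norm_natCast]
  rw [integral_const_mul, integral_dir_sq, Int.card_Ico]
  simp only [sub_zero, Int.toNat_natCast]
  rw [inv_mul_cancel₀ (by positivity), ENNReal.ofReal_one]

lemma bump_tail {M N : ℕ} (hN : 0 < N) {t : T} (ht : 1 / (2 * (N : ℝ)) ≤ ‖t‖) :
    ‖bump M t‖ ≤ (M : ℝ)⁻¹ * N ^ 2 := by
  have h1 : ‖dir (Finset.Ico 0 (M : ℤ)) t‖ * ‖1 - e 1 t‖ ≤ 2 := by
    rw [← norm_mul, dir_Ico_zero, geom_sum_mul_neg]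
    refine (norm_sub_le _ _).trans ?_
    rw [norm_one, norm_pow, norm_e, one_pow]; norm_num
  have h2 := (norm_e_one_sub t).1
  have hN' : (0 : ℝ) < N := by exact_mod_cast hN
  rw [div_le_iff₀ (by positivity)] at ht
  have h3 : ‖dir (Finset.Ico 0 (M : ℤ)) t‖ ≤ N := by
    have h4 := mul_le_mul_of_nonneg_left h2 (norm_nonneg (dir (Finset.Ico 0 (M : ℤ)) t))
    have h5 := mul_le_mul_of_nonneg_left ht (norm_nonneg (dir (Finset.Ico 0 (M : ℤ)) t))
    nlinarith
  rw [bump, norm_mul, norm_pow, norm_inv, Complex.norm_natCast]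
  exact mul_le_mul_of_nonneg_left (pow_le_pow_left₀ (norm_nonneg _) h3 2) (by positivity)

lemma sep_points {N i j : ℕ} (hi : i < N) (hj : j < N) (hij : i ≠ j) :
    1 / (N : ℝ) ≤ ‖(((i : ℝ) / N : ℝ) : T) - (((j : ℝ) / N : ℝ) : T)‖ := by
  have hN : (0 : ℝ) < N := by exact_mod_cast (Nat.zero_lt_of_lt hi)
  rw [← AddCircle.coe_sub, UnitAddCircle.norm_eq]
  set k := round ((i : ℝ) / N - (j : ℝ) / N) with hk
  have h1 : (i : ℝ) / N - (j : ℝ) / N - k = (((i : ℤ) - j - k * N : ℤ) : ℝ) / N := by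
    push_cast; field_simp
  have h2 : (i : ℤ) - j - k * N ≠ 0 := by
    intro h
    have h3 : (i : ℤ) - j = k * N := by linarith
    rcases lt_trichotomy k 0 with h4 | h4 | h4
    · nlinarith [Int.natCast_nonneg i, Int.ofNat_lt.mpr hj]
    · rw [h4] at h3; omega
    · nlinarith [Int.natCast_nonneg j, Int.ofNat_lt.mpr hi]
  rw [h1, abs_div, abs_of_pos hN, ← Int.cast_abs]
  refine div_le_div_of_nonneg_right ?_ hN.le
  exact_mod_cast Int.one_le_abs h2

variable [CompleteSpace X]

lemma D_single {J : Finset ℤ} {n : ℤ} (hn : n ∈ J) (v : X) (t : T) :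
    D J (fun t => e n t • v) t = e n t • v := by
  have : (fun t => e n t • v) = poly {n} (fun _ => v) := by ext t; simp [poly]
  rw [this, D_poly, Finset.inter_eq_right.mpr (Finset.singleton_subset_iff.mpr hn)]
  simp [poly]

lemma D_bump (M : ℕ) (a : ℤ) (c : T) (v : X) :
    D (Finset.Ico a (a + 2 * M)) (fun t => e a t • bump M (t - c) • v) =
      fun t => e a t • bump M (t - c) • v := by
  have h1 : ∀ t, e a t • bump M (t - c) • v =
      ∑ z ∈ Finset.Ico 0 (M : ℤ) ×ˢ Finset.Ico 0 (M : ℤ),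
        e (a + z.1 + z.2) t • (((M : ℂ)⁻¹ * (e (-z.1) c * e (-z.2) c)) • v) := by
    intro t
    rw [bump, sq, dir, Finset.sum_mul_sum]
    simp only [Finset.sum_product, Finset.mul_sum,
      Finset.sum_smul, Finset.smul_sum, smul_smul, e_add, e_sub_pt]
    refine Finset.sum_congr rfl fun m _ => Finset.sum_congr rfl fun n _ => ?_
    congr 1; ring
  ext t
  simp only [h1]
  rw [D_sum _ _ (f := fun (z : ℤ × ℤ) t =>
    e (a + z.1 + z.2) t • (((M : ℂ)⁻¹ * (e (-z.1) c * e (-z.2) c)) • v))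
    fun z _ => cont_integrable (by fun_prop)]
  refine Finset.sum_congr rfl fun z hz => D_single ?_ _ _
  simp only [Finset.mem_product, Finset.mem_Ico] at hz ⊢
  omega

lemma Low.le_exp [Nontrivial X] {q p : ℝ} (h : Low X q p) (hp : 1 ≤ p) (hq : 0 < q) : p ≤ q := by
  classical
  by_contra hpq
  rw [not_le] at hpq
  have hp0 : 0 < p := by linarith
  obtain ⟨C, hC, h⟩ := h
  obtain ⟨v, hv⟩ := exists_norm_eq X zero_le_one
  have key : ∀ N : ℕ, 0 < N → (N : ℝ≥0∞) ≤ C * (2 ^ p * N) ^ (q / p) := by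
    intro N hN
    have hN' : (0 : ℝ) < N := by exact_mod_cast hN
    set M := N ^ 3 with hM
    have hM0 : 0 < M := by positivity
    set c : ℕ → T := fun j => (((j : ℝ) / N : ℝ) : T) with hc
    set J : ℕ → Finset ℤ := fun j => Finset.Ico (2 * M * j : ℤ) (2 * M * j + 2 * M) with hJ
    set φ : ℕ → T → X := fun j t => e (2 * M * j) t • bump M (t - c j) • v with hφ
    have hφc : ∀ j, Continuous (φ j) := fun j => by simp only [hφ]; fun_prop
    have hφn : ∀ j t, ‖φ j t‖ = ‖bump M (t - c j)‖ := fun j t => by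
      simp only [hφ]; rw [norm_e_smul, norm_smul, hv, mul_one]
    have hφD : ∀ j, D (J j) (φ j) = φ j := fun j => D_bump M _ _ v
    have hdis : ∀ i j, i ≠ j → Disjoint (J i) (J j) := by
      intro i j hij
      rw [Finset.disjoint_left]
      intro n h1 h2
      simp only [hJ, Finset.mem_Ico] at h1 h2
      have : (0 : ℤ) < M := by exact_mod_cast hM0
      rcases lt_or_gt_of_ne hij with h3 | h3
      · have : (i : ℤ) + 1 ≤ j := by exact_mod_cast h3
        nlinarith
      · have : (j : ℤ) + 1 ≤ i := by exact_mod_cast h3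
        nlinarith
    set P := ∫⁻ t, ‖bump M t‖ₑ ^ p with hP
    have hP1 : 1 ≤ P := by
      rw [hP, ← nrm_rpow hp0]
      refine ENNReal.one_le_rpow ?_ hp0
      rw [← bump_one hM0]
      exact nrm_one_le hp (continuous_bump M).aestronglyMeasurable
    have hPt : P ≠ ⊤ := by
      rw [hP, ← nrm_rpow hp0]
      exact ENNReal.rpow_ne_top_of_nonneg hp0.le (nrm_ne_top (continuous_bump M))
    have hφP : ∀ j, ∫⁻ t, ‖φ j t‖ₑ ^ p = P := by
      intro j
      simp only [enorm_rpow_eq _ hp0.le, hφn, hP]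
      exact lintegral_sub_right_eq_self (fun t => ENNReal.ofReal (‖bump M t‖ ^ p)) (c j)
    set F : T → X := fun t => ∑ j ∈ Finset.range N, φ j t with hF
    have hFc : Continuous F := continuous_finset_sum _ fun j _ => hφc j
    have hDF : ∀ i ∈ Finset.range N, D (J i) F = φ i := by
      intro i hi
      ext t
      rw [hF, D_sum _ _ fun j _ => cont_integrable (hφc j), Finset.sum_eq_single_of_mem i hi,
        hφD]
      intro j _ hji
      rw [← hφD j, D_D, Finset.disjoint_iff_inter_eq_empty.mp (hdis i j hji.symm), D_empty]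
    have hpt : ∀ t, ‖F t‖ₑ ^ p ≤ 2 ^ (p - 1) * (∑ j ∈ Finset.range N, ‖φ j t‖ₑ ^ p + 1) := by
      intro t
      obtain ⟨i, hi, hfar⟩ : ∃ i ∈ Finset.range N, ∀ j ∈ Finset.range N, j ≠ i →
          1 / (2 * (N : ℝ)) ≤ ‖t - c j‖ := by
        by_cases hex : ∃ i ∈ Finset.range N, ‖t - c i‖ < 1 / (2 * (N : ℝ))
        · obtain ⟨i, hi, hlt⟩ := hex
          refine ⟨i, hi, fun j hj hji => ?_⟩
          have a1 := sep_points (Finset.mem_range.mp hj) (Finset.mem_range.mp hi) hji
          have a2 := norm_sub_le_norm_sub_add_norm_sub (c j) t (c i)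
          rw [norm_sub_rev (c j) t] at a2
          have a3 : 1 / (N : ℝ) = 1 / (2 * N) + 1 / (2 * N) := by field_simp; ring
          simp only [hc] at a2 hlt ⊢
          linarith
        · exact ⟨0, Finset.mem_range.mpr hN, fun j hj _ => not_lt.mp fun hh => hex ⟨j, hj, hh⟩⟩
      have a1 : ‖F t‖ ≤ ‖φ i t‖ + 1 := by
        simp only [hF]
        rw [← Finset.add_sum_erase _ _ hi]
        refine (norm_add_le _ _).trans (add_le_add le_rfl ((norm_sum_le _ _).trans ?_))
        have : ∀ j ∈ (Finset.range N).erase i, ‖φ j t‖ ≤ (M : ℝ)⁻¹ * N ^ 2 := fun j hj => by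
          rw [hφn]
          exact bump_tail hN (hfar j (Finset.mem_of_mem_erase hj) (Finset.ne_of_mem_erase hj))
        refine (Finset.sum_le_sum this).trans ?_
        rw [Finset.sum_const, nsmul_eq_mul]
        have b1 : (((Finset.range N).erase i).card : ℝ) ≤ N := by
          exact_mod_cast (Finset.card_erase_le).trans (Finset.card_range N).le
        refine (mul_le_mul_of_nonneg_right b1 (by positivity)).trans (le_of_eq ?_)
        rw [hM]; push_cast; field_simp
      have a2 : ‖F t‖ₑ ≤ ‖φ i t‖ₑ + 1 := by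
        rw [← ofReal_norm_eq_enorm, ← ofReal_norm_eq_enorm, ← ENNReal.ofReal_one,
          ← ENNReal.ofReal_add (norm_nonneg _) zero_le_one]
        exact ENNReal.ofReal_le_ofReal a1
      refine (ENNReal.rpow_le_rpow a2 hp0.le).trans
        ((ENNReal.rpow_add_le_mul_rpow_add_rpow _ _ hp).trans (mul_le_mul_right ?_ _))
      rw [ENNReal.one_rpow]
      exact add_le_add (Finset.single_le_sum (f := fun j => ‖φ j t‖ₑ ^ p) (fun _ _ => zero_le) hi)
        le_rfl
    have hFP : ∫⁻ t, ‖F t‖ₑ ^ p ≤ 2 ^ p * N * P := by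
      refine (lintegral_mono hpt).trans ?_
      have hm : ∀ j, Measurable fun t => ‖φ j t‖ₑ ^ p := fun j =>
        (hφc j).enorm.measurable.pow_const p
      rw [lintegral_const_mul' _ _ (ENNReal.rpow_ne_top_of_nonneg (by linarith) (by simp)),
        lintegral_add_right _ measurable_const, lintegral_finset_sum _ fun j _ => hm j]
      simp only [hφP, Finset.sum_const, Finset.card_range, nsmul_eq_mul, lintegral_const,
        measure_univ, mul_one]
      have b1 : (2 : ℝ≥0∞) ^ p = 2 ^ (p - 1) * 2 := by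
        conv_lhs => rw [show p = (p - 1) + 1 by ring,
          ENNReal.rpow_add_of_nonneg _ _ (by linarith) zero_le_one, ENNReal.rpow_one]
      rw [b1, mul_assoc, mul_assoc, two_mul]
      refine mul_le_mul_right (add_le_add le_rfl ?_) _
      exact one_le_mul (by exact_mod_cast hN) hP1
    have h1 := h ℕ (Finset.range N) J ⟨fun i _ => ⟨_, _, rfl⟩, fun i _ j _ hij => hdis i j hij⟩ F
      (cont_integrable hFc)
    have hqp : ∀ g : T → X, nrm p g ^ q = (∫⁻ t, ‖g t‖ₑ ^ p) ^ (q / p) := fun g => by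
      rw [nrm_eq hp0, ← ENNReal.rpow_mul]; congr 1; ring
    rw [Finset.sum_congr rfl fun i hi => by rw [hDF i hi, hqp, hφP], hqp, Finset.sum_const,
      Finset.card_range, nsmul_eq_mul] at h1
    have h2 := h1.trans (mul_le_mul_right (ENNReal.rpow_le_rpow hFP (by positivity)) _)
    rw [ENNReal.mul_rpow_of_nonneg _ P (by positivity), ← mul_assoc] at h2
    exact (ENNReal.mul_le_mul_iff_left
      (ENNReal.rpow_pos (zero_lt_one.trans_le hP1) hPt).ne'
      (ENNReal.rpow_ne_top_of_nonneg (by positivity) hPt)).mp h2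
  set K : ℝ := C.toReal * (2 ^ p) ^ (q / p) with hK
  have ha : 0 < 1 - q / p := by rw [sub_pos, div_lt_one hp0]; exact hpq
  have key2 : ∀ N : ℕ, 0 < N → (N : ℝ) ^ (1 - q / p) ≤ K := by
    intro N hN
    have hN' : (0 : ℝ) < N := by exact_mod_cast hN
    have h1 := ENNReal.toReal_mono (ENNReal.mul_ne_top hC (ENNReal.rpow_ne_top_of_nonneg
      (by positivity) (ENNReal.mul_ne_top (ENNReal.rpow_ne_top_of_nonneg hp0.le (by simp))
        (by simp)))) (key N hN)
    rw [ENNReal.toReal_mul, ← ENNReal.toReal_rpow, ENNReal.toReal_mul, ← ENNReal.toReal_rpow,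
      ENNReal.toReal_natCast, ENNReal.toReal_ofNat, Real.mul_rpow (by positivity) hN'.le,
      ← mul_assoc, ← hK] at h1
    rw [Real.rpow_sub hN', Real.rpow_one, div_le_iff₀ (by positivity)]
    exact h1
  have ht := (tendsto_rpow_atTop ha).comp tendsto_natCast_atTop_atTop
  obtain ⟨N, hN1, hN2⟩ := ((ht.eventually_gt_atTop K).and (Filter.eventually_gt_atTop 0)).exists
  exact absurd (key2 N hN2) (not_le.mpr hN1)

end Pool.Agent.Lib.MP_b78339_an
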