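import Pool.Agent.Lib.MP_b78339_an.UmdHT
import Pool.Agent.Lib.MP_b78339_an.Nec

set_option autoImplicit false

open MeasureTheory Set
open scoped ENNReal NNReal ComplexConjugate Topology

namespace Pool.Agent.Lib.MP_b78339_an

variable {X : Type*} [NormedAddCommGroup X] [NormedSpace ℂ X]

lemma trigPoly_eq (x : ℤ →₀ X) : trigPoly x = poly x.support x := rfl

open Classical in
lemma normD_eq (p : ℝ) (I : Set ℤ) (x : ℤ →₀ X) :
    normD p I x = nrm p (poly (x.support.filter fun n => n ∈ I) x) := by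
  rw [normD, trigPoly_eq, Finsupp.support_filter]
  change nrm p _ = _
  congr 1
  apply poly_congr
  intro n
  split_ifs with h
  · exact Finsupp.filter_apply_pos _ _ (Finset.mem_filter.mp h).2
  · rfl

lemma isInt_of_ordConnected {J : Finset ℤ} (h : (J : Set ℤ).OrdConnected) : IsInt J := by
  rcases J.eq_empty_or_nonempty with rfl | hne
  · exact ⟨0, 0, by simp⟩
  · refine ⟨J.min' hne, J.max' hne + 1, ?_⟩
    ext n
    rw [Finset.mem_Ico, Int.lt_add_one_iff]
    exact ⟨fun hn => ⟨J.min'_le n hn, J.le_max' n hn⟩, fun hn =>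
      h.out (J.min'_mem hne) (J.max'_mem hne) hn⟩

lemma exists_finsupp (S : Finset ℤ) (x : ℤ → X) : ∃ y : ℤ →₀ X, trigPoly y = poly S x ∧
    y.support ⊆ S := by
  classical
  refine ⟨Finsupp.onFinset S (fun n => if n ∈ S then x n else 0) fun n hn => by
    by_contra h; exact hn (if_neg h), ?_, Finsupp.support_onFinset_subset⟩
  rw [trigPoly_eq]
  apply poly_congr
  intro n
  split_ifs with h1 h2 h2
  · simp [h2]
  · exact absurd (Finsupp.support_onFinset_subset h1) h2
  · have := Finsupp.notMem_support_iff.mp h1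
    simp only [Finsupp.onFinset_apply, if_pos h2] at this
    exact this.symm
  · rfl

def partOf {ι : Type} (s : Finset ι) (J : ι → Finset ℤ) : Set (Set ℤ) :=
  {I | ∃ i ∈ s, (J i).Nonempty ∧ I = J i} ∪ {I | ∃ n, (∀ i ∈ s, n ∉ J i) ∧ I = {n}}

lemma partOf_spec {ι : Type} {s : Finset ι} {J : ι → Finset ℤ} (h : Fam s J) :
    IsIntervalPartition (partOf s J) := by
  refine ⟨⟨?_, fun n => ?_⟩, ?_⟩
  · rintro (⟨i, -, h1, h2⟩ | ⟨n, -, h2⟩)
    · exact h1.to_set.ne_empty h2.symm
    · exact (singleton_ne_empty n) h2.symm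
  · by_cases hn : ∃ i ∈ s, n ∈ J i
    · obtain ⟨i, hi, hn⟩ := hn
      refine ⟨J i, ⟨Or.inl ⟨i, hi, ⟨n, hn⟩, rfl⟩, hn⟩, ?_⟩
      rintro I ⟨⟨j, hj, -, rfl⟩ | ⟨m, hm, rfl⟩, hI⟩
      · by_cases hij : j = i
        · rw [hij]
        · exact absurd hn (Finset.disjoint_left.mp (h.2 hj hi hij) hI)
      · rw [mem_singleton_iff.mp hI] at hn
        exact absurd hn (hm i hi)
    · refine ⟨{n}, ⟨Or.inr ⟨n, fun i hi h => hn ⟨i, hi, h⟩, rfl⟩, rfl⟩, ?_⟩
      rintro I ⟨⟨j, hj, -, rfl⟩ | ⟨m, hm, rfl⟩, hI⟩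
      · exact absurd ⟨j, hj, hI⟩ hn
      · rw [mem_singleton_iff.mp hI]
  · rintro I (⟨i, hi, -, rfl⟩ | ⟨n, -, rfl⟩)
    · obtain ⟨a, b, hab⟩ := h.1 i hi
      rw [hab, Finset.coe_Ico]; exact ordConnected_Ico
    · exact ordConnected_singleton

open Classical in
lemma exists_fam {P : Set (Set ℤ)} (hP : IsIntervalPartition P) (S : Finset ℤ) :
    ∃ J : P → Finset ℤ, (∀ s : Finset P, Fam s J) ∧
      ∀ I : P, J I ∩ S = S.filter fun n => n ∈ (I : Set ℤ) := by
  obtain ⟨N, hN⟩ : ∃ N : ℕ, ∀ n ∈ S, |n| ≤ N := by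
    obtain ⟨N, hN⟩ := (S.image fun n => n.natAbs).bddAbove
    refine ⟨N, fun n hn => ?_⟩
    have := hN (Finset.mem_coe.mpr (Finset.mem_image_of_mem _ hn))
    rw [← Int.natCast_natAbs]; exact_mod_cast this
  refine ⟨fun I => (Finset.Icc (-(N : ℤ)) N).filter fun n => n ∈ (I : Set ℤ),
    fun s => ⟨fun I _ => isInt_of_ordConnected ?_, fun I _ I' _ hne => ?_⟩, fun I => ?_⟩
  · rw [Finset.coe_filter]
    simp only [Finset.mem_Icc]
    exact ordConnected_Icc.inter (hP.2 I I.2)
  · refine Finset.disjoint_left.mpr fun n h1 h2 => hne (Subtype.ext ?_)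
    exact (hP.1.2 n).unique ⟨I.2, (Finset.mem_filter.mp h1).2⟩ ⟨I'.2, (Finset.mem_filter.mp h2).2⟩
  · ext n
    simp only [Finset.mem_inter, Finset.mem_filter, Finset.mem_Icc]
    exact ⟨fun h => ⟨h.2, h.1.2⟩, fun h => ⟨⟨abs_le.mp (hN n h.1), h.2⟩, h.1⟩⟩

lemma root_le {a b C : ℝ≥0∞} {q : ℝ} (hq : 0 < q) (hC : C ≠ ⊤) (h : a ≤ C * b) :
    a ^ (1 / q) ≤ (((C ^ (1 / q)).toNNReal + 1 : ℝ≥0) : ℝ≥0∞) * b ^ (1 / q) := by
  refine (ENNReal.rpow_le_rpow h (by positivity)).trans ?_
  rw [ENNReal.mul_rpow_of_nonneg _ _ (by positivity), ENNReal.coe_add,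
    ENNReal.coe_toNNReal (ENNReal.rpow_ne_top_of_nonneg (by positivity) hC)]
  exact mul_le_mul_left le_self_add _

lemma root_rpow (a : ℝ≥0∞) {q : ℝ} (hq : 0 < q) : (a ^ q) ^ (1 / q) = a := by
  rw [← ENNReal.rpow_mul, mul_one_div_cancel hq.ne', ENNReal.rpow_one]

lemma rpow_root (a : ℝ≥0∞) {q : ℝ} (hq : 0 < q) : (a ^ (1 / q)) ^ q = a := by
  rw [← ENNReal.rpow_mul, one_div_mul_cancel hq.ne', ENNReal.rpow_one]

variable [CompleteSpace X]

lemma normD_coe (p : ℝ) (J : Finset ℤ) (x : ℤ →₀ X) :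
    normD p J x = nrm p (D J (trigPoly x)) := by
  classical
  rw [normD_eq, trigPoly_eq, D_poly]
  congr 2
  ext n; simp [and_comm]

lemma Low.official {q p : ℝ} (hq : 0 < q) (h : Low X q p) : LowerDec X q p := by
  classical
  obtain ⟨C, hC, h⟩ := h
  refine ⟨(C ^ (1 / q)).toNNReal + 1, by positivity, fun P hP x => ?_⟩
  obtain ⟨J, h1, h2⟩ := exists_fam hP x.support
  have : ∑' I : P, normD p I x ^ q ≤ C * nrm p (trigPoly x) ^ q := by
    rw [ENNReal.tsum_eq_iSup_sum]
    refine iSup_le fun s => le_trans (le_of_eq ?_)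
      (h P s J (h1 s) _ (cont_integrable (continuous_poly _ _)))
    refine Finset.sum_congr rfl fun I _ => ?_
    rw [normD_eq, trigPoly_eq, D_poly, h2]
  have h3 := root_le hq hC this
  rwa [root_rpow _ hq] at h3

lemma Up.official {q p : ℝ} (hq : 0 < q) (h : Up X q p) : UpperDec X q p := by
  classical
  obtain ⟨C, hC, h⟩ := h
  refine ⟨(C ^ (1 / q)).toNNReal + 1, by positivity, fun P hP x => ?_⟩
  obtain ⟨J, h1, h2⟩ := exists_fam hP x.support
  choose c hc hcu using fun n => hP.1.2 n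
  set c' : ℤ → P := fun n => ⟨c n, (hc n).1⟩ with hc'
  have key := h P (x.support.image c') J (h1 _) (fun I => D (J I) (trigPoly x)) fun I _ => by
    rw [D_D, Finset.inter_self]
  have e1 : (fun t => ∑ I ∈ x.support.image c', D (J I) (trigPoly x) t) = trigPoly x := by
    ext t
    simp only [trigPoly_eq, D_poly, h2]
    simp only [poly]
    rw [← Finset.sum_fiberwise_of_maps_to (s := x.support) (t := x.support.image c') (g := c')
      fun n hn => Finset.mem_image_of_mem _ hn]
    refine Finset.sum_congr rfl fun I _ => Finset.sum_congr ?_ fun _ _ => rfl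
    refine Finset.filter_congr fun n _ => ⟨fun hn => Subtype.ext (hcu n I ⟨I.2, hn⟩).symm,
      fun hn => hn ▸ (hc n).2⟩
  rw [e1] at key
  have : nrm p (trigPoly x) ^ q ≤ C * ∑' I : P, normD p I x ^ q := by
    refine key.trans (mul_le_mul_right (le_trans (le_of_eq ?_)
      (ENNReal.sum_le_tsum (x.support.image c'))) _)
    refine Finset.sum_congr rfl fun I _ => ?_
    rw [normD_eq, trigPoly_eq, D_poly, h2]
  have h3 := root_le hq hC this
  rwa [root_rpow _ hq] at h3

lemma LowerDec.low {q p : ℝ} (hp : 1 ≤ p) (hq : 0 < q) (h : LowerDec X q p) : Low X q p := by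
  classical
  obtain ⟨L, -, h⟩ := h
  refine Low_of_poly hp hq.le (C := (L : ℝ≥0∞) ^ q)
    (ENNReal.rpow_ne_top_of_nonneg hq.le ENNReal.coe_ne_top) fun ι s J hJ S x => ?_
  obtain ⟨y, hy, -⟩ := exists_finsupp S x
  have h1 := ENNReal.rpow_le_rpow (h _ (partOf_spec hJ) y) hq.le
  rw [rpow_root _ hq, ENNReal.mul_rpow_of_nonneg _ _ hq.le, hy,
    tsum_subtype (partOf s J) fun I => normD p I y ^ q] at h1
  refine le_trans ?_ h1
  set s' := s.filter fun i => (J i).Nonempty with hs'
  rw [← Finset.sum_filter_of_ne (p := fun i => (J i).Nonempty) fun i _ hi => by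
    by_contra hc
    rw [Finset.not_nonempty_iff_eq_empty.mp hc, D_empty, nrm_zero,
      ENNReal.zero_rpow_of_pos hq] at hi
    exact hi rfl]
  refine le_trans (le_of_eq ?_) (ENNReal.sum_le_tsum (s'.image fun i => (J i : Set ℤ)))
  rw [Finset.sum_image fun i hi j hj hij => by
    by_contra hne
    obtain ⟨n, hn⟩ := (Finset.mem_filter.mp hi).2
    exact Finset.disjoint_left.mp (hJ.2 (Finset.mem_filter.mp hi).1 (Finset.mem_filter.mp hj).1
      hne) hn (by rw [← Finset.coe_inj.mp hij]; exact hn)]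
  refine Finset.sum_congr rfl fun i hi => ?_
  rw [indicator_of_mem (show (J i : Set ℤ) ∈ partOf s J from
    Or.inl ⟨i, (Finset.mem_filter.mp hi).1, (Finset.mem_filter.mp hi).2, rfl⟩), normD_coe, hy]

lemma UpperDec.up {q p : ℝ} (hq : 0 < q) (h : UpperDec X q p) : Up X q p := by
  classical
  obtain ⟨U, -, h⟩ := h
  refine ⟨(U : ℝ≥0∞) ^ q, ENNReal.rpow_ne_top_of_nonneg hq.le ENNReal.coe_ne_top,
    fun ι s J hJ g hg => ?_⟩
  have hgc : ∀ i ∈ s, Continuous (g i) := fun i hi => by rw [← hg i hi]; fun_prop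
  set F : T → X := fun t => ∑ i ∈ s, g i t with hF
  have hD : ∀ A : Finset ℤ, D A F = fun t => ∑ i ∈ s, D (A ∩ J i) (g i) t := by
    intro A
    ext t
    rw [hF, D_sum _ _ fun i hi => cont_integrable (hgc i hi)]
    refine Finset.sum_congr rfl fun i hi => ?_
    rw [← D_D, hg i hi]
  obtain ⟨y, hy, hys⟩ := exists_finsupp (s.biUnion J) (fc F)
  have hyF : trigPoly y = F := by
    rw [hy]
    change D _ F = F
    rw [hD]
    ext t
    refine Finset.sum_congr rfl fun i hi => ?_
    rw [Finset.inter_eq_right.mpr (Finset.subset_biUnion_of_mem J hi), hg i hi]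
  have h1 := ENNReal.rpow_le_rpow (h _ (partOf_spec hJ) y) hq.le
  rw [ENNReal.mul_rpow_of_nonneg _ _ hq.le, rpow_root _ hq, hyF,
    tsum_subtype (partOf s J) fun I => normD p I y ^ q] at h1
  refine h1.trans (mul_le_mul_right ?_ _)
  rw [tsum_eq_sum (s := s.image fun i => (J i : Set ℤ)) fun I hI => by
    by_cases hP : I ∈ partOf s J
    · rw [indicator_of_mem hP]
      rcases hP with ⟨i, hi, -, rfl⟩ | ⟨n, hn, rfl⟩
      · exact absurd (Finset.mem_image_of_mem _ hi) hI
      · rw [← Finset.coe_singleton, normD_coe, trigPoly_eq, D_poly,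
          Finset.singleton_inter_of_notMem fun hm => by
            obtain ⟨i, hi, h2⟩ := Finset.mem_biUnion.mp (hys hm)
            exact hn i hi h2]
        have : poly ∅ y = fun _ => 0 := by ext t; simp [poly]
        rw [this, nrm_zero, ENNReal.zero_rpow_of_pos hq]
    · exact indicator_of_notMem hP _]
  refine (Finset.sum_image_le_of_nonneg fun _ _ => zero_le).trans
    (Finset.sum_le_sum fun i hi => (indicator_le_self _ _ _).trans (le_of_eq ?_))
  rw [normD_coe, hyF, hD]
  congr 2
  ext t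
  rw [Finset.sum_eq_single_of_mem i hi, Finset.inter_self, hg i hi]
  intro j hj hji
  rw [Finset.disjoint_iff_inter_eq_empty.mp (hJ.2 hi hj hji.symm), D_empty]

lemma conj_lt {p r : ℝ} (hp : 1 < p) (h : p < r) : r.conjExponent < p.conjExponent := by
  simp only [Real.conjExponent]
  rw [div_lt_div_iff₀ (by linarith) (by linarith)]
  nlinarith

lemma conj_le {p r : ℝ} (hp : 1 < p) (h : p ≤ r) : r.conjExponent ≤ p.conjExponent := by
  rcases h.eq_or_lt with rfl | h
  · exact le_rfl
  · exact (conj_lt hp h).le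

lemma upper_main [Nontrivial X] (hU : UMD X) {p q r : ℝ} (hp : 1 < p) (hq : 1 < q) (hr : 1 < r)
    (h : Up X q p) :
    Up X (q.conjExponent / min (p / r) (p.conjExponent / r.conjExponent)).conjExponent r := by
  obtain ⟨p0, hp0, h0⟩ := hU.ht
  have ht := h0.all hp0 hp
  have hp' := Real.HolderConjugate.conjExponent hp
  have hq' := Real.HolderConjugate.conjExponent hq
  have hr' := Real.HolderConjugate.conjExponent hr
  have hl := Up.dual norms_predual hp'.symm hq'.symm h ht
  have hnt : Nontrivial (X →L[ℂ] ℂ) := by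
    obtain ⟨g, hg, -⟩ := exists_dual_vector' ℂ (0 : X)
    exact ⟨g, 0, fun h => by rw [h, norm_zero] at hg; exact zero_ne_one hg⟩
  have hpq := hl.le_exp hp'.symm.lt.le hq'.symm.pos
  have hp1 : p - 1 ≠ 0 := by linarith
  have hq1 : q - 1 ≠ 0 := by linarith
  have hr1 : r - 1 ≠ 0 := by linarith
  rcases lt_trichotomy r p with h1 | rfl | h1
  · have h2 := conj_lt hr h1
    have h3 : p.conjExponent / r.conjExponent < 1 := (div_lt_one hr'.symm.pos).mpr h2
    have h4 : 0 < p.conjExponent / r.conjExponent := div_pos hp'.symm.pos hr'.symm.pos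
    rw [min_eq_right (h3.le.trans ((one_le_div hr'.pos).mpr h1.le))]
    have h5 : 1 < q.conjExponent / (p.conjExponent / r.conjExponent) := by
      rw [one_lt_div h4]; linarith [hq'.symm.lt]
    have hs := Real.HolderConjugate.conjExponent h5
    refine h.down ht hr h1 hq (not_lt.mp fun hc => absurd (conj_lt hp hc) (not_lt.mpr hpq))
      hs.symm.lt.le ?_
    simp only [one_div]
    rw [hs.symm.one_sub_inv]
    simp only [Real.conjExponent]
    field_simp
  · rw [div_self hr'.ne_zero, div_self hr'.symm.ne_zero, min_self, div_one,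
      hq'.symm.conjExponent_eq]
    exact h
  · have h2 := conj_lt hp h1
    have h3 : p / r < 1 := (div_lt_one hr'.pos).mpr h1
    have h4 : 0 < p / r := div_pos hp'.pos hr'.pos
    rw [min_eq_left (h3.le.trans ((one_le_div hr'.symm.pos).mpr h2.le))]
    have h5 : 1 < q.conjExponent / (p / r) := by
      rw [one_lt_div h4]; linarith [hq'.symm.lt]
    have hs := Real.HolderConjugate.conjExponent h5
    refine Low.dual norms_dual hr' hs.symm (hl.down hr'.symm.lt h2 hpq ?_)
    rw [← hp'.symm.conjugate_eq, ← hr'.symm.div_conj_eq_sub_one]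
    field_simp

lemma lower_main [Nontrivial X] {p q r : ℝ} (hp : 1 < p) (hq : 1 < q) (hr : 1 < r)
    (h : Low X q p) : Low X (q / min (p / r) (p.conjExponent / r.conjExponent)) r := by
  have ht := h.ht (by linarith)
  have hp' := Real.HolderConjugate.conjExponent hp
  have hq' := Real.HolderConjugate.conjExponent hq
  have hr' := Real.HolderConjugate.conjExponent hr
  have hpq := h.le_exp hp.le hq'.pos
  have hp1 : p - 1 ≠ 0 := by linarith
  have hq1 : q - 1 ≠ 0 := by linarith
  have hr1 : r - 1 ≠ 0 := by linarith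
  rcases lt_trichotomy r p with h1 | rfl | h1
  · have h2 := conj_lt hr h1
    have h3 : p.conjExponent / r.conjExponent < 1 := (div_lt_one hr'.symm.pos).mpr h2
    rw [min_eq_right (h3.le.trans ((one_le_div hr'.pos).mpr h1.le))]
    refine h.down hr h1 hpq ?_
    simp only [Real.conjExponent]
    have := hp'.ne_zero
    field_simp
  · rw [div_self hr'.ne_zero, div_self hr'.symm.ne_zero, min_self, div_one]
    exact h
  · have h2 := conj_lt hp h1
    have h3 : p / r < 1 := (div_lt_one hr'.pos).mpr h1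
    have h4 : 0 < p / r := div_pos hp'.pos hr'.pos
    rw [min_eq_left (h3.le.trans ((one_le_div hr'.symm.pos).mpr h2.le))]
    have h5 : 1 < q / (p / r) := by
      rw [one_lt_div h4]; linarith
    have hs := Real.HolderConjugate.conjExponent h5
    have ht' := HT.dual norms_predual hp'.symm ht
    have hu := Low.dual norms_predual hp'.symm hq'.symm h
    refine Up.dual norms_dual hr' hs (hu.down ht' hr'.symm.lt h2 hq'.symm.lt (conj_le hp hpq)
      hs.symm.lt.le ?_) (ht'.down hr'.symm.lt h2)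
    simp only [one_div]
    rw [hs.symm.one_sub_inv, hp'.symm.one_sub_inv, hr'.symm.one_sub_inv, hq'.symm.one_sub_inv]
    have := hp'.ne_zero
    have := hr'.ne_zero
    have := hq'.ne_zero
    field_simp

omit [CompleteSpace X] in
lemma triv [Subsingleton X] (q p : ℝ) (hq : 0 < q) : UpperDec X q p ∧ LowerDec X q p := by
  have h : ∀ x : ℤ →₀ X, eLpNorm (trigPoly x) (ENNReal.ofReal p) volume = 0 := fun x => by
    rw [Subsingleton.elim (trigPoly x) 0, eLpNorm_zero]
  refine ⟨⟨1, one_pos, fun P _ x => by rw [h]; exact zero_le⟩, ⟨1, one_pos, fun P _ x => ?_⟩⟩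
  simp only [normD, h, ENNReal.zero_rpow_of_pos hq, tsum_zero]
  rw [ENNReal.zero_rpow_of_pos (by positivity)]
  exact zero_le

theorem main (hU : UMD X) {p q r : ℝ} (hp : 1 < p) (hq : 1 < q) (hr : 1 < r) :
    (UpperDec X q p → UpperDec X
      (q.conjExponent / min (p / r) (p.conjExponent / r.conjExponent)).conjExponent r) ∧
    (LowerDec X q p → LowerDec X (q / min (p / r) (p.conjExponent / r.conjExponent)) r) := by
  have hp' := Real.HolderConjugate.conjExponent hp
  have hq' := Real.HolderConjugate.conjExponent hq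
  have hr' := Real.HolderConjugate.conjExponent hr
  have h0 : 0 < min (p / r) (p.conjExponent / r.conjExponent) :=
    lt_min (div_pos hp'.pos hr'.pos) (div_pos hp'.symm.pos hr'.symm.pos)
  have h1 : min (p / r) (p.conjExponent / r.conjExponent) ≤ 1 := by
    rcases le_total p r with h | h
    · exact (min_le_left _ _).trans ((div_le_one hr'.pos).mpr h)
    · exact (min_le_right _ _).trans ((div_le_one hr'.symm.pos).mpr (conj_le hr h))
  have h2 : 0 < (q.conjExponent / min (p / r) (p.conjExponent / r.conjExponent)).conjExponent :=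
    (Real.HolderConjugate.conjExponent (by rw [one_lt_div h0]; linarith [hq'.symm.lt])).symm.pos
  have h3 : 0 < q / min (p / r) (p.conjExponent / r.conjExponent) := div_pos hq'.pos h0
  rcases subsingleton_or_nontrivial X with h | h
  · exact ⟨fun _ => (triv _ _ h2).1, fun _ => (triv _ _ h3).2⟩
  · exact ⟨fun h => (upper_main hU hp hq hr (h.up hq'.pos)).official h2,
      fun h => (lower_main hp hq hr (h.low hp.le hq'.pos)).official h3⟩

end Pool.Agent.Lib.MP_b78339_an
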