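import Pool.Agent.Lib.MP_b78339_an.HiCore

set_option autoImplicit false

open MeasureTheory Set
open scoped ENNReal NNReal ComplexConjugate Topology

namespace Pool.Agent.Lib.MP_b78339_an

namespace T98

lemma no_growth {K : ℝ≥0∞} (hK : K ≠ ⊤) {a : ℝ} (ha0 : 0 ≤ a) (ha : a < 1)
    (h : ∀ N : ℕ, 0 < N → (N : ℝ≥0∞) ≤ K * (N : ℝ≥0∞) ^ a) : False := by
  have key : ∀ N : ℕ, 0 < N → (N : ℝ) ^ (1 - a) ≤ K.toReal := by
    intro N hN
    have hN' : (0 : ℝ) < N := by exact_mod_cast hN
    have h1 := ENNReal.toReal_mono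
      (ENNReal.mul_ne_top hK (ENNReal.rpow_ne_top_of_nonneg ha0 (by simp))) (h N hN)
    rw [ENNReal.toReal_mul, ← ENNReal.toReal_rpow, ENNReal.toReal_natCast] at h1
    rw [Real.rpow_sub hN', Real.rpow_one, div_le_iff₀ (by positivity)]
    exact h1
  have ht := (tendsto_rpow_atTop (sub_pos.mpr ha)).comp tendsto_natCast_atTop_atTop
  obtain ⟨N, hN1, hN2⟩ :=
    ((ht.eventually_gt_atTop K.toReal).and (Filter.eventually_gt_atTop 0)).exists
  exact absurd (key N hN2) (not_le.mpr hN1)

lemma bump_far {N : ℕ} (hN : 0 < N) (t : T) : ∃ i ∈ Finset.range N,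
    ∑ j ∈ (Finset.range N).erase i, ‖bump (N ^ 3) (t - (((j : ℝ) / N : ℝ) : T))‖ ≤ 1 := by
  have hN' : (0 : ℝ) < N := by exact_mod_cast hN
  obtain ⟨i, hi, hfar⟩ : ∃ i ∈ Finset.range N, ∀ j ∈ Finset.range N, j ≠ i →
      1 / (2 * (N : ℝ)) ≤ ‖t - (((j : ℝ) / N : ℝ) : T)‖ := by
    by_cases hex : ∃ i ∈ Finset.range N, ‖t - (((i : ℝ) / N : ℝ) : T)‖ < 1 / (2 * (N : ℝ))
    · obtain ⟨i, hi, hlt⟩ := hex
      refine ⟨i, hi, fun j hj hji => ?_⟩
      have a1 := sep_points (Finset.mem_range.mp hj) (Finset.mem_range.mp hi) hji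
      have a2 := norm_sub_le_norm_sub_add_norm_sub (((j : ℝ) / N : ℝ) : T) t
        (((i : ℝ) / N : ℝ) : T)
      rw [norm_sub_rev _ t] at a2
      have a3 : 1 / (N : ℝ) = 1 / (2 * N) + 1 / (2 * N) := by field_simp; ring
      linarith
    · exact ⟨0, Finset.mem_range.mpr hN, fun j hj _ => not_lt.mp fun hh => hex ⟨j, hj, hh⟩⟩
  refine ⟨i, hi, (Finset.sum_le_sum fun j hj => bump_tail hN
    (hfar j (Finset.mem_of_mem_erase hj) (Finset.ne_of_mem_erase hj))).trans ?_⟩
  rw [Finset.sum_const, nsmul_eq_mul]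
  have b1 : (((Finset.range N).erase i).card : ℝ) ≤ N := by
    exact_mod_cast (Finset.card_erase_le).trans (Finset.card_range N).le
  refine (mul_le_mul_of_nonneg_right b1 (by positivity)).trans (le_of_eq ?_)
  push_cast; field_simp

variable {X : Type*} [NormedAddCommGroup X] [NormedSpace ℂ X] [CompleteSpace X]

lemma up_le_exp [Nontrivial X] {q p : ℝ} (h : Up X q p) (hp : 1 ≤ p) (hq : 0 < q) : q ≤ p := by
  classical
  by_contra hpq
  rw [not_le] at hpq
  have hp0 : 0 < p := by linarith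
  obtain ⟨C, hC, h⟩ := h
  obtain ⟨v, hv⟩ := exists_norm_eq X zero_le_one
  have t2 : (2 : ℝ≥0∞) ^ (p - 1) ≠ ⊤ := ENNReal.rpow_ne_top_of_nonneg (by linarith) (by simp)
  have tC : C ^ (p / q) ≠ ⊤ := ENNReal.rpow_ne_top_of_nonneg (by positivity) hC
  refine no_growth (K := 2 ^ (p - 1) * C ^ (p / q) + (2 ^ (p - 1) + 1)) (a := p / q)
    (by finiteness) (by positivity) ((div_lt_one hq).mpr hpq) fun N hN => ?_
  set M := N ^ 3 with hM
  have hM0 : 0 < M := by positivity
  set c : ℕ → T := fun j => (((j : ℝ) / N : ℝ) : T) with hc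
  set J : ℕ → Finset ℤ := fun j => Finset.Ico (2 * M * j : ℤ) (2 * M * j + 2 * M) with hJ
  set φ : ℕ → T → X := fun j t => e (2 * M * j) t • bump M (t - c j) • v with hφ
  have hφc : ∀ j, Continuous (φ j) := fun j => by simp only [hφ]; fun_prop
  have hφn : ∀ j t, ‖φ j t‖ = ‖bump M (t - c j)‖ := fun j t => by
    simp only [hφ]; rw [norm_e_smul, norm_smul, hv, mul_one]
  have hdis : ∀ i j, i ≠ j → Disjoint (J i) (J j) := by
    intro i j hij
    rw [Finset.disjoint_left]
    intro n h1 h2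
    simp only [hJ, Finset.mem_Ico] at h1 h2
    have : (0 : ℤ) < M := by exact_mod_cast hM0
    rcases lt_or_gt_of_ne hij with h3 | h3
    · have : (i : ℤ) + 1 ≤ j := by exact_mod_cast h3
      nlinarith
    · have : (j : ℤ) + 1 ≤ i := by exact_mod_cast h3
      nlinarith
  set P := ∫⁻ t, ‖bump M t‖ₑ ^ p with hP
  have hP1 : 1 ≤ P := by
    rw [hP, ← nrm_rpow hp0]
    refine ENNReal.one_le_rpow ?_ hp0
    rw [← bump_one hM0]
    exact nrm_one_le hp (continuous_bump M).aestronglyMeasurable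
  have hPt : P ≠ ⊤ := by
    rw [hP, ← nrm_rpow hp0]
    exact ENNReal.rpow_ne_top_of_nonneg hp0.le (nrm_ne_top (continuous_bump M))
  have hφP : ∀ j, ∫⁻ t, ‖φ j t‖ₑ ^ p = P := by
    intro j
    simp only [enorm_rpow_eq _ hp0.le, hφn, hP]
    exact lintegral_sub_right_eq_self (fun t => ENNReal.ofReal (‖bump M t‖ ^ p)) (c j)
  have hFc : Continuous fun t => ∑ j ∈ Finset.range N, φ j t :=
    continuous_finset_sum _ fun j _ => hφc j
  have hpt : ∀ t, ∑ j ∈ Finset.range N, ‖φ j t‖ₑ ^ p ≤
      2 ^ (p - 1) * ‖∑ j ∈ Finset.range N, φ j t‖ₑ ^ p + (2 ^ (p - 1) + 1) := by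
    intro t
    obtain ⟨i, hi, hfar⟩ := bump_far hN t
    have a0 : ∑ j ∈ (Finset.range N).erase i, ‖φ j t‖ ≤ 1 := by
      simp only [hφn]; exact hfar
    have a1 : ‖φ i t‖ ≤ ‖∑ j ∈ Finset.range N, φ j t‖ + 1 := by
      rw [← Finset.add_sum_erase _ _ hi]
      linarith [norm_sum_le ((Finset.range N).erase i) fun j => φ j t,
        norm_le_add_norm_add (φ i t) (∑ j ∈ (Finset.range N).erase i, φ j t)]
    have a2 : ‖φ i t‖ₑ ≤ ‖∑ j ∈ Finset.range N, φ j t‖ₑ + 1 := by
      rw [← ofReal_norm_eq_enorm, ← ofReal_norm_eq_enorm, ← ENNReal.ofReal_one,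
        ← ENNReal.ofReal_add (norm_nonneg _) zero_le_one]
      exact ENNReal.ofReal_le_ofReal a1
    have a3 := (ENNReal.rpow_le_rpow a2 hp0.le).trans
      (ENNReal.rpow_add_le_mul_rpow_add_rpow _ _ hp)
    rw [ENNReal.one_rpow, mul_add, mul_one] at a3
    rw [← Finset.add_sum_erase _ _ hi, ← add_assoc]
    refine add_le_add a3 ?_
    simp only [enorm_rpow_eq _ hp0.le]
    rw [← ENNReal.ofReal_sum_of_nonneg fun j _ => by positivity, ENNReal.ofReal_le_one]
    refine (Finset.sum_le_sum fun j hj => ?_).trans a0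
    exact Real.rpow_le_self_of_le_one (norm_nonneg _) ((Finset.single_le_sum
      (f := fun j => ‖φ j t‖) (fun _ _ => norm_nonneg _) hj).trans a0) hp
  have h1 := lintegral_mono (μ := volume) hpt
  rw [lintegral_finset_sum _ fun j _ => (hφc j).enorm.measurable.pow_const p,
    lintegral_add_right _ measurable_const, lintegral_const_mul' _ _ t2] at h1
  simp only [hφP, Finset.sum_const, Finset.card_range, nsmul_eq_mul, lintegral_const,
    measure_univ, mul_one] at h1
  have h2 := ENNReal.rpow_le_rpow (h ℕ (Finset.range N) J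
    ⟨fun i _ => ⟨_, _, rfl⟩, fun i _ j _ hij => hdis i j hij⟩ φ fun j _ => D_bump M _ _ v)
    (z := p / q) (by positivity)
  have hqp : ∀ j, nrm p (φ j) ^ q = P ^ (q / p) := fun j => by
    rw [nrm_eq hp0, hφP, ← ENNReal.rpow_mul]; congr 1; ring
  simp only [hqp, Finset.sum_const, Finset.card_range, nsmul_eq_mul] at h2
  rw [← ENNReal.rpow_mul, mul_div_cancel₀ _ hq.ne', nrm_rpow hp0,
    ENNReal.mul_rpow_of_nonneg _ _ (by positivity), ENNReal.mul_rpow_of_nonneg _ _ (by positivity),
    ← ENNReal.rpow_mul, show q / p * (p / q) = 1 by field_simp, ENNReal.rpow_one] at h2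
  have h3 : 1 ≤ (N : ℝ≥0∞) ^ (p / q) * P :=
    one_le_mul (ENNReal.one_le_rpow (by exact_mod_cast hN) (by positivity)) hP1
  refine (ENNReal.mul_le_mul_iff_left (zero_lt_one.trans_le hP1).ne' hPt).mp (h1.trans ?_)
  rw [mul_assoc, add_mul _ (_ + _), mul_assoc]
  exact add_le_add (mul_le_mul_right h2 _) (le_mul_of_one_le_right' h3)

lemma upper_all [Nontrivial X] {p q r : ℝ} (hp : 1 < p) (hq : 1 < q) (hr : 1 < r)
    (h : Up X q p) :
    Up X (q.conjExponent / min (p / r) (p.conjExponent / r.conjExponent)).conjExponent r := by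
  have hp' := Real.HolderConjugate.conjExponent hp
  have hq' := Real.HolderConjugate.conjExponent hq
  have hr' := Real.HolderConjugate.conjExponent hr
  have hqp := up_le_exp h hp.le hq'.pos
  have hp1 : p - 1 ≠ 0 := by linarith
  have hq1 : q - 1 ≠ 0 := by linarith
  have hr1 : r - 1 ≠ 0 := by linarith
  rcases lt_trichotomy r p with h1 | rfl | h1
  · have h2 := conj_lt hr h1
    have h3 : p.conjExponent / r.conjExponent < 1 := (div_lt_one hr'.symm.pos).mpr h2
    have h4 : 0 < p.conjExponent / r.conjExponent := div_pos hp'.symm.pos hr'.symm.pos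
    rw [min_eq_right (h3.le.trans ((one_le_div hr'.pos).mpr h1.le))]
    have h5 : 1 < q.conjExponent / (p.conjExponent / r.conjExponent) := by
      rw [one_lt_div h4]; linarith [hq'.symm.lt]
    have hs := Real.HolderConjugate.conjExponent h5
    refine up_lo h hr h1 hq hqp hs.symm.lt.le ?_
    simp only [one_div]
    rw [hs.symm.one_sub_inv]
    simp only [Real.conjExponent]
    field_simp
  · rw [div_self hr'.ne_zero, div_self hr'.symm.ne_zero, min_self, div_one,
      hq'.symm.conjExponent_eq]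
    exact h
  · have h2 := conj_lt hp h1
    have h3 : p / r < 1 := (div_lt_one hr'.pos).mpr h1
    have h4 : 0 < p / r := div_pos hp'.pos hr'.pos
    rw [min_eq_left (h3.le.trans ((one_le_div hr'.symm.pos).mpr h2.le))]
    have h5 : 1 < q.conjExponent / (p / r) := by
      rw [one_lt_div h4]; linarith [hq'.symm.lt]
    have hs := Real.HolderConjugate.conjExponent h5
    refine up_hi h hp.le h1 hq'.pos hqp hs.symm.lt.le ?_
    have h6 := hs.symm.one_sub_inv
    have h7 := hs.symm.ne_zero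
    have h8 := hq'.ne_zero
    have h9 := hr'.ne_zero
    generalize (q.conjExponent / (p / r)).conjExponent = s at h6 h7
    simp only [Real.conjExponent] at h6
    have := hp'.ne_zero
    field_simp at h6 ⊢
    linear_combination h6

theorem main_all {p q r : ℝ} (hp : 1 < p) (hq : 1 < q) (hr : 1 < r) :
    (UpperDec X q p → UpperDec X
      (q.conjExponent / min (p / r) (p.conjExponent / r.conjExponent)).conjExponent r) ∧
    (LowerDec X q p → LowerDec X (q / min (p / r) (p.conjExponent / r.conjExponent)) r) := by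
  have hp' := Real.HolderConjugate.conjExponent hp
  have hq' := Real.HolderConjugate.conjExponent hq
  have hr' := Real.HolderConjugate.conjExponent hr
  have h0 : 0 < min (p / r) (p.conjExponent / r.conjExponent) :=
    lt_min (div_pos hp'.pos hr'.pos) (div_pos hp'.symm.pos hr'.symm.pos)
  have h1 : min (p / r) (p.conjExponent / r.conjExponent) ≤ 1 := by
    rcases le_total p r with h | h
    · exact (min_le_left _ _).trans ((div_le_one hr'.pos).mpr h)
    · exact (min_le_right _ _).trans ((div_le_one hr'.symm.pos).mpr (conj_le hr h))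
  have h2 : 0 < (q.conjExponent / min (p / r) (p.conjExponent / r.conjExponent)).conjExponent :=
    (Real.HolderConjugate.conjExponent (by rw [one_lt_div h0]; linarith [hq'.symm.lt])).symm.pos
  have h3 : 0 < q / min (p / r) (p.conjExponent / r.conjExponent) := div_pos hq'.pos h0
  rcases subsingleton_or_nontrivial X with h | h
  · exact ⟨fun _ => (triv _ _ h2).1, fun _ => (triv _ _ h3).2⟩
  · exact ⟨fun h => (upper_all hp hq hr (h.up hq'.pos)).official h2,
      fun h => (lower_main hp hq hr (h.low hp.le hq'.pos)).official h3⟩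

end T98

end Pool.Agent.Lib.MP_b78339_an
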