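import Pool.Agent.Lib.MP_b78339_an.Weak

set_option autoImplicit false

open MeasureTheory Set
open scoped ENNReal NNReal ComplexConjugate Topology

namespace Pool.Agent.Lib.MP_b78339_an

variable {X : Type*} [NormedAddCommGroup X] [NormedSpace ℂ X]

lemma sum_anti {Ω : Type} [Fintype Ω] {E : Type*} [AddCommGroup E] [Module ℝ E] (τ : Ω ≃ Ω)
    (F : Ω → E) (h : ∀ ω, F (τ ω) = -F ω) : ∑ ω, F ω = 0 := by
  have h1 : ∑ ω, F ω = -∑ ω, F ω := by
    conv_lhs => rw [← Equiv.sum_comp τ F]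
    simp only [h, Finset.sum_neg_distrib]
  have h2 : (2 : ℝ) • ∑ ω, F ω = 0 := by
    rw [two_smul]; nth_rewrite 1 [h1]; exact neg_add_cancel _
  exact (smul_eq_zero.mp h2).resolve_left two_ne_zero

/-- Finite form of the UMD inequality. -/
def UMDc (X : Type*) [NormedAddCommGroup X] [NormedSpace ℂ X] (p β : ℝ) : Prop :=
  ∀ (Ω : Type) [Fintype Ω] [Nonempty Ω] (τ : ℕ → Ω ≃ Ω) (d : ℕ → Ω → X),
    (∀ k ω, d k (τ k ω) = -d k ω) → (∀ k j ω, k < j → d k (τ j ω) = d k ω) →
    ∀ ε : ℕ → ℂ, (∀ k, ε k = 1 ∨ ε k = -1) → ∀ n : ℕ,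
      ∑ ω, ‖∑ k ∈ Finset.range n, ε k • d k ω‖ ^ p ≤
        β ^ p * ∑ ω, ‖∑ k ∈ Finset.range n, d k ω‖ ^ p

lemma UMD.fin [CompleteSpace X] (h : UMD X) : ∃ p β : ℝ, 1 < p ∧ 0 ≤ β ∧ UMDc X p β := by
  classical
  obtain ⟨p, hp, β, h⟩ := h
  refine ⟨p, β, hp, β.2, fun Ω _ _ τ d h1 h2 ε hε n => ?_⟩
  have hp0 : 0 < p := by linarith
  let m : MeasurableSpace Ω := ⊤
  set c : ℝ≥0∞ := (Fintype.card Ω : ℝ≥0∞)⁻¹ with hc
  have hcard : (Fintype.card Ω : ℝ≥0∞) ≠ 0 := by exact_mod_cast Fintype.card_ne_zero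
  set μ : Measure Ω := c • Measure.count with hμ
  have hμ1 : ∀ ω, μ {ω} = c := fun ω => by simp [hμ]
  have hprob : IsProbabilityMeasure μ := ⟨by
    rw [hμ, Measure.smul_apply, Measure.count_univ, smul_eq_mul, hc]
    simp only [ENat.card_eq_coe_fintype_card, ENat.toENNReal_coe]
    exact ENNReal.inv_mul_cancel hcard (by simp)⟩
  let ℱ : Filtration ℕ m :=
    { seq := fun k =>
        { MeasurableSet' := fun A => ∀ j, k ≤ j → τ j ⁻¹' A = A
          measurableSet_empty := fun _ _ => rfl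
          measurableSet_compl := fun A hA j hj => by rw [preimage_compl, hA j hj]
          measurableSet_iUnion := fun A hA j hj => by
            rw [preimage_iUnion]; exact iUnion_congr fun i => hA i j hj }
      mono' := fun a b hab A hA j hj => hA j (hab.trans hj)
      le' := fun _ => le_top }
  set f : ℕ → Ω → X := fun n ω => ∑ k ∈ Finset.range n, d k ω with hf
  have hinv : ∀ i j ω, i ≤ j → f i (τ j ω) = f i ω := fun i j ω hij =>
    Finset.sum_congr rfl fun k hk => h2 k j ω ((Finset.mem_range.mp hk).trans_le hij)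
  have hsm : ∀ i, StronglyMeasurable[ℱ i] (f i) := by
    intro i
    borelize X
    refine stronglyMeasurable_iff_measurable_separable.mpr ⟨fun s _ j hj => ?_,
      (finite_range _).isSeparable⟩
    ext ω
    simp only [mem_preimage, hinv i j ω hj]
  have hmart : Martingale f ℱ μ := by
    refine ⟨hsm, fun i j hij => ?_⟩
    refine (ae_eq_condExp_of_forall_setIntegral_eq (ℱ.le i) Integrable.of_finite
      (fun s _ _ => Integrable.of_finite) (fun s hs _ => ?_) (hsm i).aestronglyMeasurable).symm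
    have key : ∀ k, i ≤ k → ∫ x in s, d k x ∂μ = 0 := by
      intro k hk
      rw [← integral_indicator MeasurableSet.of_discrete, integral_fintype Integrable.of_finite]
      simp only [Measure.real, hμ1]
      rw [← Finset.smul_sum, sum_anti (τ k), smul_zero]
      intro ω
      have : τ k ω ∈ s ↔ ω ∈ s := by rw [← mem_preimage, hs k hk]
      by_cases hω : ω ∈ s
      · rw [indicator_of_mem hω, indicator_of_mem (this.mpr hω), h1]
      · rw [indicator_of_notMem hω, indicator_of_notMem (fun h => hω (this.mp h)), neg_zero]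
    induction j, hij using Nat.le_induction with
    | base => rfl
    | succ j hj ih =>
      rw [ih]
      simp only [hf, Finset.sum_range_succ]
      rw [integral_add Integrable.of_finite Integrable.of_finite, key j hj, add_zero]
  have main := h Ω m μ hprob ℱ f hmart (fun n => MemLp.of_discrete) ε hε n
  have hd : ∀ k ω, f (k + 1) ω - f k ω = d k ω := fun k ω => by
    simp [hf, Finset.sum_range_succ]
  simp only [hd] at main
  have hn : ∀ g : Ω → X, eLpNorm g (ENNReal.ofReal p) μ ^ p =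
      ENNReal.ofReal (∑ ω, ‖g ω‖ ^ p) * c := by
    intro g
    rw [eLpNorm_eq_lintegral_rpow_enorm_toReal (by simpa using hp0) ENNReal.ofReal_ne_top,
      ENNReal.toReal_ofReal hp0.le, ← ENNReal.rpow_mul, one_div_mul_cancel hp0.ne',
      ENNReal.rpow_one, lintegral_fintype]
    simp only [hμ1, enorm_rpow_eq _ hp0.le]
    rw [← Finset.sum_mul, ENNReal.ofReal_sum_of_nonneg fun _ _ => by positivity]
  have m2 := ENNReal.rpow_le_rpow main hp0.le
  rw [ENNReal.mul_rpow_of_nonneg _ _ hp0.le, hn, hn, ← mul_assoc,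
    ENNReal.mul_le_mul_iff_left (by simp [hc]) (by simp [hc, hcard]),
    ← ENNReal.ofReal_coe_nnreal, ENNReal.ofReal_rpow_of_nonneg β.coe_nonneg hp0.le,
    ← ENNReal.ofReal_mul (by positivity), ENNReal.ofReal_le_ofReal_iff (by positivity)] at m2
  exact m2

abbrev Sq := Bool × Bool

abbrev Om (N : ℕ) := Fin N → Sq

noncomputable def val {N : ℕ} (h : Sq → ℂ) (k : ℕ) (ω : Om N) : ℂ :=
  if hk : k < N then h (ω ⟨k, hk⟩) else 0

def act {N : ℕ} (g : Sq ≃ Sq) (k : ℕ) : Om N ≃ Om N :=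
  Equiv.piCongrRight fun j => if (j : ℕ) = k then g else Equiv.refl _

def Pred {N : ℕ} {E : Type*} (k : ℕ) (F : Om N → E) : Prop :=
  ∀ ω ω' : Om N, (∀ j : Fin N, (j : ℕ) < k → ω j = ω' j) → F ω = F ω'

lemma act_ne {N : ℕ} (g : Sq ≃ Sq) {k : ℕ} (ω : Om N) {j : Fin N} (h : (j : ℕ) ≠ k) :
    act g k ω j = ω j := by simp [act, h]

lemma val_act {N : ℕ} (h : Sq → ℂ) (g : Sq ≃ Sq) (k : ℕ) (ω : Om N) :
    val h k (act g k ω) = val (fun b => h (g b)) k ω := by
  unfold val; split_ifs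
  · simp [act]
  · rfl

lemma val_act_ne {N : ℕ} (h : Sq → ℂ) (g : Sq ≃ Sq) {k j : ℕ} (hkj : k ≠ j) (ω : Om N) :
    val h k (act g j ω) = val h k ω := by
  unfold val; split_ifs
  · rw [act_ne g ω hkj]
  · rfl

lemma val_neg {N : ℕ} (h : Sq → ℂ) (k : ℕ) (ω : Om N) :
    val (fun b => -h b) k ω = -val h k ω := by
  unfold val; split_ifs <;> simp

lemma Pred.act {N : ℕ} {E : Type*} {k : ℕ} {F : Om N → E} (h : Pred k F) (g : Sq ≃ Sq) {j : ℕ}
    (hj : k ≤ j) (ω : Om N) : F (act g j ω) = F ω :=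
  h _ _ fun i hi => act_ne g ω (by omega)

lemma pred_val {N : ℕ} (h : Sq → ℂ) (k : ℕ) : Pred (N := N) (k + 1) (val h k) := by
  intro ω ω' hω
  unfold val; split_ifs with hk
  · rw [hω ⟨k, hk⟩ (Nat.lt_succ_self k)]
  · rfl

lemma Pred.mono {N : ℕ} {E : Type*} {k j : ℕ} {F : Om N → E} (h : Pred k F) (hkj : k ≤ j) :
    Pred j F := fun ω ω' hω => h ω ω' fun i hi => hω i (by omega)

lemma sum_range_two {E : Type*} [AddCommMonoid E] (F : ℕ → E) (n : ℕ) :
    ∑ m ∈ Finset.range (2 * n), F m = ∑ k ∈ Finset.range n, (F (2 * k) + F (2 * k + 1)) := by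
  induction n with
  | zero => simp
  | succ n ih =>
    rw [Finset.sum_range_succ, ← ih, Nat.mul_succ, Finset.sum_range_succ, Finset.sum_range_succ,
      add_assoc]

lemma umd_two {p β : ℝ} (h : UMDc X p β) {N : ℕ} (h1 h2 : Sq → ℂ) (g1 g2 : Sq ≃ Sq)
    (e1 : ∀ b, h1 (g1 b) = -h1 b) (e2 : ∀ b, h1 (g2 b) = h1 b) (e3 : ∀ b, h2 (g2 b) = -h2 b)
    (A B : ℕ → Om N → X) (hA : ∀ k, Pred k (A k)) (hB : ∀ k, Pred k (B k)) :
    ∑ ω, ‖∑ k ∈ Finset.range N, (val h1 k ω • A k ω - val h2 k ω • B k ω)‖ ^ p ≤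
      β ^ p * ∑ ω, ‖∑ k ∈ Finset.range N, (val h1 k ω • A k ω + val h2 k ω • B k ω)‖ ^ p := by
  have := h (Om N) (fun m => act (if m % 2 = 0 then g1 else g2) (m / 2))
    (fun m ω => if m % 2 = 0 then val h1 (m / 2) ω • A (m / 2) ω else val h2 (m / 2) ω • B (m / 2) ω)
    (fun m ω => by
      split_ifs
      · rw [val_act, (hA _).act _ le_rfl]; simp only [e1, val_neg, neg_smul]
      · rw [val_act, (hB _).act _ le_rfl]; simp only [e3, val_neg, neg_smul])
    (fun m j ω hmj => by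
      have hle : m / 2 ≤ j / 2 := by omega
      by_cases hm : m % 2 = 0
      · rw [if_pos hm, if_pos hm, (hA _).act _ hle]
        by_cases hj : m / 2 = j / 2
        · rw [if_neg (by omega), ← hj, val_act]; simp only [e2]
        · rw [val_act_ne _ _ hj]
      · rw [if_neg hm, if_neg hm, (hB _).act _ hle, val_act_ne _ _ (by omega)])
    (fun m => if m % 2 = 0 then 1 else -1) (fun m => by split_ifs <;> simp) (2 * N)
  simp only [sum_range_two] at this
  have a1 : ∀ k : ℕ, 2 * k % 2 = 0 := fun k => by omega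
  have a2 : ∀ k : ℕ, ¬ (2 * k + 1) % 2 = 0 := fun k => by omega
  have a3 : ∀ k : ℕ, 2 * k / 2 = k := fun k => by omega
  have a4 : ∀ k : ℕ, (2 * k + 1) / 2 = k := fun k => by omega
  simpa only [a1, a2, a3, a4, if_true, if_false, one_smul, neg_smul, ← sub_eq_add_neg] using this

noncomputable def sg (b : Bool) : ℂ := if b then 1 else -1

noncomputable def ww (b : Sq) : ℂ := sg b.1 + Complex.I * sg b.2

def flipA : Sq ≃ Sq := Equiv.prodCongr Equiv.boolNot Equiv.boolNot

def flipB : Sq ≃ Sq := Equiv.prodCongr (Equiv.refl _) Equiv.boolNot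

lemma sg_not (b : Bool) : sg (!b) = -sg b := by cases b <;> simp [sg]

lemma conj_sg (b : Bool) : conj (sg b) = sg b := by cases b <;> simp [sg]

lemma val_lin {N : ℕ} (h1 h2 : Sq → ℂ) (a b : ℂ) (k : ℕ) (ω : Om N) :
    val (fun x => a * h1 x + b * h2 x) k ω = a * val h1 k ω + b * val h2 k ω := by
  unfold val; split_ifs <;> simp

lemma conj_val_ww {N : ℕ} (k : ℕ) (ω : Om N) :
    conj (val ww k ω) = val (fun x => sg x.1) k ω - Complex.I * val (fun x => sg x.2) k ω := by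
  unfold val; split_ifs
  · simp only [ww, map_add, map_mul, conj_sg, Complex.conj_I]; ring
  · simp

lemma val_ww {N : ℕ} (k : ℕ) (ω : Om N) :
    val ww k ω = val (fun x => sg x.1) k ω + Complex.I * val (fun x => sg x.2) k ω := by
  unfold val; split_ifs
  · rfl
  · simp

lemma umd_analytic {p β : ℝ} (hp : 0 ≤ p) (hβ : 0 ≤ β) (h : UMDc X p β) {N : ℕ}
    (α γ : ℕ → Om N → X) (hα : ∀ k, Pred k (α k)) (hγ : ∀ k, Pred k (γ k)) :
    ∑ ω, ‖∑ k ∈ Finset.range N, val ww k ω • α k ω‖ ^ p ≤ (1 + β ^ p * β ^ p) *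
      ∑ ω, ‖∑ k ∈ Finset.range N, (val ww k ω • α k ω + conj (val ww k ω) • γ k ω)‖ ^ p := by
  set A : ℕ → Om N → X := fun k ω => α k ω + γ k ω with hA
  set B : ℕ → Om N → X := fun k ω => Complex.I • (α k ω - γ k ω) with hB
  have pA : ∀ k, Pred k (A k) := fun k ω ω' hω => by simp only [hA, hα k ω ω' hω, hγ k ω ω' hω]
  have pB : ∀ k, Pred k (B k) := fun k ω ω' hω => by simp only [hB, hα k ω ω' hω, hγ k ω ω' hω]
  have t1 := umd_two h (fun x => sg x.1) (fun x => sg x.2) flipA flipB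
    (fun b => sg_not _) (fun b => rfl) (fun b => sg_not _) A B pA pB
  have t2 := umd_two h (fun x => (1 / 2) * sg x.1 + (1 / 2) * sg x.2)
    (fun x => (1 / 2) * sg x.1 + (-1 / 2) * sg x.2) flipA (Equiv.prodComm _ _)
    (fun b => by
      change (1 / 2) * sg (!b.1) + (1 / 2) * sg (!b.2) = _
      rw [sg_not, sg_not]; ring)
    (fun b => by
      change (1 / 2) * sg b.2 + (1 / 2) * sg b.1 = _
      ring)
    (fun b => by
      change (1 / 2) * sg b.2 + (-1 / 2) * sg b.1 = _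
      ring)
    (fun k ω => A k ω - B k ω) (fun k ω => A k ω + B k ω)
    (fun k ω ω' hω => by simp only [pA k ω ω' hω, pB k ω ω' hω])
    (fun k ω ω' hω => by simp only [pA k ω ω' hω, pB k ω ω' hω])
  simp only [val_lin] at t2
  set a : ℕ → Om N → ℂ := fun k ω => val (fun x => sg x.1) k ω with ha
  set b : ℕ → Om N → ℂ := fun k ω => val (fun x => sg x.2) k ω with hb
  have c1 : ∀ k ω, (1 / 2 * a k ω + 1 / 2 * b k ω) • (A k ω - B k ω) +
      (1 / 2 * a k ω + -1 / 2 * b k ω) • (A k ω + B k ω) = a k ω • A k ω - b k ω • B k ω := by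
    intro k ω; module
  have c2 : ∀ k ω, val ww k ω • α k ω + conj (val ww k ω) • γ k ω =
      a k ω • A k ω + b k ω • B k ω := by
    intro k ω
    rw [conj_val_ww, val_ww]
    simp only [hA, hB, ha, hb]
    module
  have c3 : ∀ k ω, val ww k ω • α k ω = (1 / 2 : ℂ) • (a k ω • A k ω + b k ω • B k ω) +
      (Complex.I / 2) • ((1 / 2 * a k ω + 1 / 2 * b k ω) • (A k ω - B k ω) -
        (1 / 2 * a k ω + -1 / 2 * b k ω) • (A k ω + B k ω)) := by
    intro k ω
    rw [val_ww]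
    simp only [hA, hB, ha, hb]
    match_scalars
    · linear_combination (val (fun x => sg x.1) k ω / 2) * Complex.I_mul_I
    · linear_combination (-val (fun x => sg x.1) k ω / 2) * Complex.I_mul_I
  simp only [c2]
  have t1' : ∑ ω, ‖∑ k ∈ Finset.range N, ((1 / 2 * a k ω + 1 / 2 * b k ω) • (A k ω - B k ω) +
      (1 / 2 * a k ω + -1 / 2 * b k ω) • (A k ω + B k ω))‖ ^ p ≤
      β ^ p * ∑ ω, ‖∑ k ∈ Finset.range N, (a k ω • A k ω + b k ω • B k ω)‖ ^ p := by
    simp only [c1]; exact t1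
  have t3 := t2.trans (mul_le_mul_of_nonneg_left t1' (by positivity))
  rw [add_mul, one_mul, mul_assoc]
  refine le_trans ?_ (add_le_add le_rfl t3)
  rw [← Finset.sum_add_distrib]
  refine Finset.sum_le_sum fun ω _ => ?_
  simp only [c3]
  rw [Finset.sum_add_distrib, ← Finset.smul_sum, ← Finset.smul_sum]
  set U := ∑ k ∈ Finset.range N, (a k ω • A k ω + b k ω • B k ω)
  set V := ∑ k ∈ Finset.range N, ((1 / 2 * a k ω + 1 / 2 * b k ω) • (A k ω - B k ω) -
        (1 / 2 * a k ω + -1 / 2 * b k ω) • (A k ω + B k ω))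
  have d1 : ‖(1 / 2 : ℂ) • U + (Complex.I / 2) • V‖ ≤ max ‖U‖ ‖V‖ := by
    refine (norm_add_le _ _).trans ?_
    rw [norm_smul, norm_smul]
    simp only [norm_div, norm_one, Complex.norm_ofNat, Complex.norm_I]
    linarith [le_max_left ‖U‖ ‖V‖, le_max_right ‖U‖ ‖V‖]
  refine (Real.rpow_le_rpow (norm_nonneg _) d1 hp).trans ?_
  rcases le_total ‖U‖ ‖V‖ with h | h
  · rw [max_eq_right h]; exact le_add_of_nonneg_left (by positivity)
  · rw [max_eq_left h]; exact le_add_of_nonneg_right (by positivity)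

end Pool.Agent.Lib.MP_b78339_an
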