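import Pool.Agent.Lib.MP_b78339_an.Walk
import Pool.Agent.Lib.MP_b78339_an.LowCore

set_option autoImplicit false

open MeasureTheory Set
open scoped ENNReal NNReal ComplexConjugate Topology

namespace Pool.Agent.Lib.MP_b78339_an

variable {X : Type*} [NormedAddCommGroup X] [NormedSpace ℂ X]

noncomputable def PP {ι : Type*} (φ : ℂ →+* ℂ) (S : Finset ι) (k : ι → ℕ) (x : ι → X) (z : ℂ) : X :=
  ∑ i ∈ S, φ z ^ k i • x i

lemma vector_decomp {ι : Type*} (S : Finset ι) (k : ι → ℕ) (hk : ∀ i ∈ S, 1 ≤ k i) {p : ℝ}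
    (hp : 0 < p) (φ : ℂ →+* ℂ) (hφ : ∀ z, ‖φ z‖ = ‖z‖) : ∃ C : ℝ, 0 ≤ C ∧ ∀ K m : ℕ,
    1 ≤ K → 2 ≤ m → ∀ (M : ℝ) (x : ι → X), 0 ≤ M → (∀ i ∈ S, ‖x i‖ ≤ M) →
      ∃ α : ℕ → Om (K * m ^ 2) → X, (∀ j, Pred j (α j)) ∧
      ∑ ω, ‖PP φ S k x (Z (1 / m) ω (K * m ^ 2)) -
        ∑ j ∈ Finset.range (K * m ^ 2), φ (val ww j ω) • α j ω‖ ^ p ≤
        Fintype.card (Om (K * m ^ 2)) * (C * M ^ p * ((K : ℝ) / m) ^ p) := by
  classical
  induction S using Finset.induction_on with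
  | empty =>
    refine ⟨0, le_rfl, fun K m _ _ M x _ _ => ⟨fun _ _ => 0, fun _ _ _ _ => rfl, ?_⟩⟩
    simp [PP, Real.zero_rpow hp.ne']
  | insert i S hi ih =>
    obtain ⟨C1, hC1, H1⟩ := ih fun j hj => hk j (Finset.mem_insert_of_mem hj)
    obtain ⟨C2, hC2, H2⟩ := scalar_decomp (hk i (Finset.mem_insert_self i S)) hp
    refine ⟨2 ^ p * (C2 + C1), by positivity, fun K m hK hm M x hM hx => ?_⟩
    obtain ⟨α1, p1, q1⟩ := H1 K m hK hm M x hM fun j hj => hx j (Finset.mem_insert_of_mem hj)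
    obtain ⟨α2, p2, q2⟩ := H2 K m hK hm
    refine ⟨fun j ω => φ (α2 j ω) • x i + α1 j ω, fun j ω ω' h => by
      simp only [p1 j ω ω' h, p2 j ω ω' h], ?_⟩
    generalize K * m ^ 2 = N at α1 α2 p1 p2 q1 q2 ⊢
    have e1 : ∀ ω : Om N, PP φ (insert i S) k x (Z (1 / m) ω N) -
        ∑ j ∈ Finset.range N, φ (val ww j ω) • (φ (α2 j ω) • x i + α1 j ω) =
        φ (Z (1 / m) ω N ^ k i - ∑ j ∈ Finset.range N, val ww j ω * α2 j ω) • x i +
          (PP φ S k x (Z (1 / m) ω N) - ∑ j ∈ Finset.range N, φ (val ww j ω) • α1 j ω) := by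
      intro ω
      simp only [PP, Finset.sum_insert hi, smul_add, Finset.sum_add_distrib, map_sub, map_pow,
        map_sum, map_mul, sub_smul, Finset.sum_smul, mul_smul]
      abel
    simp only [e1]
    refine (Finset.sum_le_sum fun ω _ => npow_add_le hp.le _ _).trans ?_
    rw [← Finset.mul_sum, Finset.sum_add_distrib]
    have a1 : ∑ ω : Om N, ‖φ (Z (1 / m) ω N ^ k i - ∑ j ∈ Finset.range N, val ww j ω * α2 j ω) •
        x i‖ ^ p ≤ Fintype.card (Om N) * (C2 * ((K : ℝ) / m) ^ p) * M ^ p := by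
      refine le_trans ?_ (mul_le_mul_of_nonneg_right q2 (by positivity))
      rw [Finset.sum_mul]
      refine Finset.sum_le_sum fun ω _ => ?_
      rw [norm_smul, hφ, Real.mul_rpow (norm_nonneg _) (norm_nonneg _)]
      exact mul_le_mul_of_nonneg_left (Real.rpow_le_rpow (norm_nonneg _)
        (hx i (Finset.mem_insert_self i S)) hp.le) (by positivity)
    refine (mul_le_mul_of_nonneg_left (add_le_add a1 q1) (by positivity)).trans (le_of_eq ?_)
    ring

lemma walk_core {p β : ℝ} (hp : 0 < p) (hβ : 0 ≤ β) (h : UMDc X p β) {ι : Type*}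
    (S S' : Finset ι) (k l : ι → ℕ) (hk : ∀ i ∈ S, 1 ≤ k i) (hl : ∀ i ∈ S', 1 ≤ l i) :
    ∃ C : ℝ, 0 ≤ C ∧ ∀ K m : ℕ, 1 ≤ K → 2 ≤ m → ∀ (M : ℝ) (x y : ι → X), 0 ≤ M →
      (∀ i ∈ S, ‖x i‖ ≤ M) → (∀ i ∈ S', ‖y i‖ ≤ M) →
      ∑ ω : Om (K * m ^ 2), ‖PP (RingHom.id ℂ) S k x (Z (1 / m) ω (K * m ^ 2))‖ ^ p ≤
        2 ^ p * (1 + β ^ p * β ^ p) * 2 ^ p *
          ∑ ω : Om (K * m ^ 2), ‖PP (RingHom.id ℂ) S k x (Z (1 / m) ω (K * m ^ 2)) +
            PP (starRingEnd ℂ) S' l y (Z (1 / m) ω (K * m ^ 2))‖ ^ p +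
        Fintype.card (Om (K * m ^ 2)) * (C * M ^ p * ((K : ℝ) / m) ^ p) := by
  obtain ⟨C1, hC1, H1⟩ := vector_decomp (X := X) S k hk hp (RingHom.id ℂ) fun _ => rfl
  obtain ⟨C2, hC2, H2⟩ := vector_decomp (X := X) S' l hl hp (starRingEnd ℂ) Complex.norm_conj
  set c := 1 + β ^ p * β ^ p with hc
  have hc0 : 0 ≤ c := by positivity
  refine ⟨2 ^ p * (c * (2 ^ p * (2 ^ p * (C1 + C2))) + C1), by positivity,
    fun K m hK hm M x y hM hx hy => ?_⟩
  obtain ⟨α, p1, q1⟩ := H1 K m hK hm M x hM hx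
  obtain ⟨γ, p2, q2⟩ := H2 K m hK hm M y hM hy
  have q3 := umd_analytic hp.le hβ h α γ p1 p2
  generalize K * m ^ 2 = N at α γ p1 p2 q1 q2 q3 ⊢
  set g : Om N → X := fun ω => PP (RingHom.id ℂ) S k x (Z (1 / m) ω N) with hg
  set f : Om N → X := fun ω => PP (starRingEnd ℂ) S' l y (Z (1 / m) ω N) with hf
  set A : Om N → X := fun ω => ∑ j ∈ Finset.range N, val ww j ω • α j ω with hA
  set B : Om N → X := fun ω => ∑ j ∈ Finset.range N, conj (val ww j ω) • γ j ω with hB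
  simp only [Finset.sum_add_distrib] at q3
  change ∑ ω, ‖g ω - A ω‖ ^ p ≤ _ at q1
  change ∑ ω, ‖f ω - B ω‖ ^ p ≤ _ at q2
  change ∑ ω, ‖A ω‖ ^ p ≤ c * ∑ ω, ‖A ω + B ω‖ ^ p at q3
  change ∑ ω, ‖g ω‖ ^ p ≤ 2 ^ p * c * 2 ^ p * ∑ ω, ‖g ω + f ω‖ ^ p + _
  have a1 : ∑ ω, ‖g ω‖ ^ p ≤ 2 ^ p * (∑ ω, ‖A ω‖ ^ p + ∑ ω, ‖g ω - A ω‖ ^ p) := by
    rw [← Finset.sum_add_distrib, Finset.mul_sum]
    refine Finset.sum_le_sum fun ω _ => ?_
    simpa using npow_add_le hp.le (A ω) (g ω - A ω)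
  have a2 : ∑ ω, ‖A ω + B ω‖ ^ p ≤ 2 ^ p * (∑ ω, ‖g ω + f ω‖ ^ p +
      2 ^ p * (∑ ω, ‖g ω - A ω‖ ^ p + ∑ ω, ‖f ω - B ω‖ ^ p)) := by
    rw [← Finset.sum_add_distrib, Finset.mul_sum, ← Finset.sum_add_distrib, Finset.mul_sum]
    refine Finset.sum_le_sum fun ω _ => ?_
    have b1 := npow_add_le hp.le (g ω + f ω) (-((g ω - A ω) + (f ω - B ω)))
    rw [norm_neg, show g ω + f ω + -((g ω - A ω) + (f ω - B ω)) = A ω + B ω by abel] at b1
    exact b1.trans (mul_le_mul_of_nonneg_left (add_le_add le_rfl (npow_add_le hp.le _ _))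
      (by positivity))
  have h2 : (0 : ℝ) ≤ 2 ^ p := by positivity
  refine (a1.trans (mul_le_mul_of_nonneg_left (add_le_add (q3.trans (mul_le_mul_of_nonneg_left
    (a2.trans (mul_le_mul_of_nonneg_left (add_le_add le_rfl (mul_le_mul_of_nonneg_left
      (add_le_add q1 q2) h2)) h2)) hc0)) q1) h2)).trans (le_of_eq ?_)
  ring

lemma exists_near {z : ℂ} {δ : ℝ} (hδ : δ ≤ 1 / 2) (h1 : 1 ≤ ‖z‖) (h2 : ‖z‖ ≤ 1 + 2 * δ) :
    ∃ s : T, ∀ n : ℕ, ‖z ^ n - e 1 s ^ n‖ ≤ 2 ^ n * n * δ := by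
  have hz : 0 < ‖z‖ := by linarith
  obtain ⟨θ, hθ⟩ := (Complex.norm_eq_one_iff (z / ‖z‖)).mp (by
    rw [norm_div, Complex.norm_real, norm_norm, div_self hz.ne'])
  have he : e 1 ((θ / (2 * Real.pi) : ℝ) : T) = z / ‖z‖ := by
    rw [e, fourier_coe_apply, ← hθ]
    congr 1
    have : (Real.pi : ℂ) ≠ 0 := by exact_mod_cast Real.pi_ne_zero
    push_cast; field_simp
  refine ⟨((θ / (2 * Real.pi) : ℝ) : T), fun n => ?_⟩
  set u := e 1 ((θ / (2 * Real.pi) : ℝ) : T)
  have hu : ‖u‖ = 1 := norm_e _ _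
  have h3 : ‖z - u‖ ≤ 2 * δ := by
    have : z - u = ((‖z‖ - 1 : ℝ) : ℂ) * u := by
      have hz' : ((‖z‖ : ℝ) : ℂ) ≠ 0 := by exact_mod_cast hz.ne'
      rw [he]; push_cast; field_simp
    rw [this, norm_mul, hu, mul_one, Complex.norm_real, Real.norm_of_nonneg (by linarith)]
    linarith
  have h4 := norm_pow_sub_le (z := z / 2) (w := u / 2)
    (by rw [norm_div, Complex.norm_ofNat]; linarith)
    (by rw [norm_div, Complex.norm_ofNat]; linarith) n
  rw [div_pow, div_pow, ← sub_div, ← sub_div, norm_div, norm_div, norm_pow, Complex.norm_ofNat,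
    div_le_iff₀ (by positivity)] at h4
  refine h4.trans ?_
  have h5 : (n : ℝ) * (‖z - u‖ / 2) ≤ n * δ :=
    mul_le_mul_of_nonneg_left (by linarith) (by positivity)
  nlinarith [mul_le_mul_of_nonneg_right h5 (show (0 : ℝ) ≤ 2 ^ n by positivity)]

lemma PP_mul {ι : Type*} (φ : ℂ →+* ℂ) (S : Finset ι) (k : ι → ℕ) (x : ι → X) (ζ z : ℂ) :
    PP φ S k (fun i => φ ζ ^ k i • x i) z = PP φ S k x (ζ * z) := by
  simp only [PP, map_mul, mul_pow, smul_smul, mul_comm]

lemma PP_near {ι : Type*} (φ : ℂ →+* ℂ) (hφ : ∀ z, ‖φ z‖ = ‖z‖) (S : Finset ι) (k : ι → ℕ)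
    (x : ι → X) {M δ : ℝ} (hx : ∀ i ∈ S, ‖x i‖ ≤ M) {z : ℂ} {s : T}
    (h : ∀ n : ℕ, ‖z ^ n - e 1 s ^ n‖ ≤ 2 ^ n * n * δ) (t : T) :
    ‖PP φ S k x (e 1 t * z) - PP φ S k x (e 1 (t + s))‖ ≤
      (∑ i ∈ S, (2 : ℝ) ^ k i * k i) * M * δ := by
  simp only [PP]
  rw [← Finset.sum_sub_distrib, Finset.sum_mul, Finset.sum_mul]
  refine (norm_sum_le _ _).trans (Finset.sum_le_sum fun i hi => ?_)
  rw [← sub_smul, norm_smul, ← map_pow, ← map_pow, ← map_sub, hφ, e_add_pt, mul_pow, mul_pow,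
    ← mul_sub, norm_mul, norm_pow, norm_e, one_pow, one_mul, mul_right_comm]
  exact mul_le_mul (h _) (hx i hi) (norm_nonneg _) ((norm_nonneg _).trans (h _))

lemma PP_bound {ι : Type*} (φ : ℂ →+* ℂ) (hφ : ∀ z, ‖φ z‖ = ‖z‖) (S : Finset ι) (k : ι → ℕ)
    (x : ι → X) {M : ℝ} (hx : ∀ i ∈ S, ‖x i‖ ≤ M) {z : ℂ} (hz : ‖z‖ ≤ 1) :
    ‖PP φ S k x z‖ ≤ S.card * M := by
  refine (norm_sum_le _ _).trans ((Finset.sum_le_sum fun i hi => ?_).trans
    (by rw [Finset.sum_const, nsmul_eq_mul]))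
  rw [norm_smul, norm_pow, hφ]
  exact (mul_le_of_le_one_left (norm_nonneg _) (pow_le_one₀ (norm_nonneg _) hz)).trans (hx i hi)

lemma continuous_PP {ι : Type*} (φ : ℂ →+* ℂ) (hφ : Continuous φ) (S : Finset ι) (k : ι → ℕ)
    (x : ι → X) : Continuous (PP φ S k x) := by
  unfold PP; fun_prop

lemma le_of_limit {x y A B p : ℝ} (hp : 0 < p)
    (h : ∀ K m : ℕ, 4 ≤ K → 2 ≤ m → x ≤ y + A / K + B * ((K : ℝ) / m) ^ p) : x ≤ y := by
  have h1 : Filter.Tendsto (fun K : ℕ => y + A / K + B * ((K : ℝ)⁻¹) ^ p) Filter.atTop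
      (𝓝 (y + 0 + B * 0)) := by
    refine (tendsto_const_nhds.add (tendsto_const_div_atTop_nhds_zero_nat A)).add
      (Filter.Tendsto.const_mul B ?_)
    have := (tendsto_inv_atTop_nhds_zero_nat (𝕜 := ℝ)).rpow_const (p := p) (Or.inr hp.le)
    rwa [Real.zero_rpow hp.ne'] at this
  rw [add_zero, mul_zero, add_zero] at h1
  refine ge_of_tendsto h1 ?_
  filter_upwards [Filter.eventually_ge_atTop 4] with K hK
  have := h K (K ^ 2) hK (by nlinarith)
  have hK0 : (K : ℝ) ≠ 0 := by positivity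
  rwa [show (K : ℝ) / ((K ^ 2 : ℕ) : ℝ) = (K : ℝ)⁻¹ by push_cast; field_simp] at this

lemma riesz_real {p β : ℝ} (hp : 0 < p) (hβ : 0 ≤ β) (h : UMDc X p β) {ι : Type*}
    (S S' : Finset ι) (k l : ι → ℕ) (hk : ∀ i ∈ S, 1 ≤ k i) (hl : ∀ i ∈ S', 1 ≤ l i)
    (x y : ι → X) : ∫ t, ‖PP (RingHom.id ℂ) S k x (e 1 t)‖ ^ p ≤
      2 * (2 ^ p * (2 ^ p * (1 + β ^ p * β ^ p) * 2 ^ p * 2 ^ p)) *
        ∫ t, ‖PP (RingHom.id ℂ) S k x (e 1 t) + PP (starRingEnd ℂ) S' l y (e 1 t)‖ ^ p := by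
  classical
  obtain ⟨C, hC, H⟩ := walk_core hp hβ h S S' k l hk hl
  set c1 := 2 ^ p * (1 + β ^ p * β ^ p) * 2 ^ p with hc1
  have hc0 : 0 ≤ c1 := by positivity
  set M := ∑ i ∈ S, ‖x i‖ + ∑ i ∈ S', ‖y i‖ with hM
  have hM0 : 0 ≤ M := by positivity
  have hx : ∀ i ∈ S, ‖x i‖ ≤ M := fun i hi => (Finset.single_le_sum (f := fun i => ‖x i‖)
    (fun _ _ => norm_nonneg _) hi).trans (le_add_of_nonneg_right (by positivity))
  have hy : ∀ i ∈ S', ‖y i‖ ≤ M := fun i hi => (Finset.single_le_sum (f := fun i => ‖y i‖)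
    (fun _ _ => norm_nonneg _) hi).trans (le_add_of_nonneg_left (by positivity))
  set g := PP (RingHom.id ℂ) S k x with hg
  set f := PP (starRingEnd ℂ) S' l y with hf
  have hgc : Continuous g := continuous_PP _ continuous_id _ _ _
  have hfc : Continuous f := continuous_PP _ Complex.continuous_conj _ _ _
  have hpc : ∀ {u : T → X}, Continuous u → Continuous fun t => ‖u t‖ ^ p := fun hu =>
    hu.norm.rpow_const fun _ => Or.inr hp.le
  set L1 := (∑ i ∈ S, (2 : ℝ) ^ k i * k i) * M with hL1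
  set L2 := (∑ i ∈ S', (2 : ℝ) ^ l i * l i) * M with hL2
  have hL10 : 0 ≤ L1 := by positivity
  have hL20 : 0 ≤ L2 := by positivity
  set R := (S.card * M + S'.card * M) ^ p with hR
  have hR0 : 0 ≤ R := by positivity
  set IG := ∫ t, ‖g (e 1 t)‖ ^ p with hIG
  set IF := ∫ t, ‖g (e 1 t) + f (e 1 t)‖ ^ p with hIF
  have hIG0 : 0 ≤ IG := integral_nonneg fun t => by positivity
  have hIF0 : 0 ≤ IF := integral_nonneg fun t => by positivity
  refine le_of_limit hp (A := 2 * (2 ^ p * (c1 * R * 2)))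
    (B := 2 * (2 ^ p * (c1 * 2 ^ p * (L1 + L2) ^ p + C * M ^ p + L1 ^ p))) fun K m hK hm => ?_
  set N := K * m ^ 2 with hN
  set δ : ℝ := 1 / m with hδ
  have hm' : (2 : ℝ) ≤ m := by exact_mod_cast hm
  have hK' : (4 : ℝ) ≤ K := by exact_mod_cast hK
  have hδ0 : 0 < δ := by positivity
  have hδ1 : δ ≤ 1 / 2 := one_div_le_one_div_of_le two_pos hm'
  set η := (K : ℝ) / m with hη
  have hδη : δ ≤ η := div_le_div_of_nonneg_right (by linarith) (by positivity)
  have hη0 : 0 ≤ η := by positivity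
  set bad := Finset.univ.filter fun ω : Om N => ‖Z δ ω N‖ < 1 with hbad
  set n : ℝ := (Fintype.card (Om N) : ℝ) with hn
  have hn0 : 0 < n := by rw [hn]; exact_mod_cast Fintype.card_pos
  have hb : (bad.card : ℝ) ≤ 2 * n / K := by
    have := hitting (N := N) hδ0.le hδ1
    have e : (N : ℝ) * δ ^ 2 = K := by rw [hN, hδ]; push_cast; field_simp
    rw [e] at this
    rw [le_div_iff₀ (by positivity), mul_comm]
    exact this
  have a1 : ∑ ω : Om N, ∫ t, ‖g (e 1 t * Z δ ω N)‖ ^ p ≤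
      c1 * ∑ ω : Om N, (∫ t, ‖g (e 1 t * Z δ ω N) + f (e 1 t * Z δ ω N)‖ ^ p) +
        n * (C * M ^ p * η ^ p) := by
    have i1 : ∀ ω : Om N, Integrable fun t => ‖g (e 1 t * Z δ ω N)‖ ^ p := fun ω =>
      cont_integrable (hpc (by fun_prop))
    have i2 : ∀ ω : Om N, Integrable fun t => ‖g (e 1 t * Z δ ω N) + f (e 1 t * Z δ ω N)‖ ^ p :=
      fun ω => cont_integrable (hpc (by fun_prop))
    rw [← integral_finset_sum _ fun ω _ => i1 ω, ← integral_finset_sum _ fun ω _ => i2 ω,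
      ← integral_const_mul]
    have : n * (C * M ^ p * η ^ p) = ∫ _ : T, n * (C * M ^ p * η ^ p) := by simp
    rw [this, ← integral_add ((integrable_finset_sum _ fun ω _ => i2 ω).const_mul _)
      (integrable_const _)]
    refine integral_mono (integrable_finset_sum _ fun ω _ => i1 ω)
      (((integrable_finset_sum _ fun ω _ => i2 ω).const_mul _).add (integrable_const _)) fun t => ?_
    have := H K m (by omega) hm M (fun i => (RingHom.id ℂ) (e 1 t) ^ k i • x i)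
      (fun i => (starRingEnd ℂ) (e 1 t) ^ l i • y i) hM0
      (fun i hi => by rw [norm_smul, norm_pow, RingHom.id_apply, norm_e]; simpa using hx i hi)
      (fun i hi => by rw [norm_smul, norm_pow, Complex.norm_conj, norm_e]; simpa using hy i hi)
    simp only [PP_mul] at this
    exact this
  have good : ∀ ω : Om N, ω ∉ bad → IG ≤ 2 ^ p * ((∫ t, ‖g (e 1 t * Z δ ω N)‖ ^ p) + L1 ^ p * η ^ p)
      ∧ ∫ t, ‖g (e 1 t * Z δ ω N) + f (e 1 t * Z δ ω N)‖ ^ p ≤
        2 ^ p * (IF + (L1 + L2) ^ p * η ^ p) := by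
    intro ω hω
    simp only [hbad, Finset.mem_filter, Finset.mem_univ, true_and, not_lt] at hω
    obtain ⟨s, hs⟩ := exists_near hδ1 hω (norm_Z_le hδ0.le ω N)
    have b1 := fun t => PP_near (RingHom.id ℂ) (fun _ => rfl) S k x hx hs t
    have b2 := fun t => PP_near (starRingEnd ℂ) Complex.norm_conj S' l y hy hs t
    rw [← hg, ← hL1] at b1
    rw [← hf, ← hL2] at b2
    have aux : ∀ (u v : T → X) (L : ℝ), Continuous u → Continuous v → 0 ≤ L →
        (∀ t, ‖u t - v t‖ ≤ L * δ) → ∫ t, ‖u t‖ ^ p ≤ 2 ^ p * ((∫ t, ‖v t‖ ^ p) + L ^ p * η ^ p) := by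
      intro u v L hu hv hL huv
      have : (∫ t, ‖v t‖ ^ p) + L ^ p * η ^ p = ∫ t, (‖v t‖ ^ p + L ^ p * η ^ p) := by
        rw [integral_add (cont_integrable (hpc hv)) (integrable_const _)]; simp
      rw [this, ← integral_const_mul]
      refine integral_mono (cont_integrable (hpc hu))
        (((cont_integrable (hpc hv)).add (integrable_const _)).const_mul _) fun t => ?_
      have c1 := npow_add_le hp.le (v t) (u t - v t)
      rw [add_sub_cancel] at c1
      refine c1.trans (mul_le_mul_of_nonneg_left (add_le_add le_rfl ?_) (by positivity))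
      rw [← Real.mul_rpow hL hη0]
      exact Real.rpow_le_rpow (norm_nonneg _) ((huv t).trans (mul_le_mul_of_nonneg_left hδη hL))
        hp.le
    constructor
    · rw [hIG, ← integral_add_right_eq_self (fun t => ‖g (e 1 t)‖ ^ p) s]
      exact aux _ _ L1 (by fun_prop) (by fun_prop) hL10 fun t => by
        rw [norm_sub_rev]; exact b1 t
    · rw [hIF, ← integral_add_right_eq_self (fun t => ‖g (e 1 t) + f (e 1 t)‖ ^ p) s]
      exact aux _ _ (L1 + L2) (by fun_prop) (by fun_prop) (by positivity) fun t => by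
        rw [add_sub_add_comm, add_mul]
        exact (norm_add_le _ _).trans (add_le_add (b1 t) (b2 t))
  have a2 : ∀ ω : Om N, ω ∈ bad → ∫ t, ‖g (e 1 t * Z δ ω N) + f (e 1 t * Z δ ω N)‖ ^ p ≤ R := by
    intro ω hω
    have h1 : ∀ t, ‖e 1 t * Z δ ω N‖ ≤ 1 := fun t => by
      rw [norm_mul, norm_e, one_mul]; exact (Finset.mem_filter.mp hω).2.le
    have : R = ∫ _ : T, R := by simp
    rw [this]
    refine integral_mono (cont_integrable (hpc (by fun_prop))) (integrable_const _) fun t => ?_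
    exact Real.rpow_le_rpow (norm_nonneg _) ((norm_add_le _ _).trans (add_le_add
      (PP_bound _ (fun _ => rfl) S k x hx (h1 t))
      (PP_bound _ Complex.norm_conj S' l y hy (h1 t)))) hp.le
  have a3 : ∑ ω : Om N, (∫ t, ‖g (e 1 t * Z δ ω N) + f (e 1 t * Z δ ω N)‖ ^ p) ≤
      n * (2 ^ p * (IF + (L1 + L2) ^ p * η ^ p)) + bad.card * R := by
    have : ∀ ω : Om N, (∫ t, ‖g (e 1 t * Z δ ω N) + f (e 1 t * Z δ ω N)‖ ^ p) ≤
        2 ^ p * (IF + (L1 + L2) ^ p * η ^ p) + if ω ∈ bad then R else 0 := fun ω => by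
      split_ifs with hω
      · exact (a2 ω hω).trans (le_add_of_nonneg_left (by positivity))
      · simpa using (good ω hω).2
    refine (Finset.sum_le_sum fun ω _ => this ω).trans (le_of_eq ?_)
    rw [Finset.sum_add_distrib, Finset.sum_const, Finset.card_univ, nsmul_eq_mul,
      Finset.sum_ite_mem, Finset.univ_inter, Finset.sum_const, nsmul_eq_mul]
  have a4 : n * IG ≤ 2 ^ p * (∑ ω : Om N, (∫ t, ‖g (e 1 t * Z δ ω N)‖ ^ p) +
      n * (L1 ^ p * η ^ p)) + bad.card * IG := by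
    have : ∀ ω : Om N, IG ≤ 2 ^ p * ((∫ t, ‖g (e 1 t * Z δ ω N)‖ ^ p) + L1 ^ p * η ^ p) +
        if ω ∈ bad then IG else 0 := fun ω => by
      split_ifs with hω
      · exact le_add_of_nonneg_left (mul_nonneg (by positivity) (add_nonneg
          (integral_nonneg fun t => by positivity) (by positivity)))
      · simpa using (good ω hω).1
    have := Finset.sum_le_sum fun ω (_ : ω ∈ Finset.univ) => this ω
    rwa [Finset.sum_const, Finset.card_univ, nsmul_eq_mul, Finset.sum_add_distrib,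
      ← Finset.mul_sum, Finset.sum_add_distrib, Finset.sum_const, Finset.card_univ, nsmul_eq_mul,
      Finset.sum_ite_mem, Finset.univ_inter, Finset.sum_const, nsmul_eq_mul] at this
  have a5 : (bad.card : ℝ) * IG ≤ n / 2 * IG := by
    refine mul_le_mul_of_nonneg_right (hb.trans ?_) hIG0
    rw [div_le_div_iff₀ (by positivity) two_pos]; nlinarith
  have h2 : (0 : ℝ) ≤ 2 ^ p := by positivity
  have a6 := mul_le_mul_of_nonneg_left (add_le_add (a1.trans (add_le_add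
    (mul_le_mul_of_nonneg_left (a3.trans (add_le_add le_rfl
      (mul_le_mul_of_nonneg_right hb hR0))) hc0) le_rfl)) (le_refl (n * (L1 ^ p * η ^ p)))) h2
  have a7 : n / 2 * IG ≤ n / 2 * (2 * (2 ^ p * (c1 * 2 ^ p)) * IF + 2 * (2 ^ p * (c1 * R * 2)) / K +
      2 * (2 ^ p * (c1 * 2 ^ p * (L1 + L2) ^ p + C * M ^ p + L1 ^ p)) * η ^ p) := by
    have e : n / 2 * (2 * (2 ^ p * (c1 * 2 ^ p)) * IF + 2 * (2 ^ p * (c1 * R * 2)) / K +
        2 * (2 ^ p * (c1 * 2 ^ p * (L1 + L2) ^ p + C * M ^ p + L1 ^ p)) * η ^ p) =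
        2 ^ p * (c1 * (n * (2 ^ p * (IF + (L1 + L2) ^ p * η ^ p)) + 2 * n / K * R) +
          n * (C * M ^ p * η ^ p) + n * (L1 ^ p * η ^ p)) := by ring
    rw [e]; linarith
  exact le_of_mul_le_mul_left a7 (by positivity)

lemma lint_rpow_cont {E : Type*} [NormedAddCommGroup E] {p : ℝ} (hp : 0 ≤ p) {f : T → E}
    (hf : Continuous f) : ∫⁻ t, ‖f t‖ₑ ^ p = ENNReal.ofReal (∫ t, ‖f t‖ ^ p) := by
  simp only [enorm_rpow_eq _ hp]
  exact (ofReal_integral_eq_lintegral_ofReal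
    (cont_integrable (hf.norm.rpow_const fun _ => Or.inr hp))
    (ae_of_all _ fun t => by positivity)).symm

variable [CompleteSpace X]

lemma riesz_poly {p β : ℝ} (hp : 1 ≤ p) (hβ : 0 ≤ β) (h : UMDc X p β) : ∃ C : ℝ≥0∞, C ≠ ⊤ ∧
    ∀ (c : ℤ) (S : Finset ℤ) (x : ℤ → X),
      nrm p (poly (S.filter fun n => c < n) x) ≤ C * nrm p (poly S x) := by
  have hp0 : 0 < p := by linarith
  set A : ℝ := 2 * (2 ^ p * (2 ^ p * (1 + β ^ p * β ^ p) * 2 ^ p * 2 ^ p)) with hA
  refine ⟨ENNReal.ofReal A ^ (1 / p) * 2, ENNReal.mul_ne_top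
    (ENNReal.rpow_ne_top_of_nonneg (by positivity) ENNReal.ofReal_ne_top) (by simp),
    fun c S x => ?_⟩
  have key := riesz_real hp0 hβ h (S.filter fun n => c < n) (S.filter fun n => n < c)
    (fun n => (n - c).toNat) (fun n => (c - n).toNat)
    (fun n hn => by have := (Finset.mem_filter.mp hn).2; omega)
    (fun n hn => by have := (Finset.mem_filter.mp hn).2; omega) x x
  have e1 : ∀ t, PP (RingHom.id ℂ) (S.filter fun n => c < n) (fun n => (n - c).toNat) x (e 1 t) =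
      e (-c) t • poly (S.filter fun n => c < n) x t := by
    intro t
    simp only [PP, poly, Finset.smul_sum, smul_smul, RingHom.id_apply, ← e_nat, ← e_add]
    refine Finset.sum_congr rfl fun n hn => ?_
    have := (Finset.mem_filter.mp hn).2
    congr 2; omega
  have e2 : ∀ t, PP (starRingEnd ℂ) (S.filter fun n => n < c) (fun n => (c - n).toNat) x (e 1 t) =
      e (-c) t • poly (S.filter fun n => n < c) x t := by
    intro t
    simp only [PP, poly, Finset.smul_sum, smul_smul, ← e_add]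
    refine Finset.sum_congr rfl fun n hn => ?_
    have := (Finset.mem_filter.mp hn).2
    rw [← map_pow, ← e_nat, conj_e, show -(((c - n).toNat : ℕ) : ℤ) = -c + n by omega]
  have e3 : ∀ t, poly (S.filter fun n => c < n) x t + poly (S.filter fun n => n < c) x t =
      poly S x t - e c t • fc (poly S x) c := by
    intro t
    have : ∀ n, e n t • x n = (if c < n then e n t • x n else 0) +
        (if n < c then e n t • x n else 0) + if n = c then e n t • x n else 0 := by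
      intro n
      rcases lt_trichotomy c n with h1 | h1 | h1
      · rw [if_pos h1, if_neg (by omega), if_neg (by omega)]; simp
      · rw [if_neg (by omega), if_neg (by omega), if_pos h1.symm]; simp
      · rw [if_neg (by omega), if_pos h1, if_neg (by omega)]; simp
    rw [fc_poly, eq_sub_iff_add_eq]
    simp only [poly, Finset.sum_filter]
    conv_rhs => rw [Finset.sum_congr rfl fun n _ => this n]
    rw [Finset.sum_add_distrib, Finset.sum_add_distrib, Finset.sum_ite_eq']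
    congr 1
    split_ifs <;> simp
  simp only [e1, e2, ← smul_add, norm_e_smul, e3] at key
  have hc : Continuous fun t => poly S x t - e c t • fc (poly S x) c := by fun_prop
  have k2 : nrm p (poly (S.filter fun n => c < n) x) ≤ ENNReal.ofReal A ^ (1 / p) *
      nrm p (fun t => poly S x t - e c t • fc (poly S x) c) := by
    refine nrm_le_of_lint hp0 ?_
    rw [lint_rpow_cont hp0.le (continuous_poly _ _), lint_rpow_cont hp0.le hc,
      ← ENNReal.ofReal_mul (by positivity)]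
    exact ENNReal.ofReal_le_ofReal key
  refine k2.trans ?_
  rw [mul_assoc, two_mul]
  refine mul_le_mul_right ((nrm_sub_le hp (continuous_poly _ _).aestronglyMeasurable
    (Continuous.aestronglyMeasurable (by fun_prop))).trans (add_le_add le_rfl ?_)) _
  rw [nrm_mod, nrm_eq hp0, lintegral_const, measure_univ, mul_one, ← ENNReal.rpow_mul,
    mul_one_div_cancel hp0.ne', ENNReal.rpow_one]
  refine le_trans ?_ (nrm_one_le hp (continuous_poly S x).aestronglyMeasurable)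
  rw [lintegral_enorm_cont (continuous_poly S x), ← ofReal_norm_eq_enorm]
  exact ENNReal.ofReal_le_ofReal (norm_fc_le _ _)

lemma UMD.ht (h : UMD X) : ∃ p : ℝ, 1 < p ∧ HT X p := by
  obtain ⟨p, β, hp, hβ, h⟩ := h.fin
  obtain ⟨C, hC, H⟩ := riesz_poly hp.le hβ h
  refine ⟨p, hp, HT_of_poly hp.le (C := C + C) (by finiteness) fun J hJ S x => ?_⟩
  obtain ⟨a, m, rfl⟩ := hJ.exists_nat
  have e1 : D (Finset.Ico a (a + m)) (poly S x) = fun t =>
      poly (S.filter fun n => a - 1 < n) x t - poly (S.filter fun n => a + m - 1 < n) x t := by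
    ext t
    rw [D_poly, eq_sub_iff_add_eq, poly, poly, poly, ← Finset.sum_union]
    · congr 1
      ext n
      simp only [Finset.mem_union, Finset.mem_inter, Finset.mem_Ico, Finset.mem_filter]
      by_cases hn : n ∈ S <;> simp only [hn, and_true, true_and, and_false, false_and, or_self]
      omega
    · rw [Finset.disjoint_left]
      intro n h1 h2
      simp only [Finset.mem_inter, Finset.mem_Ico, Finset.mem_filter] at h1 h2
      omega
  rw [e1, add_mul]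
  exact (nrm_sub_le hp.le (continuous_poly _ _).aestronglyMeasurable
    (continuous_poly _ _).aestronglyMeasurable).trans (add_le_add (H _ S x) (H _ S x))

end Pool.Agent.Lib.MP_b78339_an
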