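import Pool.Agent.Lib.MP_b78339_an.LowCore

set_option autoImplicit false

open MeasureTheory Set
open scoped ENNReal NNReal ComplexConjugate

namespace Pool.Agent.Lib.MP_b78339_an

lemma jensen_fin {ι : Type} (s : Finset ι) (w x : ι → ℝ≥0∞) {σ : ℝ} (hσ : 1 ≤ σ) :
    (∑ i ∈ s, w i * x i) ^ σ ≤ (∑ i ∈ s, w i) ^ (σ - 1) * ∑ i ∈ s, w i * x i ^ σ := by
  let _ : MeasurableSpace s := ⊤
  have a2 := jensen_w (Measure.count : Measure s) (w := fun i => w i) (x := fun i => x i)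
    measurable_from_top.aemeasurable measurable_from_top.aemeasurable hσ
  simp only [lintegral_count] at a2
  rwa [Finset.tsum_subtype s (fun i => w i * x i), Finset.tsum_subtype s w,
    Finset.tsum_subtype s (fun i => w i * x i ^ σ)] at a2

variable {X : Type*} [NormedAddCommGroup X] [NormedSpace ℂ X]

def Upc (X : Type*) [NormedAddCommGroup X] [NormedSpace ℂ X] (q p : ℝ) (C : ℝ≥0∞) : Prop :=
  ∀ (ι : Type) (s : Finset ι) (J : ι → Finset ℤ), Fam s J →
    ∀ g : ι → T → X, (∀ i ∈ s, D (J i) (g i) = g i) →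
      nrm p (fun x => ∑ i ∈ s, g i x) ^ q ≤ C * ∑ i ∈ s, nrm p (g i) ^ q

def Up (X : Type*) [NormedAddCommGroup X] [NormedSpace ℂ X] (q p : ℝ) : Prop :=
  ∃ C : ℝ≥0∞, C ≠ ⊤ ∧ Upc X q p C

lemma up_core {q p r s : ℝ} (hr : 1 < r) (hrp : r < p) (hq : 1 < q) (hqp : q ≤ p) (hs0 : 0 < s)
    (hs : (1 - 1 / s) * (1 - 1 / p) = (1 - 1 / r) * (1 - 1 / q)) {C W K : ℝ≥0∞}
    (h : Upc X q p C) {ι : Type} {t : Finset ι} {J : ι → Finset ℤ} (hJ : Fam t J)
    {g : ι → T → X} (hg : ∀ i ∈ t, Continuous (g i)) (hk : ∀ i ∈ t, KC p W (J i) (g i))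
    {ε : ι → ℝ} (hε0 : ∀ i ∈ t, 0 < ε i) (hε : ∑ i ∈ t, ENNReal.ofReal (ε i ^ s) ≤ 2)
    (hn : ∀ i ∈ t, nrm r (g i) ≤ K * ENNReal.ofReal (ε i)) :
    ∫⁻ x, ‖∑ i ∈ t, g i x‖ₑ ^ r ≤ ENNReal.ofReal (4 ^ r) * ((1 + C ^ (p / q) * 2 ^ (p / q - 1)) *
      (W * (gc (r - 1) + gc (p - r)) * 2)) * K ^ r := by
  classical
  have hp : 1 < p := hr.trans hrp
  have hσ : 1 ≤ p / q := (one_le_div (by linarith)).mpr hqp
  set γ := (r - s) / (r - 1) with hγ
  set c : ι → ℝ := fun i => ε i ^ γ with hc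
  have hc0 : ∀ i ∈ t, 0 < c i := fun i hi => Real.rpow_pos_of_pos (hε0 i hi) _
  set u : ι → ℤ → ℝ≥0∞ := fun i k => ENNReal.ofReal (ε i ^ (s - r)) *
    (ENNReal.ofReal ((c i * 2 ^ k) ^ (r - 1)) * Phi p (c i * 2 ^ k) (g i)) with hu
  have hsum : Continuous fun x => ∑ i ∈ t, g i x := continuous_finset_sum _ hg
  have key : ∀ k : ℤ, ENNReal.ofReal ((2 * 2 * 2 ^ k) ^ r) *
      volume {x | 2 * 2 ^ k < ‖∑ i ∈ t, g i x‖} ≤
      ENNReal.ofReal (4 ^ r) * ((1 + C ^ (p / q) * 2 ^ (p / q - 1)) * (W * ∑ i ∈ t, u i k)) := by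
    intro k
    have hk0 : (0 : ℝ) < 2 ^ k := by positivity
    have hex : ∀ i, ∃ h : T → X, i ∈ t → Continuous h ∧ D (J i) h = h ∧
        ∫⁻ x, ‖g i x - h x‖ₑ ≤ W * Phi p (c i * 2 ^ k) (g i) ∧
        ∫⁻ x, ‖h x‖ₑ ^ p ≤ ENNReal.ofReal ((c i * 2 ^ k) ^ (p - 1)) *
          (W * Phi p (c i * 2 ^ k) (g i)) := by
      intro i
      by_cases hi : i ∈ t
      · obtain ⟨h, hh⟩ := hk i hi (c i * 2 ^ k) (mul_pos (hc0 i hi) hk0)
        exact ⟨h, fun _ => hh⟩
      · exact ⟨0, fun h => absurd h hi⟩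
    choose H hH using hex
    rw [Real.mul_rpow (by norm_num) hk0.le, ENNReal.ofReal_mul (by positivity), mul_assoc,
      show (2 * 2 : ℝ) = 4 by norm_num]
    refine mul_le_mul_right ?_ _
    have hsub : {x | 2 * 2 ^ k < ‖∑ i ∈ t, g i x‖} ⊆
        {x | 2 ^ k < ‖∑ i ∈ t, (g i x - H i x)‖} ∪ {x | 2 ^ k < ‖∑ i ∈ t, H i x‖} := by
      intro x hx
      by_contra hc
      simp only [mem_union, mem_ofPred_eq, not_or, not_lt] at hx hc
      rw [Finset.sum_sub_distrib] at hc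
      linarith [norm_sub_norm_le (∑ i ∈ t, g i x) (∑ i ∈ t, H i x), hc.1, hc.2]
    refine (mul_le_mul_right ((measure_mono hsub).trans (measure_union_le _ _)) _).trans ?_
    rw [mul_add, add_mul, one_mul]
    refine add_le_add ?_ ?_
    · have e1 : ((2 : ℝ) ^ k) ^ r = (2 ^ k) ^ (r - 1) * 2 ^ k := by
        rw [← Real.rpow_add_one hk0.ne']; simp
      have hm : ∀ i ∈ t, Continuous fun x => g i x - H i x := fun i hi => (hg i hi).sub (hH i hi).1
      rw [e1, ENNReal.ofReal_mul (by positivity), mul_assoc]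
      refine (mul_le_mul_right ((cheb1 volume (continuous_finset_sum _ hm) hk0).trans
        (lintegral_mono fun x => enorm_sum_le _ _)) _).trans ?_
      rw [lintegral_finset_sum _ fun i hi => (hm i hi).enorm.measurable, Finset.mul_sum,
        Finset.mul_sum]
      refine Finset.sum_le_sum fun i hi => (mul_le_mul_right (hH i hi).2.2.1 _).trans
        (le_of_eq ?_)
      have := hε0 i hi
      simp only [hu, hc]
      rw [mul_left_comm, ← mul_assoc (ENNReal.ofReal _), ← ENNReal.ofReal_mul (by positivity),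
        Real.mul_rpow (by positivity) hk0.le, ← Real.rpow_mul this.le, ← mul_assoc (ε i ^ _),
        ← Real.rpow_add this]
      have : s - r + γ * (r - 1) = 0 := by
        have : r - 1 ≠ 0 := by linarith
        rw [hγ]; field_simp; ring
      rw [this, Real.rpow_zero, one_mul]
    · have e1 : ((2 : ℝ) ^ k) ^ r = (2 ^ k) ^ (r - p) * (2 ^ k) ^ p := by
        rw [← Real.rpow_add hk0]; congr 1; ring
      rw [e1, ENNReal.ofReal_mul (by positivity), mul_assoc]
      refine (mul_le_mul_right (cheb volume (continuous_finset_sum _ fun i hi => (hH i hi).1) hk0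
        (by linarith)) _).trans ?_
      have a1 := ENNReal.rpow_le_rpow (h ι t J hJ H fun i hi => (hH i hi).2.1) (z := p / q)
        (by linarith)
      rw [← ENNReal.rpow_mul, mul_div_cancel₀ _ (by linarith : q ≠ 0), nrm_rpow (by linarith),
        ENNReal.mul_rpow_of_nonneg _ _ (by linarith)] at a1
      have a2 : ∑ i ∈ t, nrm p (H i) ^ q = ∑ i ∈ t, ENNReal.ofReal (ε i ^ s) *
          (ENNReal.ofReal (ε i ^ (-s)) * nrm p (H i) ^ q) := by
        refine Finset.sum_congr rfl fun i hi => ?_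
        have := hε0 i hi
        rw [← mul_assoc, ← ENNReal.ofReal_mul (by positivity), ← Real.rpow_add this]
        simp
      rw [a2] at a1
      have a3 := a1.trans (mul_le_mul_right ((jensen_fin t _ _ hσ).trans
        (mul_le_mul_left (ENNReal.rpow_le_rpow hε (by linarith)) _)) _)
      refine (mul_le_mul_right a3 _).trans ?_
      rw [mul_left_comm, mul_left_comm (ENNReal.ofReal _), mul_assoc]
      refine mul_le_mul_right (mul_le_mul_right ?_ _) _
      rw [Finset.mul_sum, Finset.mul_sum]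
      refine Finset.sum_le_sum fun i hi => ?_
      have := hε0 i hi
      rw [ENNReal.mul_rpow_of_nonneg _ _ (by linarith), ← ENNReal.rpow_mul,
        mul_div_cancel₀ _ (by linarith : q ≠ 0), nrm_rpow (by linarith),
        ENNReal.ofReal_rpow_of_nonneg (by positivity) (by linarith)]
      refine (mul_le_mul_right (mul_le_mul_right (mul_le_mul_right (hH i hi).2.2.2 _) _) _).trans
        (le_of_eq ?_)
      simp only [hu, hc]
      rw [mul_left_comm W, mul_left_comm W, ← mul_assoc, ← mul_assoc, ← mul_assoc,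
        ← mul_assoc (ENNReal.ofReal (ε i ^ (s - r))), ← ENNReal.ofReal_mul (by positivity),
        ← ENNReal.ofReal_mul (by positivity), ← ENNReal.ofReal_mul (by positivity),
        ← ENNReal.ofReal_mul (by positivity)]
      congr 2
      rw [Real.mul_rpow (by positivity) hk0.le, Real.mul_rpow (by positivity) hk0.le,
        ← Real.rpow_mul this.le, ← Real.rpow_mul this.le, ← Real.rpow_mul this.le]
      have b1 : ((2 : ℝ) ^ k) ^ (r - 1) = (2 ^ k) ^ (r - p) * (2 ^ k) ^ (p - 1) := by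
        rw [← Real.rpow_add hk0]; congr 1; ring
      have b2 : ε i ^ (s - r) * ε i ^ (γ * (r - 1)) =
          ε i ^ s * ε i ^ (-s * (p / q)) * ε i ^ (γ * (p - 1)) := by
        rw [← Real.rpow_add this, ← Real.rpow_add this, ← Real.rpow_add this]
        congr 1
        have c1 : r - 1 ≠ 0 := by linarith
        have c2 : q ≠ 0 := by linarith
        have c3 : p ≠ 0 := by linarith
        have c4 : r ≠ 0 := by linarith
        have c5 := hs0.ne'
        rw [hγ]
        field_simp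
        field_simp at hs
        linear_combination hs
      rw [b1, ← mul_assoc (ε i ^ (s - r)), b2]
      ring
  refine (layer (c := 2) (by linarith) (by norm_num) hsum).trans
    ((ENNReal.tsum_le_tsum key).trans ?_)
  rw [ENNReal.tsum_mul_left, ENNReal.tsum_mul_left, ENNReal.tsum_mul_left, mul_assoc, mul_assoc,
    mul_assoc W, mul_assoc W]
  refine mul_le_mul_right (mul_le_mul_right (mul_le_mul_right ?_ _) _) _
  rw [Summable.tsum_finsetSum fun _ _ => ENNReal.summable]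
  have a5 : ∀ i ∈ t, ∑' k, u i k ≤
      (gc (r - 1) + gc (p - r)) * K ^ r * ENNReal.ofReal (ε i ^ s) := by
    intro i hi
    have := hε0 i hi
    simp only [hu]
    rw [ENNReal.tsum_mul_left]
    refine (mul_le_mul_right (sum_Phi hr hrp (hc0 i hi) (hg i hi)) _).trans ?_
    rw [mul_left_comm, mul_assoc]
    refine mul_le_mul_right ?_ _
    refine (mul_le_mul_right ((nrm_rpow (by linarith) _).symm.le.trans
      (ENNReal.rpow_le_rpow (hn i hi) (by linarith))) _).trans (le_of_eq ?_)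
    rw [ENNReal.mul_rpow_of_nonneg _ _ (by linarith), mul_left_comm,
      ENNReal.ofReal_rpow_of_nonneg this.le (by linarith), ← ENNReal.ofReal_mul (by positivity),
      ← Real.rpow_add this, sub_add_cancel]
  refine (Finset.sum_le_sum a5).trans ?_
  rw [← Finset.mul_sum, mul_right_comm _ 2]
  exact mul_le_mul_right hε _

lemma up_core' {q p r s : ℝ} (hr : 1 < r) (hrp : r < p) (hq : 1 < q) (hqp : q ≤ p) (hs1 : 1 ≤ s)
    (hs : (1 - 1 / s) * (1 - 1 / p) = (1 - 1 / r) * (1 - 1 / q)) {C W : ℝ≥0∞} (hC : C ≠ ⊤)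
    (hW : W ≠ ⊤) (h : Upc X q p C) : ∃ A : ℝ≥0∞, A ≠ ⊤ ∧ ∀ (ι : Type) (t : Finset ι)
      (J : ι → Finset ℤ), Fam t J → ∀ g : ι → T → X, (∀ i ∈ t, Continuous (g i)) →
      (∀ i ∈ t, KC p W (J i) (g i)) →
      nrm r (fun x => ∑ i ∈ t, g i x) ≤ A * (∑ i ∈ t, nrm r (g i) ^ s) ^ (1 / s) := by
  have h1 := gc_ne_top (a := r - 1) (by linarith)
  have h2 := gc_ne_top (a := p - r) (by linarith)
  have hσ : 1 ≤ p / q := (one_le_div (by linarith)).mpr hqp
  have h3 : C ^ (p / q) ≠ ⊤ := ENNReal.rpow_ne_top_of_nonneg (by linarith) hC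
  have h4 : (2 : ℝ≥0∞) ^ (p / q - 1) ≠ ⊤ := ENNReal.rpow_ne_top_of_nonneg (by linarith) (by simp)
  have hs0 : 0 < s := by linarith
  refine ⟨(ENNReal.ofReal (4 ^ r) * ((1 + C ^ (p / q) * 2 ^ (p / q - 1)) *
      (W * (gc (r - 1) + gc (p - r)) * 2))) ^ (1 / r) * (1 + 1) ^ (1 / s),
    ENNReal.mul_ne_top (ENNReal.rpow_ne_top_of_nonneg (by positivity) (by finiteness))
      (ENNReal.rpow_ne_top_of_nonneg (by positivity) (by simp)), fun ι t J hJ g hg hk => ?_⟩
  set Y := (∑ i ∈ t, nrm r (g i) ^ s) ^ (1 / s) with hY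
  have hYt : Y ≠ ⊤ := ENNReal.rpow_ne_top_of_nonneg (by positivity)
    (ENNReal.sum_ne_top.mpr fun i hi => ENNReal.rpow_ne_top_of_nonneg hs0.le (nrm_ne_top (hg i hi)))
  obtain ⟨ε, e1, e2⟩ := exists_eps t hs1 (β := fun i => nrm r (g i)) ENNReal.one_ne_top hYt (by
    rw [hY, ← ENNReal.rpow_mul, one_div_mul_cancel hs0.ne', ENNReal.rpow_one, one_mul])
  have := up_core hr hrp hq hqp hs0 hs h hJ hg hk (K := (1 + 1) ^ (1 / s) * Y)
    (fun i hi => lt_of_lt_of_le (by positivity) (e2 i hi).1.1) e1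
    (fun i hi => (e2 i hi).2.trans (le_of_eq (mul_right_comm _ _ _)))
  rw [nrm_eq (by linarith)]
  refine (ENNReal.rpow_le_rpow this (by positivity)).trans (le_of_eq ?_)
  rw [ENNReal.mul_rpow_of_nonneg _ (_ ^ r) (by positivity), ← ENNReal.rpow_mul,
    mul_one_div_cancel (by linarith), ENNReal.rpow_one, mul_assoc (_ ^ (1 / r))]

variable [CompleteSpace X]

lemma Up.down {q p r s : ℝ} (h : Up X q p) (hp : HT X p) (hr : 1 < r) (hrp : r < p) (hq : 1 < q)
    (hqp : q ≤ p) (hs1 : 1 ≤ s) (hs : (1 - 1 / s) * (1 - 1 / p) = (1 - 1 / r) * (1 - 1 / q)) :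
    Up X s r := by
  obtain ⟨C2, hC2, hr2⟩ := hp.down hr hrp
  obtain ⟨C1, hC1, hp⟩ := hp
  obtain ⟨C, hC, h⟩ := h
  have hs0 : 0 < s := by linarith
  obtain ⟨A, hA, key⟩ := up_core' hr hrp hq hqp hs1 hs hC
    (wc_ne_top (p := p) (by linarith) hC1) h
  refine ⟨(2 * A * C2) ^ s, ENNReal.rpow_ne_top_of_nonneg hs0.le (by finiteness),
    fun ι t J hJ g hg => ?_⟩
  have hex : ∀ i, ∃ J₁ J₂ : Finset ℤ, i ∈ t → IsInt J₁ ∧ IsInt J₂ ∧ J₁ ⊆ J i ∧ J₂ ⊆ J i ∧
      ∀ F : T → X, (∀ x, D (J i) F x = D J₁ F x + D J₂ F x) ∧ KC p (wc p C1) (J i) (D J₁ F) ∧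
        KC p (wc p C1) (J i) (D J₂ F) := by
    intro i
    by_cases hi : i ∈ t
    · obtain ⟨J₁, J₂, hh⟩ := kc_split (by linarith) hp (hJ.1 i hi)
      exact ⟨J₁, J₂, fun _ => hh⟩
    · exact ⟨∅, ∅, fun h => absurd h hi⟩
  choose J₁ J₂ hH using hex
  have hgc : ∀ i ∈ t, Continuous (g i) := fun i hi => by rw [← hg i hi]; fun_prop
  have aux : ∀ I : ι → Finset ℤ, (∀ i ∈ t, IsInt (I i)) →
      (∀ i ∈ t, KC p (wc p C1) (J i) (D (I i) (g i))) →
      nrm r (fun x => ∑ i ∈ t, D (I i) (g i) x) ≤ A * C2 * (∑ i ∈ t, nrm r (g i) ^ s) ^ (1 / s) := by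
    intro I hI hk
    refine (key ι t J hJ _ (fun i _ => continuous_D _ _) hk).trans ?_
    rw [mul_assoc]
    refine mul_le_mul_right ?_ _
    have : ∑ i ∈ t, nrm r (D (I i) (g i)) ^ s ≤ C2 ^ s * ∑ i ∈ t, nrm r (g i) ^ s := by
      rw [Finset.mul_sum]
      refine Finset.sum_le_sum fun i hi => ?_
      rw [← ENNReal.mul_rpow_of_nonneg _ _ hs0.le]
      exact ENNReal.rpow_le_rpow (hr2 _ (hI i hi) _ (cont_integrable (hgc i hi))) hs0.le
    refine (ENNReal.rpow_le_rpow this (by positivity)).trans (le_of_eq ?_)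
    rw [ENNReal.mul_rpow_of_nonneg _ _ (by positivity), ← ENNReal.rpow_mul,
      mul_one_div_cancel hs0.ne', ENNReal.rpow_one]
  have e1 : (fun x => ∑ i ∈ t, g i x) =
      fun x => (∑ i ∈ t, D (J₁ i) (g i) x) + ∑ i ∈ t, D (J₂ i) (g i) x := by
    ext x
    rw [← Finset.sum_add_distrib]
    refine Finset.sum_congr rfl fun i hi => ?_
    rw [← ((hH i hi).2.2.2.2 (g i)).1 x, hg i hi]
  have e2 := (nrm_add_le hr.le
    (continuous_finset_sum t fun i _ => continuous_D (J₁ i) (g i)).aestronglyMeasurable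
    (continuous_finset_sum t fun i _ => continuous_D (J₂ i) (g i)).aestronglyMeasurable).trans
    (add_le_add (aux J₁ (fun i hi => (hH i hi).1) fun i hi => ((hH i hi).2.2.2.2 (g i)).2.1)
      (aux J₂ (fun i hi => (hH i hi).2.1) fun i hi => ((hH i hi).2.2.2.2 (g i)).2.2))
  rw [← e1, ← two_mul, ← mul_assoc, ← mul_assoc] at e2
  refine (ENNReal.rpow_le_rpow e2 hs0.le).trans (le_of_eq ?_)
  rw [ENNReal.mul_rpow_of_nonneg _ (_ ^ (1 / s)) hs0.le, ← ENNReal.rpow_mul,
    one_div_mul_cancel hs0.ne', ENNReal.rpow_one]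

end Pool.Agent.Lib.MP_b78339_an
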