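import Pool.Agent.Lib.MP_b78339_an.UmdFin

set_option autoImplicit false

open MeasureTheory Set
open scoped ENNReal NNReal ComplexConjugate Topology

namespace Pool.Agent.Lib.MP_b78339_an

lemma npow_add_le {E : Type*} [NormedAddCommGroup E] {p : ℝ} (hp : 0 ≤ p) (a b : E) :
    ‖a + b‖ ^ p ≤ 2 ^ p * (‖a‖ ^ p + ‖b‖ ^ p) := by
  have h1 : ‖a + b‖ ≤ 2 * max ‖a‖ ‖b‖ := by
    linarith [norm_add_le a b, le_max_left ‖a‖ ‖b‖, le_max_right ‖a‖ ‖b‖]
  refine (Real.rpow_le_rpow (norm_nonneg _) h1 hp).trans ?_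
  rw [Real.mul_rpow zero_le_two (by positivity)]
  refine mul_le_mul_of_nonneg_left ?_ (by positivity)
  rcases le_total ‖a‖ ‖b‖ with h | h
  · rw [max_eq_right h]; exact le_add_of_nonneg_left (by positivity)
  · rw [max_eq_left h]; exact le_add_of_nonneg_right (by positivity)

lemma exp_moment {Ω : Type} [Fintype Ω] (τ : ℕ → Ω ≃ Ω) (y : ℕ → Ω → ℝ) {c : ℝ}
    (hc : ∀ k ω, |y k ω| ≤ c) (h1 : ∀ k ω, y k (τ k ω) = -y k ω)
    (h2 : ∀ k j ω, k < j → y k (τ j ω) = y k ω) (l : ℝ) (n : ℕ) :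
    ∑ ω, Real.exp (l * ∑ k ∈ Finset.range n, y k ω) ≤
      Fintype.card Ω * Real.exp (n * ((l * c) ^ 2 / 2)) := by
  induction n with
  | zero => simp
  | succ n ih =>
    have e1 : ∑ ω, Real.exp (l * ∑ k ∈ Finset.range (n + 1), y k ω) =
        ∑ ω, Real.exp (l * ∑ k ∈ Finset.range n, y k ω) * Real.cosh (l * y n ω) := by
      have := sum_anti (τ n)
        (fun ω => Real.exp (l * ∑ k ∈ Finset.range n, y k ω) * Real.sinh (l * y n ω)) (fun ω => by
          rw [h1, Finset.sum_congr rfl fun k hk => h2 k n ω (Finset.mem_range.mp hk), mul_neg,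
            Real.sinh_neg, mul_neg])
      rw [← add_zero (∑ ω, _ * Real.cosh _), ← this, ← Finset.sum_add_distrib]
      refine Finset.sum_congr rfl fun ω _ => ?_
      rw [Finset.sum_range_succ, mul_add, Real.exp_add, ← mul_add, Real.cosh_add_sinh]
    rw [e1]
    have e2 : ∀ ω, Real.cosh (l * y n ω) ≤ Real.exp ((l * c) ^ 2 / 2) := fun ω => by
      refine (Real.cosh_le_exp_half_sq _).trans (Real.exp_le_exp.mpr ?_)
      have : y n ω ^ 2 ≤ c ^ 2 := by
        rw [← sq_abs]; exact pow_le_pow_left₀ (abs_nonneg _) (hc n ω) 2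
      rw [mul_pow, mul_pow]
      have := mul_le_mul_of_nonneg_left this (sq_nonneg l)
      linarith
    refine (Finset.sum_le_sum fun ω _ => mul_le_mul_of_nonneg_left (e2 ω) (Real.exp_pos _).le).trans ?_
    rw [← Finset.sum_mul]
    refine (mul_le_mul_of_nonneg_right ih (Real.exp_pos _).le).trans (le_of_eq ?_)
    rw [mul_assoc, ← Real.exp_add]; push_cast; ring_nf

lemma rpow_le_exp {p x : ℝ} (hp : 0 < p) (hx : 0 ≤ x) : x ^ p ≤ p ^ p * Real.exp x := by
  have h1 : x / p ≤ Real.exp (x / p) := by linarith [Real.add_one_le_exp (x / p)]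
  have h2 := Real.rpow_le_rpow (by positivity) h1 hp.le
  rw [← Real.exp_mul, div_mul_cancel₀ _ hp.ne', Real.div_rpow hx hp.le,
    div_le_iff₀ (by positivity)] at h2
  linarith

lemma real_moment {Ω : Type} [Fintype Ω] (τ : ℕ → Ω ≃ Ω) (y : ℕ → Ω → ℝ) {c s p : ℝ}
    (hc : ∀ k ω, |y k ω| ≤ c) (h1 : ∀ k ω, y k (τ k ω) = -y k ω)
    (h2 : ∀ k j ω, k < j → y k (τ j ω) = y k ω) (hp : 0 < p) (hs : 0 < s) {n : ℕ}
    (hn : n * c ^ 2 ≤ s ^ 2) :
    ∑ ω, |∑ k ∈ Finset.range n, y k ω| ^ p ≤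
      Fintype.card Ω * (2 * Real.exp 1 * p ^ p * s ^ p) := by
  have a1 := exp_moment τ y hc h1 h2 s⁻¹ n
  have a2 := exp_moment τ y hc h1 h2 (-s⁻¹) n
  have a3 : (n : ℝ) * ((s⁻¹ * c) ^ 2 / 2) ≤ 1 := by
    have : (n : ℝ) * ((s⁻¹ * c) ^ 2 / 2) = n * c ^ 2 / s ^ 2 / 2 := by field_simp
    rw [this, div_le_one two_pos, div_le_iff₀ (by positivity)]
    nlinarith [sq_nonneg s]
  rw [neg_mul s⁻¹ c, neg_sq] at a2
  have a4 := mul_le_mul_of_nonneg_left (Real.exp_le_exp.mpr a3)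
    (Nat.cast_nonneg (α := ℝ) (Fintype.card Ω))
  have key : ∀ S : ℝ, |S| ^ p ≤ p ^ p * s ^ p * (Real.exp (s⁻¹ * S) + Real.exp (-s⁻¹ * S)) := by
    intro S
    have b1 := rpow_le_exp hp (x := s⁻¹ * |S|) (by positivity)
    rw [Real.mul_rpow (by positivity) (abs_nonneg _), Real.inv_rpow hs.le,
      inv_mul_le_iff₀ (by positivity)] at b1
    have b2 : Real.exp (s⁻¹ * |S|) ≤ Real.exp (s⁻¹ * S) + Real.exp (-s⁻¹ * S) := by
      rcases abs_choice S with h | h
      · rw [h]; exact le_add_of_nonneg_right (Real.exp_pos _).le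
      · rw [h, mul_neg, neg_mul]; exact le_add_of_nonneg_left (Real.exp_pos _).le
    refine b1.trans ?_
    rw [← mul_assoc, mul_comm (s ^ p)]
    exact mul_le_mul_of_nonneg_left b2 (by positivity)
  refine (Finset.sum_le_sum fun ω _ => key _).trans ?_
  rw [← Finset.mul_sum, Finset.sum_add_distrib]
  have b3 : 0 ≤ p ^ p * s ^ p := by positivity
  nlinarith [mul_le_mul_of_nonneg_left (add_le_add (a1.trans a4) (a2.trans a4)) b3]

lemma complex_moment {Ω : Type} [Fintype Ω] (τ : ℕ → Ω ≃ Ω) (y : ℕ → Ω → ℂ) {c s p : ℝ}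
    (hc : ∀ k ω, ‖y k ω‖ ≤ c) (h1 : ∀ k ω, y k (τ k ω) = -y k ω)
    (h2 : ∀ k j ω, k < j → y k (τ j ω) = y k ω) (hp : 0 < p) (hs : 0 < s) {n : ℕ}
    (hn : n * c ^ 2 ≤ s ^ 2) :
    ∑ ω, ‖∑ k ∈ Finset.range n, y k ω‖ ^ p ≤
      Fintype.card Ω * (2 ^ p * (4 * Real.exp 1 * p ^ p) * s ^ p) := by
  have a1 := real_moment τ (fun k ω => (y k ω).re) (fun k ω => (Complex.abs_re_le_norm _).trans
    (hc k ω)) (fun k ω => by rw [h1, Complex.neg_re]) (fun k j ω h => by rw [h2 k j ω h]) hp hs hn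
  have a2 := real_moment τ (fun k ω => (y k ω).im) (fun k ω => (Complex.abs_im_le_norm _).trans
    (hc k ω)) (fun k ω => by rw [h1, Complex.neg_im]) (fun k j ω h => by rw [h2 k j ω h]) hp hs hn
  have key : ∀ z : ℂ, ‖z‖ ^ p ≤ 2 ^ p * (|z.re| ^ p + |z.im| ^ p) := by
    intro z
    have := npow_add_le hp.le (z.re : ℂ) (z.im * Complex.I)
    rwa [Complex.re_add_im, norm_mul, Complex.norm_I, mul_one, Complex.norm_real,
      Complex.norm_real, Real.norm_eq_abs, Real.norm_eq_abs] at this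
  refine (Finset.sum_le_sum fun ω _ => key _).trans ?_
  simp only [Complex.re_sum, Complex.im_sum]
  rw [← Finset.mul_sum, Finset.sum_add_distrib]
  refine (mul_le_mul_of_nonneg_left (add_le_add a1 a2) (by positivity)).trans (le_of_eq ?_)
  ring

lemma taylor_pow (n : ℕ) : ∃ C : ℝ, 1 ≤ C ∧ ∃ a b : ℂ → ℂ, ∀ z h : ℂ, ‖z‖ ≤ 1 → ‖h‖ ≤ 1 →
    ‖a z‖ ≤ C ∧ ‖b z‖ ≤ C ∧ ‖(z + h) ^ n - z ^ n - a z * h - b z * h ^ 2‖ ≤ C * ‖h‖ ^ 3 := by
  induction n with
  | zero => exact ⟨1, le_rfl, 0, 0, fun z h _ _ => by simp⟩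
  | succ n ih =>
    obtain ⟨C, hC, a, b, H⟩ := ih
    refine ⟨3 * C, by linarith, fun z => z ^ n + z * a z, fun z => a z + z * b z,
      fun z h hz hh => ?_⟩
    obtain ⟨h1, h2, h3⟩ := H z h hz hh
    have h4 : ‖z ^ n‖ ≤ 1 := by rw [norm_pow]; exact pow_le_one₀ (norm_nonneg _) hz
    have h5 : ∀ w : ℂ, ‖z * w‖ ≤ ‖w‖ := fun w => by
      rw [norm_mul]; exact mul_le_of_le_one_left (norm_nonneg _) hz
    refine ⟨(norm_add_le _ _).trans (by linarith [h5 (a z)]),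
      (norm_add_le _ _).trans (by linarith [h5 (b z)]), ?_⟩
    have e : (z + h) ^ (n + 1) - z ^ (n + 1) - (z ^ n + z * a z) * h - (a z + z * b z) * h ^ 2 =
        b z * h ^ 3 + (z + h) * ((z + h) ^ n - z ^ n - a z * h - b z * h ^ 2) := by ring
    rw [e]
    refine (norm_add_le _ _).trans ?_
    rw [norm_mul, norm_mul, norm_pow]
    have h6 : ‖z + h‖ ≤ 2 := (norm_add_le _ _).trans (by linarith)
    have h7 := mul_le_mul h6 h3 (norm_nonneg _) zero_le_two
    have h8 := mul_le_mul_of_nonneg_right h2 (pow_nonneg (norm_nonneg h) 3)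
    linarith

/-- Planar random walk stopped when leaving the unit disc. -/
noncomputable def Z {N : ℕ} (δ : ℝ) (ω : Om N) : ℕ → ℂ
  | 0 => 0
  | k + 1 => Z δ ω k + (if ‖Z δ ω k‖ < 1 then (δ : ℂ) else 0) * val ww k ω

lemma pred_Z {N : ℕ} (δ : ℝ) (k : ℕ) : Pred (N := N) k fun ω => Z δ ω k := by
  induction k with
  | zero => intro _ _ _; rfl
  | succ k ih =>
    intro ω ω' h
    have h1 : Z δ ω k = Z δ ω' k := ih.mono (Nat.le_succ k) ω ω' h
    simp only [Z, h1, pred_val ww k ω ω' h]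

lemma norm_ww_sq (b : Sq) : ‖ww b‖ ^ 2 = 2 := by
  rw [Complex.sq_norm, Complex.normSq_apply]
  rcases b with ⟨_ | _, _ | _⟩ <;> simp [ww, sg] <;> norm_num

lemma norm_val_ww {N : ℕ} (k : ℕ) (ω : Om N) : ‖val ww k ω‖ ≤ 2 := by
  unfold val; split_ifs with h
  · nlinarith [norm_ww_sq (ω ⟨k, h⟩), norm_nonneg (ww (ω ⟨k, h⟩))]
  · simp

lemma norm_Z_le {N : ℕ} {δ : ℝ} (hδ : 0 ≤ δ) (ω : Om N) (k : ℕ) : ‖Z δ ω k‖ ≤ 1 + 2 * δ := by
  induction k with
  | zero => simp only [Z, norm_zero]; positivity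
  | succ k ih =>
    simp only [Z]
    split_ifs with h
    · refine (norm_add_le _ _).trans ?_
      rw [norm_mul, Complex.norm_real, Real.norm_of_nonneg hδ]
      nlinarith [norm_val_ww k ω]
    · simpa using ih

lemma Z_stay {N : ℕ} {δ : ℝ} (ω : Om N) {k n : ℕ} (hkn : k ≤ n) (h : ‖Z δ ω n‖ < 1) :
    ‖Z δ ω k‖ < 1 := by
  induction n, hkn using Nat.le_induction with
  | base => exact h
  | succ n _ ih =>
    refine ih ?_
    by_contra hc
    simp only [Z, if_neg hc, zero_mul, add_zero] at h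
    exact hc h

lemma ww_flipA (b : Sq) : ww (flipA b) = -ww b := by
  change sg (!b.1) + Complex.I * sg (!b.2) = _
  rw [sg_not, sg_not, ww]; ring

lemma ww_flipB (b : Sq) : ww (flipB b) ^ 2 = -ww b ^ 2 := by
  change (sg b.1 + Complex.I * sg (!b.2)) ^ 2 = _
  rw [sg_not, ww]
  have h1 : ∀ c, sg c ^ 2 = 1 := fun c => by cases c <;> simp [sg]
  linear_combination 2 * h1 b.1 + 2 * Complex.I ^ 2 * h1 b.2 + 2 * Complex.I_sq

lemma val_sq {N : ℕ} (h : Sq → ℂ) (k : ℕ) (ω : Om N) :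
    val h k ω ^ 2 = val (fun b => h b ^ 2) k ω := by
  unfold val; split_ifs <;> simp

lemma hitting {N : ℕ} {δ : ℝ} (hδ : 0 ≤ δ) (hδ1 : δ ≤ 1 / 2) :
    N * δ ^ 2 * (Finset.univ.filter fun ω : Om N => ‖Z δ ω N‖ < 1).card ≤
      2 * Fintype.card (Om N) := by
  set bad := Finset.univ.filter fun ω : Om N => ‖Z δ ω N‖ < 1 with hbad
  have key : ∀ k, k ≤ N → 2 * (k * δ ^ 2 * bad.card) ≤ ∑ ω : Om N, ‖Z δ ω k‖ ^ 2 := by
    intro k
    induction k with
    | zero => intro _; simp [Z]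
    | succ k ih =>
      intro hk
      have hk' : k < N := hk
      set st : Om N → ℂ := fun ω => if ‖Z δ ω k‖ < 1 then (δ : ℂ) else 0 with hst
      have e1 : ∀ ω : Om N, ‖Z δ ω (k + 1)‖ ^ 2 = ‖Z δ ω k‖ ^ 2 + ‖st ω * val ww k ω‖ ^ 2 +
          2 * (Z δ ω k * conj (st ω * val ww k ω)).re := fun ω => by
        simp only [Complex.sq_norm, ← Complex.normSq_add]; rfl
      have e2 := sum_anti (act (N := N) flipA k)
        (fun ω => 2 * (Z δ ω k * conj (st ω * val ww k ω)).re) (fun ω => by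
          have h1 : Z δ (act flipA k ω) k = Z δ ω k := (pred_Z δ k).act flipA le_rfl ω
          simp only [hst, h1, val_act, ww_flipA, val_neg, mul_neg, map_neg, Complex.neg_re])
      have e3 : 2 * (δ ^ 2 * bad.card) ≤ ∑ ω : Om N, ‖st ω * val ww k ω‖ ^ 2 := by
        refine le_trans (le_of_eq ?_) (Finset.sum_le_sum_of_subset_of_nonneg
          (Finset.subset_univ bad) fun _ _ _ => by positivity)
        have : ∀ ω ∈ bad, ‖st ω * val ww k ω‖ ^ 2 = 2 * δ ^ 2 := fun ω hω => by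
          have := Z_stay ω hk'.le (Finset.mem_filter.mp hω).2
          simp only [hst, if_pos this, val, dif_pos hk']
          rw [norm_mul, mul_pow, norm_ww_sq, Complex.norm_real, Real.norm_of_nonneg hδ, mul_comm]
        rw [Finset.sum_congr rfl this, Finset.sum_const, nsmul_eq_mul]; ring
      simp only [e1, Finset.sum_add_distrib, e2]
      have := ih hk'.le
      push_cast; linarith
  have h1 := key N le_rfl
  have h2 : ∑ ω : Om N, ‖Z δ ω N‖ ^ 2 ≤ ∑ _ω : Om N, (4 : ℝ) := Finset.sum_le_sum fun ω _ => by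
    have := norm_Z_le hδ ω N
    nlinarith [norm_nonneg (Z δ ω N)]
  rw [Finset.sum_const, Finset.card_univ, nsmul_eq_mul] at h2
  linarith

lemma scalar_decomp {n : ℕ} (hn : 1 ≤ n) {p : ℝ} (hp : 0 < p) : ∃ C : ℝ, 0 ≤ C ∧ ∀ K m : ℕ,
    1 ≤ K → 2 ≤ m → ∃ α : ℕ → Om (K * m ^ 2) → ℂ, (∀ k, Pred k (α k)) ∧
      ∑ ω, ‖Z (1 / m) ω (K * m ^ 2) ^ n -
        ∑ k ∈ Finset.range (K * m ^ 2), val ww k ω * α k ω‖ ^ p ≤
        Fintype.card (Om (K * m ^ 2)) * (C * ((K : ℝ) / m) ^ p) := by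
  obtain ⟨C, hC, a, b, H⟩ := taylor_pow n
  refine ⟨2 ^ p * (2 ^ p * (4 * Real.exp 1 * p ^ p) * (4 * C) ^ p + (8 * C) ^ p), by positivity,
    fun K m hK hm => ?_⟩
  set N := K * m ^ 2 with hN
  set δ : ℝ := 1 / m with hδ
  have hm' : (2 : ℝ) ≤ m := by exact_mod_cast hm
  have hK' : (1 : ℝ) ≤ K := by exact_mod_cast hK
  have hδ0 : 0 < δ := by positivity
  have hδ1 : δ ≤ 1 / 2 := one_div_le_one_div_of_le two_pos hm'
  set st : ℕ → Om N → ℂ := fun k ω => if ‖Z δ ω k‖ < 1 then (δ : ℂ) else 0 with hst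
  set y : ℕ → Om N → ℂ := fun k ω => b (Z δ ω k) * (st k ω * val ww k ω) ^ 2 with hy
  set ρ : ℕ → Om N → ℂ := fun k ω => Z δ ω (k + 1) ^ n - Z δ ω k ^ n -
    a (Z δ ω k) * (st k ω * val ww k ω) - y k ω with hρ
  have hstep : ∀ k ω, ‖st k ω * val ww k ω‖ ≤ 2 * δ := fun k ω => by
    simp only [hst]
    split_ifs
    · rw [norm_mul, Complex.norm_real, Real.norm_of_nonneg hδ0.le]
      nlinarith [norm_val_ww k ω]
    · simp [hδ0.le]
  have hyb : ∀ k ω, ‖y k ω‖ ≤ C * (2 * δ) ^ 2 := fun k ω => by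
    by_cases h : ‖Z δ ω k‖ < 1
    · simp only [hy]
      rw [norm_mul, norm_pow]
      exact mul_le_mul (H _ 0 h.le (by simp)).2.1
        (pow_le_pow_left₀ (norm_nonneg _) (hstep k ω) 2) (by positivity) (by linarith)
    · simp only [hy, hst, if_neg h]
      simp only [zero_mul, ne_eq, OfNat.ofNat_ne_zero, not_false_eq_true, zero_pow, mul_zero,
        norm_zero]
      positivity
  have hρb : ∀ k ω, ‖ρ k ω‖ ≤ C * (2 * δ) ^ 3 := fun k ω => by
    by_cases h : ‖Z δ ω k‖ < 1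
    · refine ((H _ (st k ω * val ww k ω) h.le ((hstep k ω).trans (by linarith))).2.2).trans ?_
      exact mul_le_mul_of_nonneg_left (pow_le_pow_left₀ (norm_nonneg _) (hstep k ω) 3)
        (by linarith)
    · simp only [hρ, hy, hst, Z, if_neg h]
      simp only [zero_mul, add_zero, sub_self, mul_zero, ne_eq, OfNat.ofNat_ne_zero,
        not_false_eq_true, zero_pow, norm_zero]
      positivity
  have hZ : ∀ k j (ω : Om N), k ≤ j → ∀ g, Z δ (act g j ω) k = Z δ ω k := fun k j ω h g =>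
    (pred_Z δ k).act g h ω
  refine ⟨fun k ω => a (Z δ ω k) * st k ω, fun k ω ω' h => ?_, ?_⟩
  · have h1 : Z δ ω k = Z δ ω' k := pred_Z δ k ω ω' h
    simp only [hst, h1]
  have e1 : ∀ ω, Z δ ω N ^ n - ∑ k ∈ Finset.range N, val ww k ω * (a (Z δ ω k) * st k ω) =
      ∑ k ∈ Finset.range N, y k ω + ∑ k ∈ Finset.range N, ρ k ω := by
    intro ω
    have := Finset.sum_range_sub (fun k => Z δ ω k ^ n) N
    simp only [Z, zero_pow (by omega : n ≠ 0), sub_zero] at this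
    rw [← this, ← Finset.sum_sub_distrib, ← Finset.sum_add_distrib]
    refine Finset.sum_congr rfl fun k _ => ?_
    simp only [hρ, Z]; ring
  have m1 := complex_moment (fun k => act (N := N) flipB k) y hyb
    (fun k ω => by
      simp only [hy, hst, hZ k k ω le_rfl, mul_pow, val_sq, val_act, ww_flipB, val_neg, mul_neg])
    (fun k j ω h => by simp only [hy, hst, hZ k j ω h.le, val_act_ne _ _ h.ne]) hp
    (s := 4 * C * (K / m)) (by positivity) (n := N) (by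
      rw [hN, hδ]; push_cast; field_simp; nlinarith)
  have m2 : ∀ ω, ‖∑ k ∈ Finset.range N, ρ k ω‖ ^ p ≤ (8 * C * (K / m)) ^ p := fun ω => by
    refine Real.rpow_le_rpow (norm_nonneg _) ((norm_sum_le _ _).trans
      ((Finset.sum_le_sum fun k _ => hρb k ω).trans (le_of_eq ?_))) hp.le
    rw [Finset.sum_const, Finset.card_range, nsmul_eq_mul, hN, hδ]
    push_cast; field_simp; ring
  simp only [e1]
  refine (Finset.sum_le_sum fun ω _ => npow_add_le hp.le _ _).trans ?_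
  rw [← Finset.mul_sum, Finset.sum_add_distrib]
  refine (mul_le_mul_of_nonneg_left (add_le_add m1 (Finset.sum_le_sum fun ω _ => m2 ω))
    (by positivity)).trans (le_of_eq ?_)
  rw [Finset.sum_const, Finset.card_univ, nsmul_eq_mul,
    Real.mul_rpow (x := 4 * C) (by positivity) (by positivity),
    Real.mul_rpow (x := 8 * C) (by positivity) (by positivity)]
  ring

end Pool.Agent.Lib.MP_b78339_an
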