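import Pool.Agent.Lib.MP_b78339_an.CZ

set_option autoImplicit false

open MeasureTheory Set
open scoped ENNReal NNReal ComplexConjugate

namespace Pool.Agent.Lib.MP_b78339_an

def IsInt (J : Finset ℤ) : Prop := ∃ a b : ℤ, J = Finset.Ico a b

def HTc (X : Type*) [NormedAddCommGroup X] [NormedSpace ℂ X] (p : ℝ) (C : ℝ≥0∞) : Prop :=
  ∀ J, IsInt J → ∀ f : T → X, Integrable f → nrm p (D J f) ≤ C * nrm p f

def HT (X : Type*) [NormedAddCommGroup X] [NormedSpace ℂ X] (p : ℝ) : Prop :=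
  ∃ C : ℝ≥0∞, C ≠ ⊤ ∧ HTc X p C

noncomputable def ph (p lam y : ℝ) : ℝ := if lam < y then y else lam ^ (1 - p) * y ^ p

lemma ph_nonneg (p : ℝ) {lam y : ℝ} (hlam : 0 < lam) (hy : 0 ≤ y) : 0 ≤ ph p lam y := by
  unfold ph; split_ifs
  · exact hy
  · positivity

lemma ph_le {p lam y : ℝ} (hp : 1 ≤ p) (hlam : 0 < lam) (hy : 0 ≤ y) : ph p lam y ≤ y := by
  unfold ph; split_ifs with h
  · exact le_rfl
  · have h1 : y ^ p = y ^ (p - 1) * y := by
      rw [← Real.rpow_add_one' hy (by linarith)]; simp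
    have h2 : y ^ (p - 1) ≤ lam ^ (p - 1) := Real.rpow_le_rpow hy (not_lt.mp h) (by linarith)
    have h3 : lam ^ (1 - p) * lam ^ (p - 1) = 1 := by
      rw [← Real.rpow_add hlam]; simp
    have h4 : 0 ≤ lam ^ (1 - p) := by positivity
    rw [h1, ← mul_assoc]
    exact mul_le_of_le_one_left hy ((mul_le_mul_of_nonneg_left h2 h4).trans h3.le)

lemma rpow_le_ph {p lam y : ℝ} (hp : 1 ≤ p) (hlam : 0 < lam) (hy : 0 ≤ y) (h4 : y ≤ 4 * lam) :
    y ^ p ≤ 4 ^ p * lam ^ (p - 1) * ph p lam y := by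
  have h40 : (1 : ℝ) ≤ 4 ^ p := Real.one_le_rpow (by norm_num) (by linarith)
  unfold ph; split_ifs with h
  · have h1 : y ^ p = y ^ (p - 1) * y := by
      rw [← Real.rpow_add_one' hy (by linarith)]; simp
    rw [h1]
    refine mul_le_mul_of_nonneg_right ?_ hy
    refine (Real.rpow_le_rpow hy h4 (by linarith)).trans ?_
    rw [Real.mul_rpow (by norm_num) hlam.le]
    exact mul_le_mul_of_nonneg_right
      (Real.rpow_le_rpow_of_exponent_le (by norm_num) (by linarith)) (by positivity)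
  · have h3 : lam ^ (p - 1) * lam ^ (1 - p) = 1 := by
      rw [← Real.rpow_add hlam]; simp
    rw [mul_assoc, ← mul_assoc (lam ^ (p - 1)), h3, one_mul]
    exact le_mul_of_one_le_left (by positivity) h40

lemma le_add_rpow {p lam y : ℝ} (hp : 1 ≤ p) (hlam : 0 < lam) (hy : 0 ≤ y) :
    y ≤ lam + lam ^ (1 - p) * y ^ p := by
  by_cases h : y ≤ lam
  · exact h.trans (le_add_of_nonneg_right (by positivity))
  · have h1 : y ^ p = y ^ (p - 1) * y := by
      rw [← Real.rpow_add_one' hy (by linarith)]; simp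
    have h2 : lam ^ (p - 1) ≤ y ^ (p - 1) :=
      Real.rpow_le_rpow hlam.le (not_le.mp h).le (by linarith)
    have h3 : lam ^ (1 - p) * lam ^ (p - 1) = 1 := by
      rw [← Real.rpow_add hlam]; simp
    have h4 : 0 ≤ lam ^ (1 - p) := by positivity
    have h5 : 1 ≤ lam ^ (1 - p) * y ^ (p - 1) :=
      h3.ge.trans (mul_le_mul_of_nonneg_left h2 h4)
    rw [h1, ← mul_assoc]
    nlinarith

section
variable {E : Type*} [NormedAddCommGroup E]

noncomputable def Phi (p lam : ℝ) (f : T → E) : ℝ≥0∞ := ∫⁻ x, ENNReal.ofReal (ph p lam ‖f x‖)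

lemma measurable_ph (p lam : ℝ) {f : T → E} (hf : Continuous f) :
    Measurable fun x => ENNReal.ofReal (ph p lam ‖f x‖) := by
  refine Measurable.ennreal_ofReal ?_
  unfold ph
  exact Measurable.ite (measurableSet_lt measurable_const hf.norm.measurable) hf.norm.measurable
    ((hf.norm.measurable.pow_const p).const_mul _)

lemma big_le_Phi (p lam : ℝ) (f : T → E) : ∫⁻ x, big lam f x ≤ Phi p lam f := by
  refine lintegral_mono fun x => ?_
  simp only [big, ph]
  split_ifs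
  · rw [ofReal_norm_eq_enorm]
  · exact zero_le

lemma Phi_le {p lam : ℝ} (hp : 1 ≤ p) (hlam : 0 < lam) (f : T → E) :
    Phi p lam f ≤ ∫⁻ x, ‖f x‖ₑ := by
  refine lintegral_mono fun x => ?_
  rw [← ofReal_norm_eq_enorm]
  exact ENNReal.ofReal_le_ofReal (ph_le hp hlam (norm_nonneg _))

lemma enorm_rpow_eq (v : E) {p : ℝ} (hp : 0 ≤ p) : ‖v‖ₑ ^ p = ENNReal.ofReal (‖v‖ ^ p) := by
  rw [← ofReal_norm_eq_enorm, ENNReal.ofReal_rpow_of_nonneg (norm_nonneg _) hp]

lemma cheb (μ : Measure T) {g : T → E} (hg : Continuous g) {lam p : ℝ} (hlam : 0 < lam)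
    (hp : 0 < p) : ENNReal.ofReal (lam ^ p) * μ {x | lam < ‖g x‖} ≤ ∫⁻ x, ‖g x‖ₑ ^ p ∂μ := by
  refine le_trans (mul_le_mul_right (measure_mono fun x hx => ?_) _)
    (mul_meas_ge_le_lintegral₀ (hg.enorm.measurable.pow_const p).aemeasurable _)
  simp only [mem_ofPred_eq] at hx ⊢
  rw [enorm_rpow_eq _ hp.le]
  exact ENNReal.ofReal_le_ofReal (Real.rpow_le_rpow hlam.le hx.le hp.le)

lemma cheb1 (μ : Measure T) {g : T → E} (hg : Continuous g) {lam : ℝ} (hlam : 0 < lam) :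
    ENNReal.ofReal lam * μ {x | lam < ‖g x‖} ≤ ∫⁻ x, ‖g x‖ₑ ∂μ := by
  simpa using cheb μ hg hlam one_pos

lemma good_bound {p lam : ℝ} (hp : 1 ≤ p) (hlam : 0 < lam) {f a : T → E} (hf : Continuous f)
    {S : Set T} (hS : MeasurableSet S) (ha : ∀ x, ‖a x‖ ≤ 4 * lam) (haf : ∀ x, x ∉ S → a x = f x)
    (hv : ENNReal.ofReal lam * volume S ≤ 2 * Phi p lam f) :
    ∫⁻ x, ‖a x‖ₑ ^ p ≤
      ENNReal.ofReal (lam ^ (p - 1)) * (3 * ENNReal.ofReal (4 ^ p) * Phi p lam f) := by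
  set c := ENNReal.ofReal (4 ^ p * lam ^ (p - 1)) with hc
  have h1 : ∀ x, ‖a x‖ₑ ^ p ≤ S.indicator (fun _ => c * ENNReal.ofReal lam) x +
      c * ENNReal.ofReal (ph p lam ‖f x‖) := by
    intro x
    rw [enorm_rpow_eq _ (by linarith)]
    by_cases hx : x ∈ S
    · rw [indicator_of_mem hx, hc, ← ENNReal.ofReal_mul (by positivity)]
      refine le_trans (ENNReal.ofReal_le_ofReal ?_) le_self_add
      refine (Real.rpow_le_rpow (norm_nonneg _) (ha x) (by linarith)).trans (le_of_eq ?_)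
      rw [Real.mul_rpow (by norm_num) hlam.le, mul_assoc, ← Real.rpow_add_one hlam.ne']
      simp
    · rw [indicator_of_notMem hx, zero_add, hc, ← ENNReal.ofReal_mul (by positivity), ← haf x hx]
      exact ENNReal.ofReal_le_ofReal (rpow_le_ph hp hlam (norm_nonneg _) (ha x))
  refine (lintegral_mono h1).trans ?_
  rw [lintegral_add_right _ ((measurable_ph p lam hf).const_mul c), lintegral_indicator hS,
    setLIntegral_const, lintegral_const_mul _ (measurable_ph p lam hf), mul_assoc]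
  refine (add_le_add (mul_le_mul_right hv c) le_rfl).trans (le_of_eq ?_)
  rw [hc, ENNReal.ofReal_mul (by positivity), Phi]
  ring

end

variable {X : Type*} [NormedAddCommGroup X] [NormedSpace ℂ X]

lemma lint_le_of_nrm {p : ℝ} (hp : 0 < p) {C : ℝ≥0∞} {E F : Type*} [NormedAddCommGroup E]
    [NormedAddCommGroup F] {f : T → E} {g : T → F} (h : nrm p f ≤ C * nrm p g) :
    ∫⁻ x, ‖f x‖ₑ ^ p ≤ C ^ p * ∫⁻ x, ‖g x‖ₑ ^ p := by
  rw [← nrm_rpow hp, ← nrm_rpow hp, ← ENNReal.mul_rpow_of_nonneg _ _ hp.le]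
  exact ENNReal.rpow_le_rpow h hp.le

lemma nrm_avg_le {p : ℝ} (hp : 1 ≤ p) {C : ℝ≥0∞} (h : HTc X p C) {u v : ℕ} (huv : u < v)
    (J : ℕ → Finset ℤ) (hJ : ∀ j, IsInt (J j)) {g : T → X} (hg : Integrable g) :
    nrm p (conv (fun t => ((v : ℂ) - u)⁻¹ * ∑ j ∈ Finset.Ico u v, dir (J j) t) g) ≤
      C * nrm p g := by
  have h1 : conv (fun t => ((v : ℂ) - u)⁻¹ * ∑ j ∈ Finset.Ico u v, dir (J j) t) g =
      fun x => ((v : ℂ) - u)⁻¹ • ∑ j ∈ Finset.Ico u v, D (J j) g x := by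
    ext x; exact conv_avg _ _ _ hg x
  rw [h1, nrm_smul]
  have h2 : nrm p (fun x => ∑ j ∈ Finset.Ico u v, D (J j) g x) ≤
      ((v - u : ℕ) : ℝ≥0∞) * (C * nrm p g) := by
    refine (nrm_sum_le hp _ fun j _ => (continuous_D _ _).aestronglyMeasurable).trans ?_
    refine (Finset.sum_le_sum fun j _ => h _ (hJ j) g hg).trans ?_
    rw [Finset.sum_const, Nat.card_Ico, nsmul_eq_mul]
  refine (mul_le_mul_right h2 _).trans (le_of_eq ?_)
  rw [← mul_assoc, ← Nat.cast_sub huv.le, enorm_inv (by exact_mod_cast (Nat.sub_pos_of_lt huv).ne'),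
    ← ofReal_norm_eq_enorm, Complex.norm_natCast, ENNReal.ofReal_natCast,
    ENNReal.inv_mul_cancel (by exact_mod_cast (Nat.sub_pos_of_lt huv).ne') (by simp), one_mul]

noncomputable def wc (p : ℝ) (C : ℝ≥0∞) : ℝ≥0∞ := 210 + C ^ p * (3 * ENNReal.ofReal (4 ^ p))

lemma wc_ne_top {p : ℝ} (hp : 0 ≤ p) {C : ℝ≥0∞} (hC : C ≠ ⊤) : wc p C ≠ ⊤ := by
  unfold wc
  exact ENNReal.add_ne_top.mpr ⟨by simp, ENNReal.mul_ne_top (ENNReal.rpow_ne_top_of_nonneg hp hC)
    (ENNReal.mul_ne_top (by simp) ENNReal.ofReal_ne_top)⟩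

variable [CompleteSpace X]

lemma weak_conv {p : ℝ} (hp : 1 ≤ p) {C : ℝ≥0∞} {K : T → ℂ} (hK : CZK K)
    (hb : ∀ g : T → X, Integrable g → nrm p (conv K g) ≤ C * nrm p g) {f : T → X}
    (hf : Continuous f) {lam : ℝ} (hlam : 0 < lam) :
    ENNReal.ofReal lam * volume {x | 2 * lam < ‖conv K f x‖} ≤ wc p C * ∫⁻ x, ‖f x‖ₑ := by
  obtain ⟨a, E, ai, hE, ha, haf, hv, ht⟩ := cz_op hK hf hlam
  have hB := big_le_Phi p lam f
  have hg := good_bound hp hlam hf hE ha haf (hv.trans (mul_le_mul_right hB 2))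
  have hfa : Integrable fun y => f y - a y := (cont_integrable hf).sub ai
  have hsub : {x | 2 * lam < ‖conv K f x‖} ⊆ (E ∪ {x | lam < ‖conv K a x‖}) ∪
      ({x | lam < ‖conv K (fun y => f y - a y) x‖} ∩ Eᶜ) := by
    intro x hx
    by_contra hc
    simp only [mem_union, mem_inter_iff, mem_ofPred_eq, mem_compl_iff, not_or, not_and, not_lt,
      not_not] at hx hc
    have h1 : ‖conv K (fun y => f y - a y) x‖ ≤ lam := not_lt.mp fun h => hc.1.1 (hc.2 h)
    rw [conv_sub hK.continuous (cont_integrable hf) ai] at h1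
    have := norm_sub_norm_le (conv K f x) (conv K a x)
    linarith [hc.1.2]
  have h2 : ENNReal.ofReal lam * volume {x | lam < ‖conv K a x‖} ≤
      C ^ p * (3 * ENNReal.ofReal (4 ^ p)) * Phi p lam f := by
    have h3 := (cheb volume (continuous_conv hK.continuous ai) hlam (p := p) (by linarith)).trans
      ((lint_le_of_nrm (by linarith) (hb a ai)).trans (mul_le_mul_right hg _))
    have h4 : lam ^ p = lam ^ (p - 1) * lam := by
      rw [← Real.rpow_add_one hlam.ne']; simp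
    rw [h4, ENNReal.ofReal_mul (by positivity), mul_assoc, mul_left_comm (C ^ p)] at h3
    rw [mul_assoc]
    exact (ENNReal.mul_le_mul_iff_right (by simp; positivity) ENNReal.ofReal_ne_top).mp h3
  have h3 : ENNReal.ofReal lam * volume ({x | lam < ‖conv K (fun y => f y - a y) x‖} ∩ Eᶜ) ≤
      200 * Phi p lam f := by
    rw [← Measure.restrict_apply' hE.compl]
    exact (cheb1 _ (continuous_conv hK.continuous hfa) hlam).trans
      (ht.trans (mul_le_mul_right hB _))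
  refine (mul_le_mul_right ((measure_mono hsub).trans ((measure_union_le _ _).trans
    (add_le_add (measure_union_le _ _) le_rfl))) _).trans ?_
  rw [mul_add, mul_add]
  refine (add_le_add (add_le_add (hv.trans (mul_le_mul_right hB 2)) h2) h3).trans ?_
  refine le_trans ?_ (mul_le_mul_right (Phi_le hp hlam f) _)
  rw [← add_mul, ← add_mul, wc]
  refine mul_le_mul_left ?_ _
  rw [add_right_comm]
  exact add_le_add (by norm_num) le_rfl

omit [CompleteSpace X] in
lemma D_eq_conv_add (a : ℤ) (m : ℕ) {f : T → X} (hf : Integrable f) (x : T) :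
    D (Finset.Ico a (a + m)) f x =
      conv (kerL a 0 (m + 1)) f x + conv (kerR (a + m) 0 (m + 1)) f x := by
  unfold kerL kerR
  rw [conv_avg _ _ (fun j : ℕ => Finset.Ico a (a + j)) hf,
    conv_avg _ _ (fun j : ℕ => Finset.Ico (a + m - j) (a + m)) hf, ← smul_add,
    ← Finset.range_eq_Ico, ← Finset.sum_flip (fun j : ℕ => D (Finset.Ico (a + m - j) (a + m)) f x),
    ← Finset.sum_add_distrib]
  have : ∀ j ∈ Finset.range (m + 1), D (Finset.Ico a (a + j)) f x +
      D (Finset.Ico (a + m - (m - j : ℕ)) (a + m)) f x = D (Finset.Ico a (a + m)) f x := by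
    intro j hj
    have hj' : j ≤ m := Nat.lt_succ_iff.mp (Finset.mem_range.mp hj)
    have e1 : a + m - (m - j : ℕ) = a + j := by rw [Nat.cast_sub hj']; ring
    rw [e1, ← D_union (Finset.Ico_disjoint_Ico_consecutive _ _ _),
      Finset.Ico_union_Ico_eq_Ico (by omega) (by omega)]
  rw [Finset.sum_congr rfl this, Finset.sum_const, Finset.card_range,
    ← Nat.cast_smul_eq_nsmul ℂ, smul_smul, Nat.cast_zero, sub_zero,
    inv_mul_cancel₀ (by exact_mod_cast Nat.succ_ne_zero m), one_smul]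

lemma IsInt.exists_nat {J : Finset ℤ} (h : IsInt J) : ∃ (a : ℤ) (m : ℕ), J = Finset.Ico a (a + m) := by
  obtain ⟨a, b, rfl⟩ := h
  refine ⟨a, (b - a).toNat, ?_⟩
  ext n; simp only [Finset.mem_Ico]; omega

lemma weak_D {p : ℝ} (hp : 1 ≤ p) {C : ℝ≥0∞} (h : HTc X p C) {J : Finset ℤ} (hJ : IsInt J)
    {f : T → X} (hf : Continuous f) {lam : ℝ} (hlam : 0 < lam) :
    ENNReal.ofReal lam * volume {x | 4 * lam < ‖D J f x‖} ≤ 2 * wc p C * ∫⁻ x, ‖f x‖ₑ := by
  obtain ⟨a, m, rfl⟩ := hJ.exists_nat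
  have h1 := weak_conv hp (czk_kerL a (Nat.succ_pos m) (by omega))
    (fun g hg => nrm_avg_le hp h (Nat.succ_pos m) _ (fun j => ⟨_, _, rfl⟩) hg) hf hlam
  have h2 := weak_conv hp (czk_kerR (a + m) (Nat.succ_pos m) (by omega))
    (fun g hg => nrm_avg_le hp h (Nat.succ_pos m) _ (fun j => ⟨_, _, rfl⟩) hg) hf hlam
  have hsub : {x | 4 * lam < ‖D (Finset.Ico a (a + m)) f x‖} ⊆
      {x | 2 * lam < ‖conv (kerL a 0 (m + 1)) f x‖} ∪
        {x | 2 * lam < ‖conv (kerR (a + m) 0 (m + 1)) f x‖} := by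
    intro x hx
    by_contra hc
    simp only [mem_union, mem_ofPred_eq, not_or, not_lt] at hx hc
    rw [D_eq_conv_add a m (cont_integrable hf)] at hx
    linarith [norm_add_le (conv (kerL a 0 (m + 1)) f x) (conv (kerR (a + m) 0 (m + 1)) f x)]
  refine (mul_le_mul_right ((measure_mono hsub).trans (measure_union_le _ _)) _).trans ?_
  rw [mul_add, mul_assoc, two_mul (wc p C * _)]
  exact add_le_add h1 h2

/-- `K`-closedness type property. -/
def KC (p : ℝ) (W : ℝ≥0∞) (J : Finset ℤ) (g : T → X) : Prop :=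
  ∀ lam : ℝ, 0 < lam → ∃ h : T → X, Continuous h ∧ D J h = h ∧
    ∫⁻ x, ‖g x - h x‖ₑ ≤ W * Phi p lam g ∧
    ∫⁻ x, ‖h x‖ₑ ^ p ≤ ENNReal.ofReal (lam ^ (p - 1)) * (W * Phi p lam g)

lemma kc_conv {p : ℝ} (hp : 1 ≤ p) {C : ℝ≥0∞} {K : T → ℂ} (hK : CZK K)
    (hb : ∀ g : T → X, Integrable g → nrm p (conv K g) ≤ C * nrm p g) {J : Finset ℤ}
    (hJ : ∀ g : T → X, Integrable g → D J (conv K g) = conv K g) {f : T → X}
    (hf : Continuous f) (hKf : conv K f = f) : KC p (wc p C) J f := by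
  intro lam hlam
  obtain ⟨a, E, ai, hE, ha, haf, hv, ht⟩ := cz_op hK hf hlam
  have hB := big_le_Phi p lam f
  have hv' := hv.trans (mul_le_mul_right hB 2)
  have hg := good_bound hp hlam hf hE ha haf hv'
  have hc := continuous_conv hK.continuous ai
  have h1 : ∫⁻ x, ‖conv K a x‖ₑ ^ p ≤ ENNReal.ofReal (lam ^ (p - 1)) *
      (C ^ p * (3 * ENNReal.ofReal (4 ^ p)) * Phi p lam f) := by
    refine ((lint_le_of_nrm (by linarith) (hb a ai)).trans (mul_le_mul_right hg _)).trans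
      (le_of_eq ?_)
    ring
  refine ⟨conv K a, hc, hJ a ai, ?_, h1.trans ?_⟩
  · rw [← lintegral_add_compl _ hE]
    have h2 : ∫⁻ x in Eᶜ, ‖f x - conv K a x‖ₑ ≤ 200 * Phi p lam f := by
      refine le_trans (le_of_eq ?_) (ht.trans (mul_le_mul_right hB _))
      congr 1; ext x
      rw [conv_sub hK.continuous (cont_integrable hf) ai, hKf]
    have h3 : ∀ x, ‖f x - conv K a x‖ₑ ≤ 2 * ENNReal.ofReal lam + (ENNReal.ofReal (ph p lam ‖f x‖)
        + ENNReal.ofReal (lam ^ (1 - p)) * ‖conv K a x‖ₑ ^ p) := by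
      intro x
      rw [enorm_rpow_eq _ (by linarith), ← ENNReal.ofReal_mul (by positivity),
        ← ENNReal.ofReal_add (ph_nonneg p hlam (norm_nonneg _)) (by positivity),
        ← ENNReal.ofReal_ofNat 2, ← ENNReal.ofReal_mul zero_le_two,
        ← ENNReal.ofReal_add (by positivity)
          (add_nonneg (ph_nonneg p hlam (norm_nonneg _)) (by positivity)), ← ofReal_norm_eq_enorm]
      refine ENNReal.ofReal_le_ofReal ((norm_sub_le _ _).trans ?_)
      have a1 := le_add_rpow hp hlam (norm_nonneg (conv K a x))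
      have a2 : ‖f x‖ ≤ lam + ph p lam ‖f x‖ := by
        by_cases hx : lam < ‖f x‖
        · rw [ph, if_pos hx]; linarith
        · linarith [ph_nonneg p hlam (norm_nonneg (f x)), not_lt.mp hx]
      linarith
    have h4 : ∫⁻ x in E, ‖f x - conv K a x‖ₑ ≤
        (5 + C ^ p * (3 * ENNReal.ofReal (4 ^ p))) * Phi p lam f := by
      refine (lintegral_mono h3).trans ?_
      rw [lintegral_add_left measurable_const, setLIntegral_const,
        lintegral_add_left (measurable_ph p lam hf),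
        lintegral_const_mul _ (hc.enorm.measurable.pow_const p), mul_assoc]
      refine (add_le_add (mul_le_mul_right hv' 2) (add_le_add (setLIntegral_le_lintegral _ _)
        (mul_le_mul_right ((setLIntegral_le_lintegral _ _).trans h1) _))).trans (le_of_eq ?_)
      rw [← mul_assoc (ENNReal.ofReal _), ← ENNReal.ofReal_mul (by positivity),
        ← Real.rpow_add hlam]
      simp only [sub_add_sub_cancel, sub_self, Real.rpow_zero, ENNReal.ofReal_one, one_mul]
      rw [Phi]; ring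
    refine (add_le_add h4 h2).trans ?_
    rw [← add_mul, wc]
    refine mul_le_mul_left ?_ _
    rw [add_right_comm]
    exact add_le_add (by norm_num) le_rfl
  · exact mul_le_mul_right (mul_le_mul_left le_add_self _) _

lemma D_conv_avg {u v : ℕ} (J : Finset ℤ) (I : ℕ → Finset ℤ) (hI : ∀ j ∈ Finset.Ico u v, I j ⊆ J)
    {g : T → X} (hg : Integrable g) :
    D J (conv (fun t => ((v : ℂ) - u)⁻¹ * ∑ j ∈ Finset.Ico u v, dir (I j) t) g) =
      conv (fun t => ((v : ℂ) - u)⁻¹ * ∑ j ∈ Finset.Ico u v, dir (I j) t) g := by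
  have h1 : conv (fun t => ((v : ℂ) - u)⁻¹ * ∑ j ∈ Finset.Ico u v, dir (I j) t) g =
      fun x => ((v : ℂ) - u)⁻¹ • ∑ j ∈ Finset.Ico u v, D (I j) g x := by
    ext x; exact conv_avg _ _ _ hg x
  rw [h1]
  ext x
  rw [D_smul, D_sum _ _ (f := fun j => D (I j) g) fun j _ => cont_integrable (by fun_prop)]
  congr 1
  refine Finset.sum_congr rfl fun j hj => ?_
  rw [D_D, Finset.inter_eq_right.mpr (hI j hj)]

lemma conv_avg_D {u v : ℕ} (huv : u < v) (J : Finset ℤ) (I : ℕ → Finset ℤ)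
    (hI : ∀ j ∈ Finset.Ico u v, J ⊆ I j) (g : T → X) :
    conv (fun t => ((v : ℂ) - u)⁻¹ * ∑ j ∈ Finset.Ico u v, dir (I j) t) (D J g) = D J g := by
  ext x
  rw [conv_avg _ _ _ (cont_integrable (continuous_D _ _)),
    Finset.sum_congr rfl fun j hj => by rw [D_D, Finset.inter_eq_right.mpr (hI j hj)],
    Finset.sum_const, Nat.card_Ico, ← Nat.cast_smul_eq_nsmul ℂ, smul_smul, Nat.cast_sub huv.le,
    inv_mul_cancel₀ (by rw [sub_ne_zero]; exact_mod_cast huv.ne'), one_smul]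

lemma kc_split {p : ℝ} (hp : 1 ≤ p) {C : ℝ≥0∞} (h : HTc X p C) {J : Finset ℤ} (hJ : IsInt J) :
    ∃ J₁ J₂ : Finset ℤ, IsInt J₁ ∧ IsInt J₂ ∧ J₁ ⊆ J ∧ J₂ ⊆ J ∧ ∀ F : T → X,
      (∀ x, D J F x = D J₁ F x + D J₂ F x) ∧ KC p (wc p C) J (D J₁ F) ∧
        KC p (wc p C) J (D J₂ F) := by
  obtain ⟨a, m, rfl⟩ := hJ.exists_nat
  set u := (m + 1) / 2 with hu
  have huv : u < m + 1 := by omega
  have h2 : 2 * u ≤ m + 1 := by omega
  refine ⟨Finset.Ico a (a + u), Finset.Ico (a + u) (a + m), ⟨_, _, rfl⟩, ⟨_, _, rfl⟩,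
    Finset.Ico_subset_Ico le_rfl (by omega), Finset.Ico_subset_Ico (by omega) le_rfl,
    fun F => ⟨fun x => ?_, ?_, ?_⟩⟩
  · rw [← D_union (Finset.Ico_disjoint_Ico_consecutive _ _ _),
      Finset.Ico_union_Ico_eq_Ico (by omega) (by omega)]
  · refine kc_conv hp (czk_kerL a huv h2)
      (fun g hg => nrm_avg_le hp h huv _ (fun j => ⟨_, _, rfl⟩) hg)
      (fun g hg => D_conv_avg _ _ (fun j hj => ?_) hg) (continuous_D _ _)
      (conv_avg_D huv _ _ (fun j hj => ?_) F)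
    · rw [Finset.mem_Ico] at hj
      exact Finset.Ico_subset_Ico le_rfl (by omega)
    · rw [Finset.mem_Ico] at hj
      exact Finset.Ico_subset_Ico le_rfl (by omega)
  · refine kc_conv hp (czk_kerR (a + m) huv h2)
      (fun g hg => nrm_avg_le hp h huv _ (fun j => ⟨_, _, rfl⟩) hg)
      (fun g hg => D_conv_avg _ _ (fun j hj => ?_) hg) (continuous_D _ _)
      (conv_avg_D huv _ _ (fun j hj => ?_) F)
    · rw [Finset.mem_Ico] at hj
      exact Finset.Ico_subset_Ico (by omega) le_rfl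
    · rw [Finset.mem_Ico] at hj
      exact Finset.Ico_subset_Ico (by omega) le_rfl

end Pool.Agent.Lib.MP_b78339_an
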