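import Pool.Agent.Lib.MP_b78339_an.Basic

set_option autoImplicit false

open MeasureTheory
open scoped ENNReal NNReal ComplexConjugate

namespace Pool.Agent.Lib.MP_b78339_an

lemma jensen_w {α : Type*} [MeasurableSpace α] (μ : Measure α) {w x : α → ℝ≥0∞}
    (hw : AEMeasurable w μ) (hx : AEMeasurable x μ) {σ : ℝ} (hσ : 1 ≤ σ) :
    (∫⁻ a, w a * x a ∂μ) ^ σ ≤ (∫⁻ a, w a ∂μ) ^ (σ - 1) * ∫⁻ a, w a * x a ^ σ ∂μ := by
  have h0 : 0 < σ := by linarith
  have h1 : 0 ≤ 1 / σ := by positivity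
  have h2 : 0 ≤ 1 - 1 / σ := by
    rw [sub_nonneg, div_le_one h0]; exact hσ
  have key := ENNReal.lintegral_mul_norm_pow_le (μ := μ) (f := fun a => w a * x a ^ σ) (g := w)
    (hw.mul (hx.pow_const σ)) hw h1 h2 (by ring)
  have h3 : ∀ a, (w a * x a ^ σ) ^ (1 / σ) * w a ^ (1 - 1 / σ) = w a * x a := by
    intro a
    rw [ENNReal.mul_rpow_of_nonneg _ _ h1, ← ENNReal.rpow_mul, mul_one_div_cancel h0.ne',
      ENNReal.rpow_one, mul_right_comm, ← ENNReal.rpow_add_of_nonneg _ _ h1 h2]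
    simp
  simp only [h3] at key
  refine (ENNReal.rpow_le_rpow key h0.le).trans (le_of_eq ?_)
  rw [ENNReal.mul_rpow_of_nonneg _ _ h0.le, ← ENNReal.rpow_mul, ← ENNReal.rpow_mul,
    one_div_mul_cancel h0.ne', ENNReal.rpow_one, mul_comm]
  congr 2
  field_simp

variable {X : Type*} [NormedAddCommGroup X] [NormedSpace ℂ X]

lemma young {p : ℝ} (hp : 1 ≤ p) {k : T → ℂ} (hk : Continuous k) {f : T → X}
    (hf : AEStronglyMeasurable f) : nrm p (conv k f) ≤ (∫⁻ t, ‖k t‖ₑ) * nrm p f := by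
  have h0 : 0 < p := by linarith
  set A := ∫⁻ t, ‖k t‖ₑ with hA
  have hfm : AEMeasurable (fun y => ‖f y‖ₑ) volume := hf.enorm
  have h1 : ∀ x, ‖conv k f x‖ₑ ^ p ≤ A ^ (p - 1) * ∫⁻ y, ‖k (x - y)‖ₑ * ‖f y‖ₑ ^ p := by
    intro x
    have hkm : AEMeasurable (fun y => ‖k (x - y)‖ₑ) volume :=
      (Continuous.enorm (by fun_prop)).measurable.aemeasurable
    have := jensen_w volume hkm hfm hp
    rw [lintegral_sub_left_eq_self (fun t => ‖k t‖ₑ) x] at this
    refine le_trans (ENNReal.rpow_le_rpow ?_ h0.le) this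
    refine (enorm_integral_le_lintegral_enorm _).trans (le_of_eq ?_)
    simp only [enorm_smul]
  have h2 : ∫⁻ x, ‖conv k f x‖ₑ ^ p ≤ A ^ p * ∫⁻ y, ‖f y‖ₑ ^ p := by
    have hm : AEMeasurable (Function.uncurry fun x y : T => ‖k (x - y)‖ₑ * ‖f y‖ₑ ^ p)
        (volume.prod volume) := by
      refine AEMeasurable.mul ?_ ((hfm.pow_const p).comp_snd)
      exact (Continuous.enorm (f := fun z : T × T => k (z.1 - z.2))
        (by fun_prop)).measurable.aemeasurable
    calc ∫⁻ x, ‖conv k f x‖ₑ ^ p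
        ≤ ∫⁻ x, A ^ (p - 1) * ∫⁻ y, ‖k (x - y)‖ₑ * ‖f y‖ₑ ^ p := lintegral_mono h1
      _ = A ^ (p - 1) * ∫⁻ x, ∫⁻ y, ‖k (x - y)‖ₑ * ‖f y‖ₑ ^ p := by
        rw [lintegral_const_mul'' _ hm.lintegral_prod_right]
      _ = A ^ (p - 1) * ∫⁻ y, ∫⁻ x, ‖k (x - y)‖ₑ * ‖f y‖ₑ ^ p := by
        rw [lintegral_lintegral_swap hm]
      _ = A ^ (p - 1) * ∫⁻ y, A * ‖f y‖ₑ ^ p := by
        congr 2; ext y
        rw [lintegral_mul_const _ (Continuous.enorm (by fun_prop)).measurable,
          lintegral_sub_right_eq_self (fun t => ‖k t‖ₑ) y]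
      _ = A ^ p * ∫⁻ y, ‖f y‖ₑ ^ p := by
        rw [lintegral_const_mul'' _ (hfm.pow_const p), ← mul_assoc]
        congr 1
        conv_rhs => rw [show p = (p - 1) + 1 by ring,
          ENNReal.rpow_add_of_nonneg _ _ (by linarith) zero_le_one, ENNReal.rpow_one]
  rw [nrm_eq h0, nrm_eq h0]
  refine (ENNReal.rpow_le_rpow h2 (by positivity)).trans (le_of_eq ?_)
  rw [ENNReal.mul_rpow_of_nonneg _ _ (by positivity), ← ENNReal.rpow_mul,
    mul_one_div_cancel h0.ne', ENNReal.rpow_one]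

lemma integral_dir_sq (J : Finset ℤ) : ∫ t, ‖dir J t‖ ^ 2 = J.card := by
  have h1 : ∀ t, ((‖dir J t‖ ^ 2 : ℝ) : ℂ) = ∑ n ∈ J, e (-n) t • poly J (fun _ => (1 : ℂ)) t := by
    intro t
    have : poly J (fun _ => (1 : ℂ)) t = dir J t := by simp [poly, dir]
    rw [this, ← Finset.sum_smul, smul_eq_mul, Complex.ofReal_pow, ← Complex.conj_mul']
    congr 1
    simp only [dir, map_sum, conj_e]
  have h2 : ((∫ t, ‖dir J t‖ ^ 2 : ℝ) : ℂ) = J.card := by
    rw [← integral_complex_ofReal]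
    simp only [h1]
    rw [integral_finset_sum _ fun n _ => cont_integrable (by fun_prop)]
    have : ∀ n ∈ J, ∫ t, e (-n) t • poly J (fun _ => (1 : ℂ)) t = 1 := by
      intro n hn
      have := fc_poly J (fun _ => (1 : ℂ)) n
      rw [if_pos hn] at this
      exact this
    rw [Finset.sum_congr rfl this]; simp
  exact_mod_cast h2

lemma lintegral_enorm_cont {E : Type*} [NormedAddCommGroup E] {f : T → E} (hf : Continuous f) :
    ∫⁻ t, ‖f t‖ₑ = ENNReal.ofReal (∫ t, ‖f t‖) :=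
  (ofReal_integral_norm_eq_lintegral_enorm (cont_integrable hf)).symm

lemma dir_shift (J : Finset ℤ) (j : ℤ) (t : T) :
    dir (J.map (addRightEmbedding j)) t = e j t * dir J t := by
  simp only [dir, Finset.sum_map, addRightEmbedding_apply, e_add, Finset.mul_sum, mul_comm]

variable [CompleteSpace X]

lemma smooth (S : Finset ℤ) {f : T → X} (hf : Integrable f) :
    ∃ (S' : Finset ℤ) (x : ℤ → X), (∀ n ∈ S, fc (poly S' x) n = fc f n) ∧
      ∀ p : ℝ, 1 ≤ p → nrm p (poly S' x) ≤ 2 * nrm p f := by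
  classical
  obtain ⟨N, hN⟩ : ∃ N : ℕ, ∀ n ∈ S, |n| ≤ N := by
    obtain ⟨N, hN⟩ := (S.image fun n => n.natAbs).bddAbove
    refine ⟨N, fun n hn => ?_⟩
    have := hN (Finset.mem_coe.mpr (Finset.mem_image_of_mem _ hn))
    rw [← Int.natCast_natAbs]; exact_mod_cast this
  set B : Finset ℤ := Finset.Ico (-(N : ℤ) - (N + 1)) (N + 1) with hB
  set A : Finset ℤ := Finset.Ico 0 ((N : ℤ) + 1) with hA
  set J : ℤ → Finset ℤ := fun j => B.map (addRightEmbedding j) with hJ
  set c : ℂ := ((N : ℂ) + 1)⁻¹ with hc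
  set k : T → ℂ := fun t => c * ∑ j ∈ A, dir (J j) t with hk
  have hkc : Continuous k := by rw [hk]; fun_prop
  have hg : conv k f = fun x => c • ∑ j ∈ A, D (J j) f x := by
    ext x; exact conv_avg A c J hf x
  have hfc : ∀ n, fc (conv k f) n = c • ∑ j ∈ A, if n ∈ J j then fc f n else 0 := by
    intro n
    rw [hg, fc_smul, fc_sum A (f := fun j => D (J j) f) fun j _ => cont_integrable (by fun_prop)]
    simp only [fc_D]
  have hAc : (A.card : ℝ) = N + 1 := by
    have : A.card = N + 1 := by rw [hA, Int.card_Ico]; omega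
    rw [this]; push_cast; ring
  have hBc : (B.card : ℝ) = 3 * N + 2 := by
    have : B.card = 3 * N + 2 := by rw [hB, Int.card_Ico]; omega
    rw [this]; push_cast; ring
  refine ⟨A.biUnion J, fc (conv k f), ?_, ?_⟩
  · intro n hn
    have hmem : ∀ j ∈ A, n ∈ J j := by
      intro j hj
      have := abs_le.mp (hN n hn)
      simp only [hJ, hA, hB, Finset.mem_map, addRightEmbedding_apply, Finset.mem_Ico] at hj ⊢
      exact ⟨n - j, by omega, by ring⟩
    rw [fc_poly, if_pos (Finset.mem_biUnion.mpr ⟨0, by simp [hA], hmem 0 (by simp [hA])⟩), hfc,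
      Finset.sum_congr rfl fun j hj => if_pos (hmem j hj), Finset.sum_const,
      ← Nat.cast_smul_eq_nsmul ℂ, smul_smul]
    have : (A.card : ℂ) = N + 1 := by exact_mod_cast hAc
    rw [this, hc, inv_mul_cancel₀ (by exact_mod_cast Nat.succ_ne_zero N), one_smul]
  · intro p hp
    have h1 : poly (A.biUnion J) (fc (conv k f)) = conv k f := by
      change D _ _ = _
      ext x
      conv_lhs => rw [hg]
      rw [D_smul, D_sum _ A (f := fun j => D (J j) f) fun j _ => cont_integrable (by fun_prop), hg]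
      congr 1
      refine Finset.sum_congr rfl fun j hj => ?_
      rw [D_D, Finset.inter_eq_right.mpr (Finset.subset_biUnion_of_mem J hj)]
    rw [h1]
    refine (young hp hkc hf.aestronglyMeasurable).trans (mul_le_mul_left ?_ _)
    rw [lintegral_enorm_cont hkc]
    have h2 : ∀ t, ‖k t‖ ≤ ((N : ℝ) + 1)⁻¹ * (‖dir A t‖ ^ 2 + ‖dir B t‖ ^ 2 / 4) := by
      intro t
      have : k t = c * (dir A t * dir B t) := by
        simp only [hk, hJ, dir_shift]
        rw [← Finset.sum_mul]; rfl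
      rw [this, norm_mul, norm_mul, hc, norm_inv]
      have h3 : ‖(N : ℂ) + 1‖ = N + 1 := by exact_mod_cast Complex.norm_natCast (N + 1)
      rw [h3]
      refine mul_le_mul_of_nonneg_left ?_ (by positivity)
      nlinarith [sq_nonneg (‖dir A t‖ - ‖dir B t‖ / 2)]
    have h3 : ∫ t, ‖k t‖ ≤ 2 := by
      refine (integral_mono (cont_integrable hkc.norm) (cont_integrable (by fun_prop)) h2).trans ?_
      rw [integral_const_mul, integral_add (cont_integrable (by fun_prop))
        (cont_integrable (by fun_prop)), integral_div, integral_dir_sq, integral_dir_sq, hAc, hBc,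
        inv_mul_le_iff₀ (by positivity)]
      have : (0 : ℝ) ≤ N := by positivity
      linarith
    exact (ENNReal.ofReal_le_ofReal h3).trans (by simp)

end Pool.Agent.Lib.MP_b78339_an
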